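import Mathlib
import Pool.Agent.Lib.MP_a24e3f_co.Defs

/-!
# Gluing rational graphs at vertices
-/

set_option autoImplicit false

namespace Pool.Agent.Lib.MP_a24e3f_co.CC

/-- twice the oriented area of the triangle `p q r` -/
def ar (p q r : Plane) : ℝ := (q 0 - p 0) * (r 1 - p 1) - (q 1 - p 1) * (r 0 - p 0)

theorem ar_rot (p q r : Plane) : ar q r p = ar p q r := by unfold ar; ring

theorem ar_swap (p q r : Plane) : ar q p r = -ar p q r := by unfold ar; ring

theorem col_iff {p q r : Plane} (hpq : p ≠ q) : Collinear ℝ {p, q, r} ↔ ar p q r = 0 := by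
  rw [collinear_iff_of_mem (p₀ := p) (by simp)]
  constructor
  · rintro ⟨v, hv⟩
    obtain ⟨a, ha⟩ := hv q (by simp)
    obtain ⟨b, hb⟩ := hv r (by simp)
    have a0 := congrArg (fun x : Plane => x 0) ha
    have a1 := congrArg (fun x : Plane => x 1) ha
    have b0 := congrArg (fun x : Plane => x 0) hb
    have b1 := congrArg (fun x : Plane => x 1) hb
    simp only [vadd_eq_add, PiLp.add_apply, PiLp.smul_apply, smul_eq_mul] at a0 a1 b0 b1
    unfold ar
    rw [a0, a1, b0, b1]
    ring
  · intro h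
    unfold ar at h
    refine ⟨q - p, ?_⟩
    have key : ∃ t : ℝ, r 0 = t * (q 0 - p 0) + p 0 ∧ r 1 = t * (q 1 - p 1) + p 1 := by
      by_cases h1 : q 0 - p 0 = 0
      · have h2 : q 1 - p 1 ≠ 0 := by
          intro h2
          apply hpq
          ext i
          fin_cases i
          · show p 0 = q 0; linarith
          · show p 1 = q 1; linarith
        refine ⟨(r 1 - p 1) / (q 1 - p 1), ?_, ?_⟩
        · rw [h1] at h ⊢
          have h3 : (q 1 - p 1) * (r 0 - p 0) = 0 := by linarith
          have h4 := (mul_eq_zero.mp h3).resolve_left h2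
          linarith
        · field_simp
          ring
      · refine ⟨(r 0 - p 0) / (q 0 - p 0), ?_, ?_⟩
        · field_simp
          ring
        · field_simp
          linarith
    obtain ⟨t, ht1, ht2⟩ := key
    intro x hx
    simp only [Set.mem_insert_iff, Set.mem_singleton_iff] at hx
    rcases hx with rfl | rfl | rfl
    · exact ⟨0, by simp⟩
    · exact ⟨1, by simp⟩
    · refine ⟨t, ?_⟩
      ext i
      fin_cases i
      · show x 0 = t * (q 0 - p 0) + p 0
        exact ht1
      · show x 1 = t * (q 1 - p 1) + p 1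
        exact ht2

section

variable {V : Type} (G : SimpleGraph V)

/-- a representation of the graph induced on `A` -/
structure RepOn (A : Set V) (h : V → Plane) : Prop where
  inj : ∀ u ∈ A, ∀ v ∈ A, h u = h v → u = v
  col : ∀ u ∈ A, ∀ v ∈ A, ∀ w ∈ A, u ≠ v → v ≠ w → u ≠ w → ar (h u) (h v) (h w) ≠ 0
  adj : ∀ u ∈ A, ∀ v ∈ A, u ≠ v → (G.Adj u v ↔ ∃ q : ℚ, dist (h u) (h v) = (q : ℝ))

variable {G}

theorem RepOn.mono {A A' : Set V} {h : V → Plane} (hh : RepOn G A h) (hA : A' ⊆ A) :
    RepOn G A' h :=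
  ⟨fun u hu v hv => hh.inj u (hA hu) v (hA hv),
    fun u hu v hv w hw => hh.col u (hA hu) v (hA hv) w (hA hw),
    fun u hu v hv => hh.adj u (hA hu) v (hA hv)⟩

theorem RepOn.of_induce {A : Set V} {f : A → Plane} (hf : IsRationalRep (G.induce A) f) :
    ∃ g : V → Plane, RepOn G A g := by
  classical
  let g : V → Plane := fun v => if h : v ∈ A then f ⟨v, h⟩ else 0
  have hg : ∀ v (h : v ∈ A), g v = f ⟨v, h⟩ := fun v h => dif_pos h
  refine ⟨g, ?_, ?_, ?_⟩
  · intro u hu v hv heq
    rw [hg u hu, hg v hv] at heq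
    exact congrArg Subtype.val (hf.injective heq)
  · intro u hu v hv w hw huv hvw huw
    have h1 := hf.no_three_collinear ⟨u, hu⟩ ⟨v, hv⟩ ⟨w, hw⟩
      (fun h => huv (congrArg Subtype.val h)) (fun h => hvw (congrArg Subtype.val h))
      (fun h => huw (congrArg Subtype.val h))
    rw [hg u hu, hg v hv, hg w hw]
    rwa [col_iff (fun h => huv (congrArg Subtype.val (hf.injective h)))] at h1
  · intro u hu v hv huv
    rw [hg u hu, hg v hv]
    exact hf.adj_iff ⟨u, hu⟩ ⟨v, hv⟩ (fun h => huv (congrArg Subtype.val h))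

theorem RepOn.toRep {h : V → Plane} (hh : RepOn G Set.univ h) : IsRationalRep G h := by
  refine ⟨?_, ?_, ?_⟩
  · intro u v heq
    exact hh.inj u trivial v trivial heq
  · intro u v w huv hvw huw
    rw [col_iff (fun h' => huv (hh.inj u trivial v trivial h'))]
    exact hh.col u trivial v trivial w trivial huv hvw huw
  · intro u v huv
    exact hh.adj u trivial v trivial huv

/-- gluing with a good motion -/
theorem glue_core {A B : Set V} {h g : V → Plane} (hh : RepOn G A h) (hg : RepOn G B g)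
    (hno : ∀ a ∈ A, a ∉ B → ∀ b ∈ B, b ∉ A → ¬ G.Adj a b) (T : Plane → Plane)
    (t1 : ∀ x y, dist (T x) (T y) = dist x y)
    (t2 : ∀ x y z, ar (T x) (T y) (T z) = ar x y z)
    (t3 : ∀ c ∈ A, c ∈ B → T (g c) = h c)
    (t4 : ∀ a ∈ A, a ∉ B → ∀ b ∈ B, b ∉ A → ∀ q : ℚ, dist (h a) (T (g b)) ≠ (q : ℝ))
    (t5 : ∀ a ∈ A, ∀ a' ∈ A, a ≠ a' → ∀ b ∈ B, b ∉ A → ar (h a) (h a') (T (g b)) ≠ 0)
    (t6 : ∀ a ∈ A, a ∉ B → ∀ b ∈ B, ∀ b' ∈ B, b ≠ b' → ar (T (g b)) (T (g b')) (h a) ≠ 0) :
    ∃ h' : V → Plane, RepOn G (A ∪ B) h' ∧ ∀ a ∈ A, h' a = h a := by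
  classical
  let h' : V → Plane := fun v => if v ∈ A then h v else T (g v)
  have eA : ∀ v ∈ A, h' v = h v := fun v hv => if_pos hv
  have eB : ∀ v ∈ B, h' v = T (g v) := by
    intro v hv
    by_cases hA : v ∈ A
    · rw [eA v hA, t3 v hA hv]
    · exact if_neg hA
  have Tinj : ∀ x y, T x = T y → x = y := by
    intro x y hxy
    have h1 := t1 x y
    rw [hxy, dist_self] at h1
    exact dist_eq_zero.mp h1.symm
  have allB : ∀ u ∈ B, ∀ v ∈ B, ∀ w ∈ B, u ≠ v → v ≠ w → u ≠ w →
      ar (h' u) (h' v) (h' w) ≠ 0 := by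
    intro u hu v hv w hw huv hvw huw
    rw [eB u hu, eB v hv, eB w hw, t2]
    exact hg.col u hu v hv w hw huv hvw huw
  have two : ∀ a ∈ A, ∀ a' ∈ A, a ≠ a' → ∀ b ∈ B, b ∉ A → ar (h' a) (h' a') (h' b) ≠ 0 := by
    intro a ha a' ha' haa b hb hbA
    rw [eA a ha, eA a' ha', eB b hb]
    exact t5 a ha a' ha' haa b hb hbA
  have one : ∀ a ∈ A, ∀ b ∈ B, b ∉ A → ∀ b' ∈ B, b' ∉ A → b ≠ b' →
      ar (h' b) (h' b') (h' a) ≠ 0 := by
    intro a ha b hb hbA b' hb' hbA' hbb
    by_cases haB : a ∈ B
    · refine allB b hb b' hb' a haB hbb ?_ ?_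
      · rintro rfl; exact hbA' ha
      · rintro rfl; exact hbA ha
    · rw [eB b hb, eB b' hb', eA a ha]
      exact t6 a ha haB b hb b' hb' hbb
  refine ⟨h', ⟨?_, ?_, ?_⟩, eA⟩
  · have mix : ∀ a ∈ A, a ∉ B → ∀ b ∈ B, b ∉ A → h' a ≠ h' b := by
      intro a ha haB b hb hbA heq
      rw [eA a ha, eB b hb] at heq
      apply t4 a ha haB b hb hbA 0
      rw [heq, dist_self]
      simp
    intro u hu v hv heq
    by_cases huB : u ∈ B
    · by_cases hvB : v ∈ B
      · rw [eB u huB, eB v hvB] at heq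
        exact hg.inj u huB v hvB (Tinj _ _ heq)
      · have hvA : v ∈ A := hv.resolve_right hvB
        by_cases huA : u ∈ A
        · rw [eA u huA, eA v hvA] at heq
          exact hh.inj u huA v hvA heq
        · exact absurd heq.symm (mix v hvA hvB u huB huA)
    · have huA : u ∈ A := hu.resolve_right huB
      by_cases hvA : v ∈ A
      · rw [eA u huA, eA v hvA] at heq
        exact hh.inj u huA v hvA heq
      · exact absurd heq (mix u huA huB v (hv.resolve_left hvA) hvA)
  · intro u hu v hv w hw huv hvw huw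
    by_cases huA : u ∈ A
    · by_cases hvA : v ∈ A
      · by_cases hwA : w ∈ A
        · rw [eA u huA, eA v hvA, eA w hwA]
          exact hh.col u huA v hvA w hwA huv hvw huw
        · exact two u huA v hvA huv w (hw.resolve_left hwA) hwA
      · by_cases hwA : w ∈ A
        · rw [← ar_rot, ← ar_rot]
          exact two w hwA u huA huw.symm v (hv.resolve_left hvA) hvA
        · rw [← ar_rot]
          exact one u huA v (hv.resolve_left hvA) hvA w (hw.resolve_left hwA) hwA hvw
    · by_cases hvA : v ∈ A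
      · by_cases hwA : w ∈ A
        · rw [← ar_rot]
          exact two v hvA w hwA hvw u (hu.resolve_left huA) huA
        · rw [← ar_rot, ← ar_rot]
          exact one v hvA w (hw.resolve_left hwA) hwA u (hu.resolve_left huA) huA huw.symm
      · by_cases hwA : w ∈ A
        · exact one w hwA u (hu.resolve_left huA) huA v (hv.resolve_left hvA) hvA huv
        · exact allB u (hu.resolve_left huA) v (hv.resolve_left hvA) w (hw.resolve_left hwA)
            huv hvw huw
  · have mix : ∀ a ∈ A, a ∉ B → ∀ b ∈ B, b ∉ A →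
        (G.Adj a b ↔ ∃ q : ℚ, dist (h' a) (h' b) = (q : ℝ)) := by
      intro a ha haB b hb hbA
      constructor
      · intro hadj
        exact absurd hadj (hno a ha haB b hb hbA)
      · rintro ⟨q, hq⟩
        rw [eA a ha, eB b hb] at hq
        exact absurd hq (t4 a ha haB b hb hbA q)
    intro u hu v hv huv
    by_cases huB : u ∈ B
    · by_cases hvB : v ∈ B
      · rw [eB u huB, eB v hvB, t1]
        exact hg.adj u huB v hvB huv
      · have hvA : v ∈ A := hv.resolve_right hvB
        by_cases huA : u ∈ A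
        · rw [eA u huA, eA v hvA]
          exact hh.adj u huA v hvA huv
        · rw [G.adj_comm, dist_comm]
          exact mix v hvA hvB u huB huA
    · have huA : u ∈ A := hu.resolve_right huB
      by_cases hvA : v ∈ A
      · rw [eA u huA, eA v hvA]
        exact hh.adj u huA v hvA huv
      · exact mix u huA huB v (hv.resolve_left hvA) hvA

end

end Pool.Agent.Lib.MP_a24e3f_co.CC
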