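import Mathlib
import Pool.Agent.Lib.MP_a24e3f_co.CC.Glue

/-!
# Sets which contain all blocks they meet in an edge, and the extension by one block
-/

set_option autoImplicit false

namespace Pool.Agent.Lib.MP_a24e3f_co.CC

section

variable {V : Type} (G : SimpleGraph V)

/-- The set `B` of vertices of `G` induces a connected graph without cut vertex. -/
def NonSep (B : Set V) : Prop :=
  (G.induce B).Preconnected ∧ ∀ x, (G.induce (B \ {x})).Preconnected

/-- `B` is the vertex set of a block of `G`: a maximal set of vertices which induces a connected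
graph without cut vertex. -/
def IsBlock (B : Set V) : Prop := Maximal (NonSep G) B

/-- a step inside `S` -/
def st (S : Set V) (a b : V) : Prop := G.Adj a b ∧ a ∈ S ∧ b ∈ S

/-- reachable by steps inside `S` -/
def Re (S : Set V) (a b : V) : Prop := Relation.ReflTransGen (st G S) a b

/-- `S` is connected or empty -/
def Pre (S : Set V) : Prop := ∀ u ∈ S, ∀ v ∈ S, Re G S u v

/-- no component of the complement of `A` has two neighbours in `A` -/
def Cl (A : Set V) : Prop :=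
  ∀ u v, u ∉ A → v ∉ A → Re G Aᶜ u v → ∀ a ∈ A, ∀ b ∈ A, G.Adj a u → G.Adj v b → a = b

variable {G}

theorem Re.mono {S T : Set V} (h : S ⊆ T) {u v : V} (hr : Re G S u v) : Re G T u v :=
  Relation.ReflTransGen.mono (fun _ _ hab => ⟨hab.1, h hab.2.1, h hab.2.2⟩) _ _ hr

theorem Re.symm {S : Set V} {u v : V} (hr : Re G S u v) : Re G S v u := by
  induction hr with
  | refl => exact Relation.ReflTransGen.refl
  | tail _ hs ih => exact Relation.ReflTransGen.head ⟨hs.1.symm, hs.2.2, hs.2.1⟩ ih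

theorem Re.step {S : Set V} {u v : V} (h : G.Adj u v) (hu : u ∈ S) (hv : v ∈ S) : Re G S u v :=
  Relation.ReflTransGen.single ⟨h, hu, hv⟩

theorem Re.refl (S : Set V) (u : V) : Re G S u u := Relation.ReflTransGen.refl

theorem Re.trans {S : Set V} {u v w : V} (h : Re G S u v) (h' : Re G S v w) : Re G S u w :=
  Relation.ReflTransGen.trans h h'

theorem re_reach {S : Set V} {u v : V} (hu : u ∈ S) (h : Re G S u v) :
    ∃ hv : v ∈ S, (G.induce S).Reachable ⟨u, hu⟩ ⟨v, hv⟩ := by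
  induction h with
  | refl => exact ⟨hu, SimpleGraph.Reachable.refl _⟩
  | tail _ hs ih =>
    obtain ⟨hw, hr⟩ := ih
    refine ⟨hs.2.2, hr.trans (SimpleGraph.Adj.reachable ?_)⟩
    exact hs.1

theorem pre_iff {S : Set V} : (G.induce S).Preconnected ↔ Pre G S := by
  constructor
  · intro h u hu v hv
    have h1 := h ⟨u, hu⟩ ⟨v, hv⟩
    rw [SimpleGraph.reachable_iff_reflTransGen] at h1
    exact Relation.ReflTransGen.lift (r := (G.induce S).Adj) (p := st G S)
      (fun x : S => (x : V)) (fun a b hab => ⟨hab, a.2, b.2⟩) _ _ h1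
  · rintro h ⟨u, hu⟩ ⟨v, hv⟩
    obtain ⟨_, h1⟩ := re_reach hu (h u hu v hv)
    exact h1

theorem nonSep_iff {B : Set V} : NonSep G B ↔ ∀ X : Set V, X.Subsingleton → Pre G (B \ X) := by
  constructor
  · rintro ⟨h1, h2⟩ X hX
    rcases hX.eq_empty_or_singleton with rfl | ⟨x, rfl⟩
    · rw [Set.sdiff_empty]
      exact pre_iff.mp h1
    · exact pre_iff.mp (h2 x)
  · intro h
    refine ⟨?_, ?_⟩
    · have := h ∅ Set.subsingleton_empty
      rw [Set.sdiff_empty] at this
      exact pre_iff.mpr this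
    · intro x
      exact pre_iff.mpr (h {x} Set.subsingleton_singleton)

/-- the first exit -/
theorem exit {A S : Set V} {y z : V} (hy : y ∉ A) (h : Re G S y z) :
    (Re G Aᶜ y z ∧ z ∉ A) ∨ ∃ v b, Re G Aᶜ y v ∧ v ∉ A ∧ b ∈ A ∧ b ∈ S ∧ G.Adj v b := by
  induction h with
  | refl => exact Or.inl ⟨Re.refl _ _, hy⟩
  | @tail w z _ hs ih =>
    rcases ih with ⟨h1, h2⟩ | h1
    · by_cases hz : z ∈ A
      · exact Or.inr ⟨w, z, h1, h2, hz, hs.2.2, hs.1⟩
      · exact Or.inl ⟨h1.trans (Re.step hs.1 h2 hz), hz⟩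
    · exact Or.inr h1

/-- adding an ear -/
theorem ear {B : Set V} (hB : NonSep G B) {K : Set V} (hK : ∀ x ∈ K, x ∉ B) {p q u v : V}
    (hp : p ∈ B) (hq : q ∈ B) (hpq : p ≠ q) (hu : u ∈ K) (huv : Re G K u v) (hpu : G.Adj p u)
    (hvq : G.Adj v q) : ∃ B' : Set V, NonSep G B' ∧ B ⊆ B' ∧ u ∈ B' := by
  classical
  obtain ⟨hv, ⟨W⟩⟩ := re_reach hu huv
  obtain ⟨P, hP⟩ := W.toPath
  set n := P.length with hn
  set w : ℕ → V := fun i => (P.getVert i : V) with hw
  have w0 : w 0 = u := by simp [hw]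
  have wn : w n = v := by simp [hw, hn]
  have wK : ∀ i, w i ∈ K := fun i => (P.getVert i).2
  have wadj : ∀ i, i < n → G.Adj (w i) (w (i + 1)) := fun i hi => P.adj_getVert_succ hi
  have winj : ∀ i j, i ≤ n → j ≤ n → w i = w j → i = j := by
    intro i j hi hj hij
    exact hP.getVert_injOn hi hj (Subtype.ext hij)
  refine ⟨B ∪ {z | ∃ i ≤ n, w i = z}, ?_, Set.subset_union_left, Or.inr ⟨0, Nat.zero_le _, w0⟩⟩
  rw [nonSep_iff] at hB ⊢
  intro X hX
  have hin : ∀ i ≤ n, w i ∉ X → w i ∈ (B ∪ {z | ∃ i ≤ n, w i = z}) \ X := by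
    intro i hi hiX
    exact ⟨Or.inr ⟨i, hi, rfl⟩, hiX⟩
  have hsub : B \ X ⊆ (B ∪ {z | ∃ i ≤ n, w i = z}) \ X := fun z hz => ⟨Or.inl hz.1, hz.2⟩
  -- down
  have down : ∀ i ≤ n, (∀ j ≤ i, w j ∉ X) →
      Re G ((B ∪ {z | ∃ i ≤ n, w i = z}) \ X) (w i) (w 0) := by
    intro i
    induction i with
    | zero => intro _ _; exact Re.refl _ _
    | succ i ih =>
      intro hi hX'
      refine (Re.step (wadj i (by omega)).symm (hin _ hi (hX' _ le_rfl))
        (hin _ (by omega) (hX' _ (by omega)))).trans ?_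
      exact ih (by omega) (fun j hj => hX' j (by omega))
  have up : ∀ k i, i + k = n → (∀ j, i ≤ j → j ≤ n → w j ∉ X) →
      Re G ((B ∪ {z | ∃ i ≤ n, w i = z}) \ X) (w i) (w n) := by
    intro k
    induction k with
    | zero =>
      intro i hi _
      have : i = n := by omega
      rw [this]
      exact Re.refl _ _
    | succ k ih =>
      intro i hi hX'
      refine (Re.step (wadj i (by omega)) (hin _ (by omega) (hX' _ le_rfl (by omega)))
        (hin _ (by omega) (hX' _ (by omega) (by omega)))).trans ?_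
      exact ih (i + 1) (by omega) (fun j hj hj' => hX' j (by omega) hj')
  have toB : ∀ z ∈ (B ∪ {z | ∃ i ≤ n, w i = z}) \ X,
      ∃ b ∈ B \ X, Re G ((B ∪ {z | ∃ i ≤ n, w i = z}) \ X) z b := by
    rintro z ⟨hz | ⟨i, hi, rfl⟩, hzX⟩
    · exact ⟨z, ⟨hz, hzX⟩, Re.refl _ _⟩
    · by_cases h1 : p ∉ X ∧ ∀ j ≤ i, w j ∉ X
      · refine ⟨p, ⟨hp, h1.1⟩, (down i hi h1.2).trans ?_⟩
        refine Re.step ?_ (hin 0 (Nat.zero_le _) (h1.2 0 (Nat.zero_le _))) (hsub ⟨hp, h1.1⟩)
        rw [w0]; exact hpu.symm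
      · by_cases h2 : q ∉ X ∧ ∀ j, i ≤ j → j ≤ n → w j ∉ X
        · refine ⟨q, ⟨hq, h2.1⟩, (up (n - i) i (by omega) h2.2).trans ?_⟩
          refine Re.step ?_ (hin n le_rfl (h2.2 n hi le_rfl)) (hsub ⟨hq, h2.1⟩)
          rw [wn]; exact hvq
        · exfalso
          have k1 : p ∈ X ∨ ∃ j ≤ i, w j ∈ X := by
            by_contra hcon
            push Not at hcon
            exact h1 hcon
          have k2 : q ∈ X ∨ ∃ j, i ≤ j ∧ j ≤ n ∧ w j ∈ X := by
            by_contra hcon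
            push Not at hcon
            exact h2 hcon
          rcases k1 with k1 | ⟨j, hj, k1⟩
          · rcases k2 with k2 | ⟨j', hj', hj2, k2⟩
            · exact hpq (hX k1 k2)
            · exact hK _ (wK j') (hX k2 k1 ▸ hp)
          · rcases k2 with k2 | ⟨j', hj', hj2, k2⟩
            · exact hK _ (wK j) (hX k1 k2 ▸ hq)
            · have h3 := winj j j' (by omega) hj2 (hX k1 k2)
              have h4 : j = i := by omega
              exact hzX (h4 ▸ k1)
  intro z hz z' hz'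
  obtain ⟨b, hb, h1⟩ := toB z hz
  obtain ⟨b', hb', h2⟩ := toB z' hz'
  exact (h1.trans ((hB X hX b hb b' hb').mono hsub)).trans h2.symm

/-- every edge is in a block -/
theorem block_of_edge {a y : V} (h : G.Adj a y) : ∃ B, IsBlock G B ∧ a ∈ B ∧ y ∈ B := by
  have h0 : NonSep G {a, y} := by
    rw [nonSep_iff]
    intro X _ u hu v hv
    rcases hu.1 with rfl | hu'
    · rcases hv.1 with rfl | hv'
      · exact Re.refl _ _
      · rw [Set.mem_singleton_iff] at hv'
        subst hv'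
        exact Re.step h hu hv
    · rw [Set.mem_singleton_iff] at hu'
      subst hu'
      rcases hv.1 with rfl | hv'
      · exact Re.step h.symm hu hv
      · rw [Set.mem_singleton_iff] at hv'
        subst hv'
        exact Re.refl _ _
  have H : ∀ c ⊆ {B | NonSep G B}, IsChain (fun x1 x2 => x1 ⊆ x2) c → c.Nonempty →
      ∃ ub ∈ {B | NonSep G B}, ∀ s ∈ c, s ⊆ ub := by
    intro c hc hchain hne
    refine ⟨⋃₀ c, ?_, fun s hs => Set.subset_sUnion_of_mem hs⟩
    show NonSep G (⋃₀ c)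
    rw [nonSep_iff]
    rintro X hX u ⟨⟨s, hs, hus⟩, huX⟩ v ⟨⟨t, ht, hvt⟩, hvX⟩
    have key : ∃ r ∈ c, u ∈ r ∧ v ∈ r := by
      rcases hchain.total hs ht with h1 | h1
      · exact ⟨t, ht, h1 hus, hvt⟩
      · exact ⟨s, hs, hus, h1 hvt⟩
    obtain ⟨r, hr, hur, hvr⟩ := key
    have h1 := nonSep_iff.mp (hc hr) X hX u ⟨hur, huX⟩ v ⟨hvr, hvX⟩
    have h2 : r \ X ⊆ ⋃₀ c \ X := fun z hz => ⟨Set.mem_sUnion.mpr ⟨r, hr, hz.1⟩, hz.2⟩
    exact h1.mono h2
  obtain ⟨m, hm, hmax⟩ := zorn_subset_nonempty {B | NonSep G B} H {a, y} h0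
  exact ⟨m, hmax, hm (by simp), hm (by simp)⟩

section Step

variable {A B : Set V} (hA : Cl G A) (hB : IsBlock G B) {a y : V} (haA : a ∈ A) (hyA : y ∉ A)
  (hay : G.Adj a y) (haB : a ∈ B) (hyB : y ∈ B)

include hA hB haA hyA hay hyB

theorem inter_eq {z : V} (hzA : z ∈ A) (hzB : z ∈ B) : z = a := by
  by_contra hne
  have hya : y ≠ a := hay.ne'
  have h1 := nonSep_iff.mp hB.prop {a} Set.subsingleton_singleton y ⟨hyB, hya⟩ z ⟨hzB, hne⟩
  rcases exit hyA h1 with h2 | ⟨v, b, h2, h3, h4, h5, h6⟩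
  · exact h2.2 hzA
  · exact h5.2 (hA y v hyA h3 h2 a haA b h4 hay h6).symm

theorem reach_y {q : V} (hqB : q ∈ B) (hqA : q ∉ A) : Re G Aᶜ q y := by
  have hya : y ≠ a := hay.ne'
  have hqa : q ≠ a := by rintro rfl; exact hqA haA
  have h1 := nonSep_iff.mp hB.prop {a} Set.subsingleton_singleton q ⟨hqB, hqa⟩ y ⟨hyB, hya⟩
  exact h1.mono (fun z hz hzA => hz.2 (inter_eq hA hB haA hyA hay hyB hzA hz.1))

include haB

theorem no_edge {a' b : V} (ha' : a' ∈ A) (ha'B : a' ∉ B) (hbB : b ∈ B) (hbA : b ∉ A) :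
    ¬ G.Adj a' b := by
  intro hadj
  have h1 := hA b y hbA hyA (reach_y hA hB haA hyA hay hyB hbB hbA) a' ha' a haA hadj hay.symm
  exact ha'B (h1 ▸ haB)

theorem cl_union : Cl G (A ∪ B) := by
  have mixed : ∀ u v, u ∉ A ∪ B → v ∉ A ∪ B → Re G (A ∪ B)ᶜ u v → ∀ p ∈ A, p ∉ B → ∀ q ∈ B,
      q ∉ A → G.Adj p u → G.Adj v q → False := by
    intro u v hu hv huv p hp hpB q hq hqA hpu hvq
    have h1 : Re G Aᶜ u v :=
      huv.mono (T := Aᶜ) (fun z (hz : z ∉ A ∪ B) (hzA : z ∈ A) => hz (Or.inl hzA))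
    have h2 : Re G Aᶜ u y := (h1.trans (Re.step hvq (fun h => hv (Or.inl h)) hqA)).trans
      (reach_y hA hB haA hyA hay hyB hq hqA)
    have h3 := hA u y (fun h => hu (Or.inl h)) hyA h2 p hp a haA hpu hay.symm
    exact hpB (h3 ▸ haB)
  intro u v hu hv huv p hp q hq hpu hvq
  by_cases hpA : p ∈ A
  · by_cases hqA : q ∈ A
    · exact hA u v (fun h => hu (Or.inl h)) (fun h => hv (Or.inl h))
        (huv.mono (T := Aᶜ) (fun z (hz : z ∉ A ∪ B) (hzA : z ∈ A) => hz (Or.inl hzA)))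
        p hpA q hqA hpu hvq
    · have hqB : q ∈ B := hq.resolve_left hqA
      by_cases hpB : p ∈ B
      · by_contra hpq
        obtain ⟨B', h1, h2, h3⟩ := ear hB.prop (K := (A ∪ B)ᶜ) (fun x hx hxB => hx (Or.inr hxB))
          hpB hqB hpq hu huv hpu hvq
        exact hu (Or.inr (hB.le_of_ge h1 h2 h3))
      · exact (mixed u v hu hv huv p hpA hpB q hqB hqA hpu hvq).elim
  · have hpB : p ∈ B := hp.resolve_left hpA
    by_cases hqB : q ∈ B
    · by_contra hpq
      obtain ⟨B', h1, h2, h3⟩ := ear hB.prop (K := (A ∪ B)ᶜ) (fun x hx hxB => hx (Or.inr hxB))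
        hpB hqB hpq hu huv hpu hvq
      exact hu (Or.inr (hB.le_of_ge h1 h2 h3))
    · have hqA : q ∈ A := hq.resolve_right hqB
      exact (mixed v u hv hu huv.symm q hqA hqB p hpB hpA hvq.symm hpu.symm).elim

end Step

theorem cl_insert {A : Set V} (hno : ∀ a ∈ A, ∀ b, b ∉ A → ¬ G.Adj a b) (x : V) :
    Cl G (A ∪ {x}) := by
  intro u v hu hv _ a ha b hb hau hvb
  have ha' : a = x := by
    rcases ha with h | h
    · exact absurd hau (hno a h u (fun h' => hu (Or.inl h')))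
    · exact h
  have hb' : b = x := by
    rcases hb with h | h
    · exact absurd hvb.symm (hno b h v (fun h' => hv (Or.inl h')))
    · exact h
  rw [ha', hb']

end

end Pool.Agent.Lib.MP_a24e3f_co.CC
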