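import Mathlib
import Pool.Agent.Lib.MP_a24e3f_co.CC.Glue

/-!
# Generic motions
-/

set_option autoImplicit false

namespace Pool.Agent.Lib.MP_a24e3f_co.CC

open Polynomial

section

variable {V : Type} {G : SimpleGraph V}

theorem glue_family [Countable V] {A B : Set V} {h g : V → Plane} (hh : RepOn G A h)
    (hg : RepOn G B g)
    (hno : ∀ a ∈ A, a ∉ B → ∀ b ∈ B, b ∉ A → ¬ G.Adj a b) (T : ℝ → Plane → Plane)
    (t1 : ∀ s x y, dist (T s x) (T s y) = dist x y)
    (t2 : ∀ s x y z, ar (T s x) (T s y) (T s z) = ar x y z)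
    (t3 : ∀ s, ∀ c ∈ A, c ∈ B → T s (g c) = h c)
    (f4 : ∀ a ∈ A, a ∉ B → ∀ b ∈ B, b ∉ A → ∀ q : ℚ,
      {s : ℝ | dist (h a) (T s (g b)) = (q : ℝ)}.Finite)
    (f5 : ∀ a ∈ A, ∀ a' ∈ A, a ≠ a' → ∀ b ∈ B, b ∉ A →
      {s : ℝ | ar (h a) (h a') (T s (g b)) = 0}.Finite)
    (f6 : ∀ a ∈ A, a ∉ B → ∀ b ∈ B, ∀ b' ∈ B, b ≠ b' →
      {s : ℝ | ar (T s (g b)) (T s (g b')) (h a) = 0}.Finite) :
    ∃ h' : V → Plane, RepOn G (A ∪ B) h' ∧ ∀ a ∈ A, h' a = h a := by
  have c4 : (⋃ (a : V) (b : V) (q : ℚ), {s : ℝ | (a ∈ A ∧ a ∉ B ∧ b ∈ B ∧ b ∉ A) ∧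
      dist (h a) (T s (g b)) = (q : ℝ)}).Countable := by
    refine Set.countable_iUnion fun a => Set.countable_iUnion fun b =>
      Set.countable_iUnion fun q => ?_
    by_cases hyp : a ∈ A ∧ a ∉ B ∧ b ∈ B ∧ b ∉ A
    · exact ((f4 a hyp.1 hyp.2.1 b hyp.2.2.1 hyp.2.2.2 q).subset (fun s hs => hs.2)).countable
    · exact (Set.finite_empty.subset (fun s hs => hyp hs.1)).countable
  have c5 : (⋃ (a : V) (a' : V) (b : V), {s : ℝ | (a ∈ A ∧ a' ∈ A ∧ a ≠ a' ∧ b ∈ B ∧ b ∉ A) ∧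
      ar (h a) (h a') (T s (g b)) = 0}).Countable := by
    refine Set.countable_iUnion fun a => Set.countable_iUnion fun a' =>
      Set.countable_iUnion fun b => ?_
    by_cases hyp : a ∈ A ∧ a' ∈ A ∧ a ≠ a' ∧ b ∈ B ∧ b ∉ A
    · exact ((f5 a hyp.1 a' hyp.2.1 hyp.2.2.1 b hyp.2.2.2.1 hyp.2.2.2.2).subset
        (fun s hs => hs.2)).countable
    · exact (Set.finite_empty.subset (fun s hs => hyp hs.1)).countable
  have c6 : (⋃ (a : V) (b : V) (b' : V), {s : ℝ | (a ∈ A ∧ a ∉ B ∧ b ∈ B ∧ b' ∈ B ∧ b ≠ b') ∧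
      ar (T s (g b)) (T s (g b')) (h a) = 0}).Countable := by
    refine Set.countable_iUnion fun a => Set.countable_iUnion fun b =>
      Set.countable_iUnion fun b' => ?_
    by_cases hyp : a ∈ A ∧ a ∉ B ∧ b ∈ B ∧ b' ∈ B ∧ b ≠ b'
    · exact ((f6 a hyp.1 hyp.2.1 b hyp.2.2.1 b' hyp.2.2.2.1 hyp.2.2.2.2).subset
        (fun s hs => hs.2)).countable
    · exact (Set.finite_empty.subset (fun s hs => hyp hs.1)).countable
  obtain ⟨s, hs⟩ := (((c4.union c5).union c6).dense_compl ℝ).nonempty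
  rw [Set.mem_compl_iff, Set.mem_union, Set.mem_union, not_or, not_or] at hs
  obtain ⟨⟨hs4, hs5⟩, hs6⟩ := hs
  refine glue_core hh hg hno (T s) (t1 s) (t2 s) (t3 s) ?_ ?_ ?_
  · intro a ha haB b hb hbA q heq
    exact hs4 (Set.mem_iUnion.mpr ⟨a, Set.mem_iUnion.mpr ⟨b, Set.mem_iUnion.mpr
      ⟨q, ⟨ha, haB, hb, hbA⟩, heq⟩⟩⟩)
  · intro a ha a' ha' haa b hb hbA heq
    exact hs5 (Set.mem_iUnion.mpr ⟨a, Set.mem_iUnion.mpr ⟨a', Set.mem_iUnion.mpr
      ⟨b, ⟨ha, ha', haa, hb, hbA⟩, heq⟩⟩⟩)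
  · intro a ha haB b hb b' hb' hbb heq
    exact hs6 (Set.mem_iUnion.mpr ⟨a, Set.mem_iUnion.mpr ⟨b, Set.mem_iUnion.mpr
      ⟨b', ⟨ha, haB, hb, hb', hbb⟩, heq⟩⟩⟩)

theorem dist_two (x y : Plane) : dist x y = √((x 0 - y 0) ^ 2 + (x 1 - y 1) ^ 2) := by
  rw [EuclideanSpace.dist_eq, Fin.sum_univ_two, Real.dist_eq, Real.dist_eq, sq_abs, sq_abs]

theorem dist_sq (x y : Plane) {q : ℝ} (h : dist x y = q) :
    (x 0 - y 0) ^ 2 + (x 1 - y 1) ^ 2 = q ^ 2 := by
  rw [← h, dist_two, Real.sq_sqrt (by positivity)]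

theorem plane_ne {x y : Plane} (h : x ≠ y) : (x 0 - y 0) ^ 2 + (x 1 - y 1) ^ 2 ≠ 0 := by
  intro h0
  apply h
  have h1 : x 0 - y 0 = 0 := by nlinarith [sq_nonneg (x 0 - y 0), sq_nonneg (x 1 - y 1)]
  have h2 : x 1 - y 1 = 0 := by nlinarith [sq_nonneg (x 0 - y 0), sq_nonneg (x 1 - y 1)]
  ext i
  fin_cases i
  · show x 0 = y 0; linarith
  · show x 1 = y 1; linarith

/-! ### Translations -/

def tr (s : ℝ) (x : Plane) : Plane := !₂[x 0 + s, x 1 + s ^ 2]

theorem tr_0 (s : ℝ) (x : Plane) : tr s x 0 = x 0 + s := by simp [tr]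
theorem tr_1 (s : ℝ) (x : Plane) : tr s x 1 = x 1 + s ^ 2 := by simp [tr]

theorem glue_disjoint [Countable V] {A B : Set V} {h g : V → Plane} (hh : RepOn G A h)
    (hg : RepOn G B g) (hno : ∀ a ∈ A, a ∉ B → ∀ b ∈ B, b ∉ A → ¬ G.Adj a b)
    (hAB : ∀ c ∈ A, c ∉ B) :
    ∃ h' : V → Plane, RepOn G (A ∪ B) h' ∧ ∀ a ∈ A, h' a = h a := by
  refine glue_family hh hg hno tr ?_ ?_ (fun s c hc hc' => absurd hc' (hAB c hc)) ?_ ?_ ?_
  · intro s x y
    rw [dist_two, dist_two, tr_0, tr_0, tr_1, tr_1]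
    congr 1
    ring
  · intro s x y z
    unfold ar
    simp only [tr_0, tr_1]
    ring
  · intro a _ _ b _ _ q
    have hP : ((C (h a 0 - g b 0) - X) ^ 2 + (C (h a 1 - g b 1) - X ^ 2) ^ 2 -
        C ((q : ℝ) ^ 2) : ℝ[X]) ≠ 0 := by
      intro h0
      have ev : ∀ s : ℝ, (h a 0 - g b 0 - s) ^ 2 + (h a 1 - g b 1 - s ^ 2) ^ 2 - (q : ℝ) ^ 2 = 0 := by
        intro s
        have := congrArg (Polynomial.eval s) h0
        simpa only [eval_sub, eval_add, eval_pow, eval_C, eval_X, eval_zero] using this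
      have e1 := ev 2
      have e2 := ev 1
      have e3 := ev 0
      have e4 := ev (-1)
      have e5 := ev (-2)
      have : (24 : ℝ) = 0 := by linear_combination e1 - 4 * e2 + 6 * e3 - 4 * e4 + e5
      norm_num at this
    refine (Polynomial.finite_setOfPred_isRoot hP).subset ?_
    intro s hs
    have h1 := dist_sq _ _ hs
    rw [tr_0, tr_1] at h1
    show Polynomial.eval s _ = 0
    simp only [eval_sub, eval_add, eval_pow, eval_C, eval_X]
    linear_combination h1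
  · intro a ha a' ha' haa b _ _
    have hne : h a' ≠ h a := fun heq => haa (hh.inj a' ha' a ha heq).symm
    have hP : (C (h a' 0 - h a 0) * (C (g b 1 - h a 1) + X ^ 2) -
        C (h a' 1 - h a 1) * (C (g b 0 - h a 0) + X) : ℝ[X]) ≠ 0 := by
      intro h0
      have ev : ∀ s : ℝ, (h a' 0 - h a 0) * (g b 1 - h a 1 + s ^ 2) -
          (h a' 1 - h a 1) * (g b 0 - h a 0 + s) = 0 := by
        intro s
        have := congrArg (Polynomial.eval s) h0
        simpa only [eval_sub, eval_add, eval_mul, eval_pow, eval_C, eval_X, eval_zero] using this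
      have e1 := ev 1
      have e2 := ev 0
      have e3 := ev (-1)
      apply plane_ne hne
      have d0 : h a' 0 - h a 0 = 0 := by linear_combination (e1 + e3) / 2 - e2
      have d1 : h a' 1 - h a 1 = 0 := by linear_combination (e3 - e1) / 2
      rw [d0, d1]
      ring
    refine (Polynomial.finite_setOfPred_isRoot hP).subset ?_
    intro s hs
    have h1 : ar (h a) (h a') (tr s (g b)) = 0 := hs
    unfold ar at h1
    rw [tr_0, tr_1] at h1
    show Polynomial.eval s _ = 0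
    simp only [eval_sub, eval_add, eval_mul, eval_pow, eval_C, eval_X]
    linear_combination h1
  · intro a _ _ b hb b' hb' hbb
    have hne : g b' ≠ g b := fun heq => hbb (hg.inj b' hb' b hb heq).symm
    have hP : (C (g b' 0 - g b 0) * (C (h a 1 - g b 1) - X ^ 2) -
        C (g b' 1 - g b 1) * (C (h a 0 - g b 0) - X) : ℝ[X]) ≠ 0 := by
      intro h0
      have ev : ∀ s : ℝ, (g b' 0 - g b 0) * (h a 1 - g b 1 - s ^ 2) -
          (g b' 1 - g b 1) * (h a 0 - g b 0 - s) = 0 := by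
        intro s
        have := congrArg (Polynomial.eval s) h0
        simpa only [eval_sub, eval_add, eval_mul, eval_pow, eval_C, eval_X, eval_zero] using this
      have e1 := ev 1
      have e2 := ev 0
      have e3 := ev (-1)
      apply plane_ne hne
      have d0 : g b' 0 - g b 0 = 0 := by linear_combination e2 - (e1 + e3) / 2
      have d1 : g b' 1 - g b 1 = 0 := by linear_combination (e1 - e3) / 2
      rw [d0, d1]
      ring
    refine (Polynomial.finite_setOfPred_isRoot hP).subset ?_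
    intro s hs
    have h1 : ar (tr s (g b)) (tr s (g b')) (h a) = 0 := hs
    unfold ar at h1
    simp only [tr_0, tr_1] at h1
    show Polynomial.eval s _ = 0
    simp only [eval_sub, eval_mul, eval_pow, eval_C, eval_X]
    linear_combination h1

/-! ### Rotations -/

theorem fin_trig (U W k : ℝ) (hUW : U ^ 2 + W ^ 2 ≠ 0) :
    {s : ℝ | U * ((1 - s ^ 2) / (1 + s ^ 2)) + W * (2 * s / (1 + s ^ 2)) = k}.Finite := by
  have hP : (C (-U - k) * X ^ 2 + C (2 * W) * X + C (U - k) : ℝ[X]) ≠ 0 := by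
    intro h0
    have ev : ∀ s : ℝ, (-U - k) * s ^ 2 + (2 * W) * s + (U - k) = 0 := by
      intro s
      have := congrArg (Polynomial.eval s) h0
      simpa only [eval_add, eval_mul, eval_pow, eval_C, eval_X, eval_zero] using this
    have e1 := ev 1
    have e2 := ev 0
    have e3 := ev (-1)
    apply hUW
    have d0 : W = 0 := by linear_combination (e1 - e3) / 4
    have d1 : k = 0 := by linear_combination (-1 / 4) * (e1 + e3)
    have d2 : U = 0 := by linear_combination e2 + d1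
    rw [d0, d2]
    ring
  refine (Polynomial.finite_setOfPred_isRoot hP).subset ?_
  intro s hs
  have h1 : U * ((1 - s ^ 2) / (1 + s ^ 2)) + W * (2 * s / (1 + s ^ 2)) = k := hs
  have h2 : (1 + s ^ 2) ≠ 0 := by positivity
  field_simp at h1
  show Polynomial.eval s _ = 0
  simp only [eval_add, eval_mul, eval_pow, eval_C, eval_X]
  linear_combination h1

/-- rotation about `c` followed by the translation `c ↦ p` -/
noncomputable def ro (p c : Plane) (s : ℝ) (x : Plane) : Plane :=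
  !₂[p 0 + ((1 - s ^ 2) / (1 + s ^ 2)) * (x 0 - c 0) - (2 * s / (1 + s ^ 2)) * (x 1 - c 1),
    p 1 + (2 * s / (1 + s ^ 2)) * (x 0 - c 0) + ((1 - s ^ 2) / (1 + s ^ 2)) * (x 1 - c 1)]

theorem ro_0 (p c : Plane) (s : ℝ) (x : Plane) : ro p c s x 0 =
    p 0 + ((1 - s ^ 2) / (1 + s ^ 2)) * (x 0 - c 0) - (2 * s / (1 + s ^ 2)) * (x 1 - c 1) := by
  simp [ro]
theorem ro_1 (p c : Plane) (s : ℝ) (x : Plane) : ro p c s x 1 =
    p 1 + (2 * s / (1 + s ^ 2)) * (x 0 - c 0) + ((1 - s ^ 2) / (1 + s ^ 2)) * (x 1 - c 1) := by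
  simp [ro]

theorem trig (s : ℝ) : ((1 - s ^ 2) / (1 + s ^ 2)) ^ 2 + (2 * s / (1 + s ^ 2)) ^ 2 = 1 := by
  have h2 : (1 + s ^ 2) ≠ 0 := by positivity
  field_simp
  ring

theorem glue_at [Countable V] {A B : Set V} {h g : V → Plane} (hh : RepOn G A h)
    (hg : RepOn G B g) (hno : ∀ a ∈ A, a ∉ B → ∀ b ∈ B, b ∉ A → ¬ G.Adj a b) (c : V)
    (hcA : c ∈ A) (hcB : c ∈ B) (hAB : ∀ c' ∈ A, c' ∈ B → c' = c) :
    ∃ h' : V → Plane, RepOn G (A ∪ B) h' ∧ ∀ a ∈ A, h' a = h a := by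
  refine glue_family hh hg hno (ro (h c) (g c)) ?_ ?_ ?_ ?_ ?_ ?_
  · intro s x y
    have ht := trig s
    rw [dist_two, dist_two, ro_0, ro_0, ro_1, ro_1]
    generalize (1 - s ^ 2) / (1 + s ^ 2) = co at *
    generalize 2 * s / (1 + s ^ 2) = si at *
    congr 1
    linear_combination ((x 0 - y 0) ^ 2 + (x 1 - y 1) ^ 2) * ht
  · intro s x y z
    have ht := trig s
    unfold ar
    simp only [ro_0, ro_1]
    generalize (1 - s ^ 2) / (1 + s ^ 2) = co at *
    generalize 2 * s / (1 + s ^ 2) = si at *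
    linear_combination ((y 0 - x 0) * (z 1 - x 1) - (y 1 - x 1) * (z 0 - x 0)) * ht
  · intro s c' hc' hc''
    rw [hAB c' hc' hc'']
    ext i
    fin_cases i
    · show ro (h c) (g c) s (g c) 0 = h c 0
      rw [ro_0]; ring
    · show ro (h c) (g c) s (g c) 1 = h c 1
      rw [ro_1]; ring
  · intro a ha haB b hb hbA q
    have hac : h a ≠ h c := by
      intro heq
      have := hh.inj a ha c hcA heq
      exact haB (this ▸ hcB)
    have hbc : g b ≠ g c := by
      intro heq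
      have := hg.inj b hb c hcB heq
      exact hbA (this ▸ hcA)
    have n1 := plane_ne hac
    have n2 := plane_ne hbc
    refine (fin_trig ((h a 0 - h c 0) * (g b 0 - g c 0) + (h a 1 - h c 1) * (g b 1 - g c 1))
      ((h a 1 - h c 1) * (g b 0 - g c 0) - (h a 0 - h c 0) * (g b 1 - g c 1))
      (((h a 0 - h c 0) ^ 2 + (h a 1 - h c 1) ^ 2 + ((g b 0 - g c 0) ^ 2 + (g b 1 - g c 1) ^ 2) -
        (q : ℝ) ^ 2) / 2) ?_).subset ?_
    · intro h0
      apply mul_ne_zero n1 n2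
      linear_combination h0
    · intro s hs
      have h1 := dist_sq _ _ hs
      rw [ro_0, ro_1] at h1
      have ht := trig s
      show _ * ((1 - s ^ 2) / (1 + s ^ 2)) + _ * (2 * s / (1 + s ^ 2)) = _
      generalize (1 - s ^ 2) / (1 + s ^ 2) = co at *
      generalize 2 * s / (1 + s ^ 2) = si at *
      linear_combination (-1 / 2) * h1 +
        ((g b 0 - g c 0) ^ 2 + (g b 1 - g c 1) ^ 2) / 2 * ht
  · intro a ha a' ha' haa b hb hbA
    have haa' : h a' ≠ h a := fun heq => haa (hh.inj a' ha' a ha heq).symm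
    have hbc : g b ≠ g c := by
      intro heq
      have := hg.inj b hb c hcB heq
      exact hbA (this ▸ hcA)
    have n1 := plane_ne haa'
    have n2 := plane_ne hbc
    refine (fin_trig ((h a' 0 - h a 0) * (g b 1 - g c 1) - (h a' 1 - h a 1) * (g b 0 - g c 0))
      ((h a' 0 - h a 0) * (g b 0 - g c 0) + (h a' 1 - h a 1) * (g b 1 - g c 1))
      (-((h a' 0 - h a 0) * (h c 1 - h a 1) - (h a' 1 - h a 1) * (h c 0 - h a 0))) ?_).subset ?_
    · intro h0
      apply mul_ne_zero n1 n2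
      linear_combination h0
    · intro s hs
      have h1 : ar (h a) (h a') (ro (h c) (g c) s (g b)) = 0 := hs
      unfold ar at h1
      rw [ro_0, ro_1] at h1
      show _ * ((1 - s ^ 2) / (1 + s ^ 2)) + _ * (2 * s / (1 + s ^ 2)) = _
      generalize (1 - s ^ 2) / (1 + s ^ 2) = co at *
      generalize 2 * s / (1 + s ^ 2) = si at *
      linear_combination h1
  · intro a ha haB b hb b' hb' hbb
    have hac : h a ≠ h c := by
      intro heq
      have := hh.inj a ha c hcA heq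
      exact haB (this ▸ hcB)
    have hne : g b' ≠ g b := fun heq => hbb (hg.inj b' hb' b hb heq).symm
    have n1 := plane_ne hac
    have n2 := plane_ne hne
    refine (fin_trig ((g b' 0 - g b 0) * (h a 1 - h c 1) - (g b' 1 - g b 1) * (h a 0 - h c 0))
      (-((g b' 1 - g b 1) * (h a 1 - h c 1)) - (g b' 0 - g b 0) * (h a 0 - h c 0))
      ((g b' 0 - g b 0) * (g b 1 - g c 1) - (g b' 1 - g b 1) * (g b 0 - g c 0)) ?_).subset ?_
    · intro h0
      apply mul_ne_zero n1 n2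
      linear_combination h0
    · intro s hs
      have h1 : ar (ro (h c) (g c) s (g b)) (ro (h c) (g c) s (g b')) (h a) = 0 := hs
      unfold ar at h1
      simp only [ro_0, ro_1] at h1
      have ht := trig s
      show _ * ((1 - s ^ 2) / (1 + s ^ 2)) + _ * (2 * s / (1 + s ^ 2)) = _
      generalize (1 - s ^ 2) / (1 + s ^ 2) = co at *
      generalize 2 * s / (1 + s ^ 2) = si at *
      linear_combination h1 +
        ((g b' 0 - g b 0) * (g b 1 - g c 1) - (g b' 1 - g b 1) * (g b 0 - g c 0)) * ht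

/-- gluing along at most one vertex -/
theorem glue_step [Countable V] {A B : Set V} {h g : V → Plane} (hh : RepOn G A h)
    (hg : RepOn G B g) (hno : ∀ a ∈ A, a ∉ B → ∀ b ∈ B, b ∉ A → ¬ G.Adj a b)
    (hAB : (A ∩ B).Subsingleton) :
    ∃ h' : V → Plane, RepOn G (A ∪ B) h' ∧ ∀ a ∈ A, h' a = h a := by
  by_cases hc : ∃ c, c ∈ A ∧ c ∈ B
  · obtain ⟨c, hcA, hcB⟩ := hc
    exact glue_at hh hg hno c hcA hcB (fun c' h1 h2 => hAB ⟨h1, h2⟩ ⟨hcA, hcB⟩)
  · exact glue_disjoint hh hg hno (fun c h1 h2 => hc ⟨c, h1, h2⟩)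

end

end Pool.Agent.Lib.MP_a24e3f_co.CC
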