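import Mathlib
import Pool.Agent.Lib.MP_a24e3f_co.CC.Motion

/-!
# Cartesian products of rational graphs
-/

set_option autoImplicit false

namespace Pool.Agent.Lib.MP_a24e3f_co.CC

open SimpleGraph

/-- two vertices which differ in both coordinates -/
theorem fin_pair {x y a b c : Plane} (hxy : x ≠ y) (hab : a ≠ b) (q : ℝ) :
    {s : ℝ | dist (ro x c s a) (ro y c s b) = q}.Finite := by
  have n1 := plane_ne hxy
  have n2 := plane_ne hab
  refine (fin_trig ((x 0 - y 0) * (a 0 - b 0) + (x 1 - y 1) * (a 1 - b 1))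
    ((x 1 - y 1) * (a 0 - b 0) - (x 0 - y 0) * (a 1 - b 1))
    ((q ^ 2 - ((x 0 - y 0) ^ 2 + (x 1 - y 1) ^ 2) - ((a 0 - b 0) ^ 2 + (a 1 - b 1) ^ 2)) / 2)
    ?_).subset ?_
  · intro h0
    apply mul_ne_zero n1 n2
    linear_combination h0
  · intro s hs
    have h1 := dist_sq _ _ hs
    simp only [ro_0, ro_1] at h1
    have ht := trig s
    show _ * ((1 - s ^ 2) / (1 + s ^ 2)) + _ * (2 * s / (1 + s ^ 2)) = _
    generalize (1 - s ^ 2) / (1 + s ^ 2) = co at *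
    generalize 2 * s / (1 + s ^ 2) = si at *
    linear_combination (1 / 2) * h1 - ((a 0 - b 0) ^ 2 + (a 1 - b 1) ^ 2) / 2 * ht

/-- three vertices -/
theorem fin_triple {x y z a b c e : Plane}
    (h : ((y 0 - x 0) * (c 1 - a 1) - (y 1 - x 1) * (c 0 - a 0) +
        (b 0 - a 0) * (z 1 - x 1) - (b 1 - a 1) * (z 0 - x 0)) ^ 2 +
      ((y 0 - x 0) * (c 0 - a 0) + (y 1 - x 1) * (c 1 - a 1) -
        (b 0 - a 0) * (z 0 - x 0) - (b 1 - a 1) * (z 1 - x 1)) ^ 2 ≠ 0 ∨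
      ar x y z + ar a b c ≠ 0) :
    {s : ℝ | ar (ro x e s a) (ro y e s b) (ro z e s c) = 0}.Finite := by
  by_cases h0 : ((y 0 - x 0) * (c 1 - a 1) - (y 1 - x 1) * (c 0 - a 0) +
        (b 0 - a 0) * (z 1 - x 1) - (b 1 - a 1) * (z 0 - x 0)) ^ 2 +
      ((y 0 - x 0) * (c 0 - a 0) + (y 1 - x 1) * (c 1 - a 1) -
        (b 0 - a 0) * (z 0 - x 0) - (b 1 - a 1) * (z 1 - x 1)) ^ 2 ≠ 0
  · refine (fin_trig _ _ (-(ar x y z + ar a b c)) h0).subset ?_
    intro s hs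
    have h1 : ar (ro x e s a) (ro y e s b) (ro z e s c) = 0 := hs
    unfold ar at h1 ⊢
    simp only [ro_0, ro_1] at h1
    have ht := trig s
    show _ * ((1 - s ^ 2) / (1 + s ^ 2)) + _ * (2 * s / (1 + s ^ 2)) = _
    generalize (1 - s ^ 2) / (1 + s ^ 2) = co at *
    generalize 2 * s / (1 + s ^ 2) = si at *
    linear_combination h1 -
      ((b 0 - a 0) * (c 1 - a 1) - (b 1 - a 1) * (c 0 - a 0)) * ht
  · push Not at h0
    have hU : (y 0 - x 0) * (c 1 - a 1) - (y 1 - x 1) * (c 0 - a 0) +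
        (b 0 - a 0) * (z 1 - x 1) - (b 1 - a 1) * (z 0 - x 0) = 0 := by
      nlinarith [sq_nonneg ((y 0 - x 0) * (c 1 - a 1) - (y 1 - x 1) * (c 0 - a 0) +
        (b 0 - a 0) * (z 1 - x 1) - (b 1 - a 1) * (z 0 - x 0)),
        sq_nonneg ((y 0 - x 0) * (c 0 - a 0) + (y 1 - x 1) * (c 1 - a 1) -
        (b 0 - a 0) * (z 0 - x 0) - (b 1 - a 1) * (z 1 - x 1))]
    have hW : (y 0 - x 0) * (c 0 - a 0) + (y 1 - x 1) * (c 1 - a 1) -
        (b 0 - a 0) * (z 0 - x 0) - (b 1 - a 1) * (z 1 - x 1) = 0 := by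
      rw [hU] at h0
      nlinarith [sq_nonneg ((y 0 - x 0) * (c 0 - a 0) + (y 1 - x 1) * (c 1 - a 1) -
        (b 0 - a 0) * (z 0 - x 0) - (b 1 - a 1) * (z 1 - x 1))]
    have h2 : ar x y z + ar a b c ≠ 0 := by
      rcases h with h | h
      · exact absurd h0 h
      · exact h
    refine Set.finite_empty.subset ?_
    intro s hs
    exfalso
    apply h2
    have h1 : ar (ro x e s a) (ro y e s b) (ro z e s c) = 0 := hs
    unfold ar at h1 ⊢
    simp only [ro_0, ro_1] at h1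
    have ht := trig s
    generalize (1 - s ^ 2) / (1 + s ^ 2) = co at *
    generalize 2 * s / (1 + s ^ 2) = si at *
    linear_combination h1 -
      ((b 0 - a 0) * (c 1 - a 1) - (b 1 - a 1) * (c 0 - a 0)) * ht - co * hU - si * hW

end Pool.Agent.Lib.MP_a24e3f_co.CC
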