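import Mathlib
import Pool.Agent.Lib.MP_a24e3f_co.CC.Product

/-!
# Cartesian products of rational graphs
-/

set_option autoImplicit false

namespace Pool.Agent.Lib.MP_a24e3f_co.CC

open SimpleGraph

/-- `ar` in terms of the difference vectors -/
theorem sum_sq_zero {u w : ℝ} (h : u ^ 2 + w ^ 2 = 0) : u = 0 ∧ w = 0 := by
  constructor
  · nlinarith [sq_nonneg u, sq_nonneg w]
  · nlinarith [sq_nonneg u, sq_nonneg w]

/-- squared distance -/
def sd (x y : Plane) : ℝ := (x 0 - y 0) ^ 2 + (x 1 - y 1) ^ 2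

theorem sd_comm (x y : Plane) : sd x y = sd y x := by unfold sd; ring

theorem sd_pos {x y : Plane} (h : x ≠ y) : sd x y ≠ 0 := plane_ne h

/-- the real content: if the area is identically zero then the two triangles are congruent -/
theorem congr_of_zero {x y z a b c : Plane}
    (hU : (y 0 - x 0) * (c 1 - a 1) - (y 1 - x 1) * (c 0 - a 0) +
        (b 0 - a 0) * (z 1 - x 1) - (b 1 - a 1) * (z 0 - x 0) = 0)
    (hW : (y 0 - x 0) * (c 0 - a 0) + (y 1 - x 1) * (c 1 - a 1) -
        (b 0 - a 0) * (z 0 - x 0) - (b 1 - a 1) * (z 1 - x 1) = 0)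
    (h0 : ar x y z + ar a b c = 0) (hx : ar x y z ≠ 0) :
    sd x y = sd a b ∧ sd x z = sd a c ∧ sd y z = sd b c := by
  have e1 : sd x y * ar a b c + sd a b * ar x y z = 0 := by
    unfold sd ar
    linear_combination ((y 0 - x 0) * (b 0 - a 0) + (y 1 - x 1) * (b 1 - a 1)) * hU +
      ((y 1 - x 1) * (b 0 - a 0) - (y 0 - x 0) * (b 1 - a 1)) * hW
  have e2 : sd x z * ar a b c + sd a c * ar x y z = 0 := by
    unfold sd ar
    linear_combination ((z 0 - x 0) * (c 0 - a 0) + (z 1 - x 1) * (c 1 - a 1)) * hU +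
      ((z 1 - x 1) * (c 0 - a 0) - (z 0 - x 0) * (c 1 - a 1)) * hW
  have e3 : sd x y * ((b 0 - a 0) * (c 0 - a 0) + (b 1 - a 1) * (c 1 - a 1)) -
      sd a b * ((y 0 - x 0) * (z 0 - x 0) + (y 1 - x 1) * (z 1 - x 1)) = 0 := by
    unfold sd
    linear_combination ((y 0 - x 0) * (b 0 - a 0) + (y 1 - x 1) * (b 1 - a 1)) * hW -
      ((y 1 - x 1) * (b 0 - a 0) - (y 0 - x 0) * (b 1 - a 1)) * hU
  have h1 : ar a b c = -ar x y z := by linarith
  rw [h1] at e1 e2
  have f1 : sd x y = sd a b := by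
    have : (sd x y - sd a b) * ar x y z = 0 := by linear_combination -e1
    rcases mul_eq_zero.mp this with h | h
    · linarith
    · exact absurd h hx
  have f2 : sd x z = sd a c := by
    have : (sd x z - sd a c) * ar x y z = 0 := by linear_combination -e2
    rcases mul_eq_zero.mp this with h | h
    · linarith
    · exact absurd h hx
  have f0 : sd a b ≠ 0 := by
    intro h
    rw [h] at f1
    apply hx
    obtain ⟨g1, g2⟩ := sum_sq_zero (u := x 0 - y 0) (w := x 1 - y 1) f1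
    unfold ar
    linear_combination -(z 1 - x 1) * g1 + (z 0 - x 0) * g2
  have f3 : (b 0 - a 0) * (c 0 - a 0) + (b 1 - a 1) * (c 1 - a 1) =
      (y 0 - x 0) * (z 0 - x 0) + (y 1 - x 1) * (z 1 - x 1) := by
    rw [f1] at e3
    have h2 : sd a b * ((b 0 - a 0) * (c 0 - a 0) + (b 1 - a 1) * (c 1 - a 1) -
      ((y 0 - x 0) * (z 0 - x 0) + (y 1 - x 1) * (z 1 - x 1))) = 0 := by linear_combination e3
    rcases mul_eq_zero.mp h2 with h | h
    · exact absurd h f0
    · linarith
  refine ⟨f1, f2, ?_⟩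
  unfold sd at f1 f2 ⊢
  linear_combination f1 + f2 + 2 * f3

/-- generic rotations for three pairs of vertices -/
theorem fin_box {V W : Type} {f : V → Plane} {g : W → Plane} (hf : Function.Injective f)
    (hg : Function.Injective g)
    (hfc : ∀ x y z, x ≠ y → y ≠ z → x ≠ z → ar (f x) (f y) (f z) ≠ 0)
    (hgc : ∀ x y z, x ≠ y → y ≠ z → x ≠ z → ar (g x) (g y) (g z) ≠ 0) (e : Plane)
    {x y z : V} {a b c : W} (h1 : ¬ (x = y ∧ a = b)) (h2 : ¬ (y = z ∧ b = c))
    (h3 : ¬ (x = z ∧ a = c))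
    (hno : x ≠ y → y ≠ z → x ≠ z → a ≠ b → b ≠ c → a ≠ c →
      ¬ (sd (f x) (f y) = sd (g a) (g b) ∧ sd (f x) (f z) = sd (g a) (g c) ∧
        sd (f y) (f z) = sd (g b) (g c))) :
    {s : ℝ | ar (ro (f x) e s (g a)) (ro (f y) e s (g b)) (ro (f z) e s (g c)) = 0}.Finite := by
  apply fin_triple
  by_contra hcon
  push Not at hcon
  obtain ⟨hUW, h0⟩ := hcon
  obtain ⟨hU, hW⟩ := sum_sq_zero hUW
  by_cases hxy : x = y
  · subst hxy
    have hab : a ≠ b := fun h => h1 ⟨rfl, h⟩
    have hab' := sd_pos (fun h => hab (hg h))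
    have hm : sd (g a) (g b) * sd (f x) (f z) = 0 := by
      unfold sd
      linear_combination ((g b 0 - g a 0) * (f z 1 - f x 1) - (g b 1 - g a 1) * (f z 0 - f x 0)) *
        hU - ((g b 0 - g a 0) * (f z 0 - f x 0) + (g b 1 - g a 1) * (f z 1 - f x 1)) * hW
    have hxz : x = z := by
      by_contra hne
      exact (mul_ne_zero hab' (sd_pos (fun h => hne (hf h)))) hm
    subst hxz
    have hac : a ≠ c := fun h => h3 ⟨rfl, h⟩
    have hbc : b ≠ c := fun h => h2 ⟨rfl, h⟩
    apply hgc a b c hab hbc hac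
    have h4 : ar (f x) (f x) (f x) = 0 := by unfold ar; ring
    linarith
  by_cases hxz : x = z
  · subst hxz
    have hac : a ≠ c := fun h => h3 ⟨rfl, h⟩
    have hm : sd (f x) (f y) * sd (g a) (g c) = 0 := by
      unfold sd
      linear_combination ((f y 0 - f x 0) * (g c 1 - g a 1) - (f y 1 - f x 1) * (g c 0 - g a 0)) *
        hU + ((f y 0 - f x 0) * (g c 0 - g a 0) + (f y 1 - f x 1) * (g c 1 - g a 1)) * hW
    exact mul_ne_zero (sd_pos (fun h => hxy (hf h))) (sd_pos (fun h => hac (hg h))) hm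
  by_cases hyz : y = z
  · subst hyz
    have hbc : b ≠ c := fun h => h2 ⟨rfl, h⟩
    have hm : sd (f x) (f y) * sd (g b) (g c) = 0 := by
      unfold sd
      linear_combination ((f y 0 - f x 0) * (g c 1 - g b 1) - (f y 1 - f x 1) * (g c 0 - g b 0)) *
        hU + ((f y 0 - f x 0) * (g c 0 - g b 0) + (f y 1 - f x 1) * (g c 1 - g b 1)) * hW
    exact mul_ne_zero (sd_pos (fun h => hxy (hf h))) (sd_pos (fun h => hbc (hg h))) hm
  have hfx := hfc x y z hxy hyz hxz
  by_cases hab : a = b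
  · subst hab
    by_cases hac : a = c
    · subst hac
      apply hfx
      have h4 : ar (g a) (g a) (g a) = 0 := by unfold ar; ring
      linarith
    · have hm : sd (f x) (f y) * sd (g a) (g c) = 0 := by
        unfold sd
        linear_combination ((f y 0 - f x 0) * (g c 1 - g a 1) - (f y 1 - f x 1) * (g c 0 - g a 0)) *
          hU + ((f y 0 - f x 0) * (g c 0 - g a 0) + (f y 1 - f x 1) * (g c 1 - g a 1)) * hW
      exact mul_ne_zero (sd_pos (fun h => hxy (hf h))) (sd_pos (fun h => hac (hg h))) hm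
  by_cases hac : a = c
  · subst hac
    have hm : sd (g a) (g b) * sd (f x) (f z) = 0 := by
      unfold sd
      linear_combination ((g b 0 - g a 0) * (f z 1 - f x 1) - (g b 1 - g a 1) * (f z 0 - f x 0)) *
        hU - ((g b 0 - g a 0) * (f z 0 - f x 0) + (g b 1 - g a 1) * (f z 1 - f x 1)) * hW
    exact mul_ne_zero (sd_pos (fun h => hab (hg h))) (sd_pos (fun h => hxz (hf h))) hm
  by_cases hbc : b = c
  · subst hbc
    have hm : sd (f y) (f z) * sd (g a) (g b) = 0 := by
      unfold sd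
      linear_combination ((f y 0 - f z 0) * (g b 1 - g a 1) - (f y 1 - f z 1) * (g b 0 - g a 0)) *
        hU + ((f y 0 - f z 0) * (g b 0 - g a 0) + (f y 1 - f z 1) * (g b 1 - g a 1)) * hW
    exact mul_ne_zero (sd_pos (fun h => hyz (hf h))) (sd_pos (fun h => hab (hg h))) hm
  exact hno hxy hyz hxz hab hbc hac (congr_of_zero hU hW h0 hfx)

end Pool.Agent.Lib.MP_a24e3f_co.CC
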