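import Mathlib
import Pool.Agent.Lib.MP_a24e3f_co.CC.Product2

/-!
# The Cartesian product of two rational graphs
-/

set_option autoImplicit false

namespace Pool.Agent.Lib.MP_a24e3f_co.CC

open SimpleGraph

theorem dist_eq_sqrt_sd (x y : Plane) : dist x y = √(sd x y) := dist_two x y

theorem sd_nonneg (x y : Plane) : 0 ≤ sd x y := by unfold sd; positivity

theorem sd_eq_dist (x y : Plane) : sd x y = dist x y ^ 2 := by
  rw [dist_eq_sqrt_sd, Real.sq_sqrt (sd_nonneg x y)]

theorem rep_ar_ne {V : Type} {G : SimpleGraph V} {f : V → Plane}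
    (hf : IsRationalRep G f) {x y z : V} (hxy : x ≠ y) (hyz : y ≠ z) (hxz : x ≠ z) :
    ar (f x) (f y) (f z) ≠ 0 := by
  have h1 := hf.no_three_collinear x y z hxy hyz hxz
  rwa [col_iff (fun h => hxy (hf.injective h))] at h1

theorem sd_ro_right (x c : Plane) (s : ℝ) (a b : Plane) :
    sd (ro x c s a) (ro x c s b) = sd a b := by
  have ht := trig s
  unfold sd
  simp only [ro_0, ro_1]
  generalize (1 - s ^ 2) / (1 + s ^ 2) = co at *
  generalize 2 * s / (1 + s ^ 2) = si at *
  linear_combination ((a 0 - b 0) ^ 2 + (a 1 - b 1) ^ 2) * ht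

theorem sd_ro_left (x y c : Plane) (s : ℝ) (a : Plane) :
    sd (ro x c s a) (ro y c s a) = sd x y := by
  unfold sd
  simp only [ro_0, ro_1]
  ring

theorem ar_ro_right (x e : Plane) (s : ℝ) (a b c : Plane) :
    ar (ro x e s a) (ro x e s b) (ro x e s c) = ar a b c := by
  have ht := trig s
  unfold ar
  simp only [ro_0, ro_1]
  generalize (1 - s ^ 2) / (1 + s ^ 2) = co at *
  generalize 2 * s / (1 + s ^ 2) = si at *
  linear_combination ((b 0 - a 0) * (c 1 - a 1) - (b 1 - a 1) * (c 0 - a 0)) * ht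

theorem ar_ro_left (x y z e : Plane) (s : ℝ) (a : Plane) :
    ar (ro x e s a) (ro y e s a) (ro z e s a) = ar x y z := by
  unfold ar
  simp only [ro_0, ro_1]
  ring

theorem dist_ro_right (x c : Plane) (s : ℝ) (a b : Plane) :
    dist (ro x c s a) (ro x c s b) = dist a b := by
  rw [dist_eq_sqrt_sd, dist_eq_sqrt_sd, sd_ro_right]

theorem dist_ro_left (x y c : Plane) (s : ℝ) (a : Plane) :
    dist (ro x c s a) (ro y c s a) = dist x y := by
  rw [dist_eq_sqrt_sd, dist_eq_sqrt_sd, sd_ro_left]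

/-- **Product theorem**: if no three points of one representation are congruent to three points of
the other one, then a generic rotation gives a representation of the Cartesian product. -/
theorem box_core {V W : Type} [Countable V] [Countable W] {G : SimpleGraph V} {H : SimpleGraph W}
    {f : V → Plane} {g : W → Plane} (hf : IsRationalRep G f) (hg : IsRationalRep H g)
    (hno : ∀ x y z : V, ∀ a b c : W, x ≠ y → y ≠ z → x ≠ z → a ≠ b → b ≠ c → a ≠ c →
      ¬ (sd (f x) (f y) = sd (g a) (g b) ∧ sd (f x) (f z) = sd (g a) (g c) ∧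
        sd (f y) (f z) = sd (g b) (g c))) (e : Plane) :
    ∃ s : ℝ, IsRationalRep (G □ H) (fun p => ro (f p.1) e s (g p.2)) := by
  have c1 : (⋃ (p : V × W) (p' : V × W) (q : ℚ), {s : ℝ | (p.1 ≠ p'.1 ∧ p.2 ≠ p'.2) ∧
      dist (ro (f p.1) e s (g p.2)) (ro (f p'.1) e s (g p'.2)) = (q : ℝ)}).Countable := by
    refine Set.countable_iUnion fun p => Set.countable_iUnion fun p' =>
      Set.countable_iUnion fun q => ?_
    by_cases hyp : p.1 ≠ p'.1 ∧ p.2 ≠ p'.2
    · exact ((fin_pair (c := e) (fun h => hyp.1 (hf.injective h))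
        (fun h => hyp.2 (hg.injective h)) (q : ℝ)).subset (fun s hs => hs.2)).countable
    · exact (Set.finite_empty.subset (fun s hs => hyp hs.1)).countable
  have c2 : (⋃ (p : V × W) (p' : V × W) (p'' : V × W), {s : ℝ | (p ≠ p' ∧ p' ≠ p'' ∧ p ≠ p'') ∧
      ar (ro (f p.1) e s (g p.2)) (ro (f p'.1) e s (g p'.2))
        (ro (f p''.1) e s (g p''.2)) = 0}).Countable := by
    refine Set.countable_iUnion fun p => Set.countable_iUnion fun p' =>
      Set.countable_iUnion fun p'' => ?_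
    by_cases hyp : p ≠ p' ∧ p' ≠ p'' ∧ p ≠ p''
    · exact ((fin_box hf.injective hg.injective (fun x y z h1 h2 h3 => rep_ar_ne hf h1 h2 h3)
        (fun x y z h1 h2 h3 => rep_ar_ne hg h1 h2 h3) e (fun h => hyp.1 (Prod.ext h.1 h.2))
        (fun h => hyp.2.1 (Prod.ext h.1 h.2)) (fun h => hyp.2.2 (Prod.ext h.1 h.2))
        (hno p.1 p'.1 p''.1 p.2 p'.2 p''.2)).subset (fun s hs => hs.2)).countable
    · exact (Set.finite_empty.subset (fun s hs => hyp hs.1)).countable
  obtain ⟨s, hs⟩ := ((c1.union c2).dense_compl ℝ).nonempty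
  rw [Set.mem_compl_iff, Set.mem_union, not_or] at hs
  obtain ⟨hs1, hs2⟩ := hs
  have key : ∀ p p' : V × W, p.1 ≠ p'.1 → p.2 ≠ p'.2 → ∀ q : ℚ,
      dist (ro (f p.1) e s (g p.2)) (ro (f p'.1) e s (g p'.2)) ≠ (q : ℝ) := by
    intro p p' h1 h2 q heq
    exact hs1 (Set.mem_iUnion.mpr ⟨p, Set.mem_iUnion.mpr ⟨p', Set.mem_iUnion.mpr
      ⟨q, ⟨h1, h2⟩, heq⟩⟩⟩)
  have hinj : Function.Injective (fun p : V × W => ro (f p.1) e s (g p.2)) := by
    intro p p' heq
    have heq' : ro (f p.1) e s (g p.2) = ro (f p'.1) e s (g p'.2) := heq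
    have hd : dist (ro (f p.1) e s (g p.2)) (ro (f p'.1) e s (g p'.2)) = 0 := by
      rw [heq', _root_.dist_self]
    by_cases h1 : p.1 = p'.1
    · rw [h1, dist_ro_right] at hd
      exact Prod.ext h1 (hg.injective (dist_eq_zero.mp hd))
    · by_cases h2 : p.2 = p'.2
      · rw [h2, dist_ro_left] at hd
        exact absurd (hf.injective (dist_eq_zero.mp hd)) h1
      · exact absurd (by rw [hd]; simp) (key p p' h1 h2 0)
  refine ⟨s, hinj, ?_, ?_⟩
  · intro p p' p'' h1 h2 h3
    rw [col_iff (fun h => h1 (hinj h))]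
    intro heq
    exact hs2 (Set.mem_iUnion.mpr ⟨p, Set.mem_iUnion.mpr ⟨p', Set.mem_iUnion.mpr
      ⟨p'', ⟨h1, h2, h3⟩, heq⟩⟩⟩)
  · intro p p' hne
    rw [boxProd_adj]
    show _ ↔ ∃ q : ℚ, dist (ro (f p.1) e s (g p.2)) (ro (f p'.1) e s (g p'.2)) = (q : ℝ)
    by_cases h1 : p.1 = p'.1
    · have h2 : p.2 ≠ p'.2 := fun h => hne (Prod.ext h1 h)
      rw [h1, dist_ro_right, ← hg.adj_iff p.2 p'.2 h2]
      constructor
      · rintro (h | h)
        · exact absurd h.1 (G.irrefl)
        · exact h.1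
      · intro h
        exact Or.inr ⟨h, rfl⟩
    · by_cases h2 : p.2 = p'.2
      · rw [h2, dist_ro_left, ← hf.adj_iff p.1 p'.1 h1]
        constructor
        · rintro (h | h)
          · exact h.1
          · exact absurd h.2 h1
        · intro h
          exact Or.inl ⟨h, rfl⟩
      · constructor
        · rintro (h | h)
          · exact absurd h.2 h2
          · exact absurd h.2 h1
        · rintro ⟨q, hq⟩
          exact absurd hq (key p p' h1 h2 q)

/-- scaling by a nonzero rational number -/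
theorem scale_rep {W : Type} {H : SimpleGraph W} {g : W → Plane} (hg : IsRationalRep H g) (r : ℚ)
    (hr : r ≠ 0) : IsRationalRep H (fun w => (r : ℝ) • g w) := by
  have hr' : (r : ℝ) ≠ 0 := by exact_mod_cast hr
  have hinj : Function.Injective (fun w => (r : ℝ) • g w) := by
    intro u v huv
    exact hg.injective (smul_right_injective _ hr' huv)
  refine ⟨hinj, ?_, ?_⟩
  · intro u v w huv hvw huw
    rw [col_iff (fun h => huv (hinj h))]
    have h1 := rep_ar_ne hg huv hvw huw
    have h2 : ar ((r : ℝ) • g u) ((r : ℝ) • g v) ((r : ℝ) • g w) =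
        (r : ℝ) ^ 2 * ar (g u) (g v) (g w) := by
      unfold ar
      simp only [PiLp.smul_apply, smul_eq_mul]
      ring
    show ¬ ar ((r : ℝ) • g u) ((r : ℝ) • g v) ((r : ℝ) • g w) = 0
    rw [h2]
    exact mul_ne_zero (pow_ne_zero 2 hr') h1
  · intro u v huv
    rw [hg.adj_iff u v huv]
    show _ ↔ ∃ q : ℚ, dist ((r : ℝ) • g u) ((r : ℝ) • g v) = (q : ℝ)
    rw [dist_smul₀, Real.norm_eq_abs]
    constructor
    · rintro ⟨q, hq⟩
      refine ⟨|r| * q, ?_⟩
      rw [hq]
      push_cast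
      ring
    · rintro ⟨q, hq⟩
      refine ⟨q / |r|, ?_⟩
      have hr'' : |(r : ℝ)| ≠ 0 := abs_ne_zero.mpr hr'
      push_cast
      rw [← hq]
      field_simp

/-- **The Cartesian product of two finite rational graphs is a rational graph.** -/
theorem box_finite {V W : Type} [Finite V] [Finite W] {G : SimpleGraph V} {H : SimpleGraph W}
    (hf : ∃ f : V → Plane, IsRationalRep G f) (hg : ∃ g : W → Plane, IsRationalRep H g) :
    ∃ F : V × W → Plane, IsRationalRep (G □ H) F := by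
  obtain ⟨f, hf⟩ := hf
  obtain ⟨g, hg⟩ := hg
  have hfin : {r : ℝ | ∃ (x y : V) (a b : W), a ≠ b ∧ sd (f x) (f y) = r ^ 2 * sd (g a) (g b)}.Finite := by
    have : {r : ℝ | ∃ (x y : V) (a b : W), a ≠ b ∧ sd (f x) (f y) = r ^ 2 * sd (g a) (g b)} ⊆
        ⋃ (x : V) (y : V) (a : W) (b : W),
          {√(sd (f x) (f y) / sd (g a) (g b)), -√(sd (f x) (f y) / sd (g a) (g b))} := by
      rintro r ⟨x, y, a, b, hab, h⟩
      refine Set.mem_iUnion.mpr ⟨x, Set.mem_iUnion.mpr ⟨y, Set.mem_iUnion.mpr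
        ⟨a, Set.mem_iUnion.mpr ⟨b, ?_⟩⟩⟩⟩
      have h0 : sd (g a) (g b) ≠ 0 := sd_pos (fun h' => hab (hg.injective h'))
      have h1 : sd (f x) (f y) / sd (g a) (g b) = r ^ 2 := by
        rw [h]
        field_simp
      rw [h1, Real.sqrt_sq_eq_abs]
      rcases abs_choice r with h2 | h2
      · left; rw [h2]
      · right
        rw [Set.mem_singleton_iff, h2, neg_neg]
    refine Set.Finite.subset ?_ this
    exact Set.finite_iUnion fun x => Set.finite_iUnion fun y => Set.finite_iUnion fun a =>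
      Set.finite_iUnion fun b => Set.toFinite _
  have hfin' := hfin.preimage (f := fun n : ℕ => ((n : ℝ) + 1)) (by
    intro a _ b _ hab
    have : (a : ℝ) + 1 = (b : ℝ) + 1 := hab
    exact_mod_cast add_right_cancel this)
  obtain ⟨n, hn⟩ := hfin'.infinite_compl.nonempty
  have hr : ((n : ℚ) + 1) ≠ 0 := by positivity
  have hg' := scale_rep hg ((n : ℚ) + 1) hr
  obtain ⟨s, hs⟩ := box_core hf hg' (by
    rintro x y z a b c hxy hyz hxz hab hbc hac ⟨h1, -, -⟩
    apply hn
    show ∃ (x y : V) (a b : W), a ≠ b ∧ sd (f x) (f y) = ((n : ℝ) + 1) ^ 2 * sd (g a) (g b)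
    refine ⟨x, y, a, b, hab, ?_⟩
    rw [h1]
    unfold sd
    simp only [PiLp.smul_apply, smul_eq_mul]
    push_cast
    ring) 0
  exact ⟨_, hs⟩

end Pool.Agent.Lib.MP_a24e3f_co.CC
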