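import Mathlib
import Pool.Agent.Lib.MP_a24e3f_co.Extend

/-!
# Points on two concentric circles over `ℚ (√-2)`

`cp false β = β / conj β` on the unit circle, `cp true β = √-2 β / conj β` on the circle of radius
`√2`.
-/

set_option autoImplicit false

namespace Pool.Agent.Lib.MP_a24e3f_co.CC

open Polynomial

/-- multiplication by `√-2` -/
def mo (p : Pt) : Pt := (-2 * p.2, p.1)

/-- product in `ℚ (√-2)` -/
def ml (p q : Pt) : Pt := (p.1 * q.1 - 2 * p.2 * q.2, p.1 * q.2 + p.2 * q.1)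

theorem nm_mo (p : Pt) : nm 2 (mo p) = 2 * nm 2 p := by
  unfold nm mo
  ring

theorem nm_ml (p q : Pt) : nm 2 (ml p q) = nm 2 p * nm 2 q := by
  unfold nm ml
  ring

theorem mo_sub (p q : Pt) : mo p - mo q = mo (p - q) := by
  unfold mo
  ext
  · simp only [Prod.fst_sub, Prod.snd_sub]; ring
  · simp only [Prod.fst_sub, Prod.snd_sub]

/-- `β / conj β` -/
def c1 (β : Pt) : Pt := ((β.1 ^ 2 - 2 * β.2 ^ 2) / nm 2 β, (2 * β.1 * β.2) / nm 2 β)

/-- the point of the circle of kind `t` -/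
def cp (t : Bool) (β : Pt) : Pt := if t then mo (c1 β) else c1 β

/-- squared radius -/
def rad (t : Bool) : ℚ := if t then 2 else 1

theorem two_pos' : (0 : ℚ) < 2 := by norm_num

theorem nm_c1 {β : Pt} (hβ : β ≠ 0) : nm 2 (c1 β) = 1 := by
  have h := (nm_pos two_pos' hβ).ne'
  have e : nm 2 (c1 β) = ((β.1 ^ 2 - 2 * β.2 ^ 2) ^ 2 + 2 * (2 * β.1 * β.2) ^ 2) / nm 2 β ^ 2 := by
    unfold c1
    generalize nm 2 β = n
    unfold nm
    ring
  rw [e, div_eq_one_iff_eq (pow_ne_zero 2 h)]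
  unfold nm
  ring

theorem nm_cp (t : Bool) {β : Pt} (hβ : β ≠ 0) : nm 2 (cp t β) = rad t := by
  cases t
  · simp only [cp, rad, Bool.false_eq_true, if_false]
    exact nm_c1 hβ
  · simp only [cp, rad, if_true]
    rw [nm_mo, nm_c1 hβ, mul_one]

/-- squared distance on the unit circle -/
theorem nm_c1_sub {β γ : Pt} (hβ : β ≠ 0) (hγ : γ ≠ 0) :
    nm 2 (c1 β - c1 γ) = 8 * cA β γ ^ 2 / (nm 2 β * nm 2 γ) := by
  have h1 := (nm_pos two_pos' hβ).ne'
  have h2 := (nm_pos two_pos' hγ).ne'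
  have e : nm 2 (c1 β - c1 γ) =
      (((β.1 ^ 2 - 2 * β.2 ^ 2) * nm 2 γ - (γ.1 ^ 2 - 2 * γ.2 ^ 2) * nm 2 β) ^ 2 +
        2 * ((2 * β.1 * β.2) * nm 2 γ - (2 * γ.1 * γ.2) * nm 2 β) ^ 2) /
        (nm 2 β * nm 2 γ) ^ 2 := by
    unfold c1
    simp only [nm, Prod.fst_sub, Prod.snd_sub] at *
    field_simp
  rw [e, div_eq_div_iff (pow_ne_zero 2 (mul_ne_zero h1 h2)) (mul_ne_zero h1 h2)]
  unfold nm cA
  ring

theorem isSquare_mul_sq {x y : ℚ} (hy : y ≠ 0) : IsSquare (x * y ^ 2) ↔ IsSquare x := by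
  constructor
  · rintro ⟨r, hr⟩
    refine ⟨r / y, ?_⟩
    field_simp
    rw [hr]
    ring
  · rintro ⟨r, hr⟩
    refine ⟨r * y, ?_⟩
    rw [hr]
    ring

/-- adjacency on a circle -/
theorem sq_cp (t : Bool) {β γ : Pt} (hβ : β ≠ 0) (hγ : γ ≠ 0) (hne : cp t β ≠ cp t γ) :
    IsSquare (nm 2 (cp t β - cp t γ)) ↔
      IsSquare ((if t then 1 else 2) * (nm 2 β * nm 2 γ)) := by
  have h1 := (nm_pos two_pos' hβ).ne'
  have h2 := (nm_pos two_pos' hγ).ne'
  have hcA : cA β γ ≠ 0 := by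
    intro h0
    have hz : nm 2 (c1 β - c1 γ) = 0 := by
      rw [nm_c1_sub hβ hγ, h0]
      simp
    apply hne
    have h3 : c1 β - c1 γ = 0 := by
      by_contra h4
      exact (nm_pos two_pos' h4).ne' hz
    have h5 : c1 β = c1 γ := sub_eq_zero.mp h3
    unfold cp
    rw [h5]
  cases t
  · simp only [cp, Bool.false_eq_true, if_false]
    rw [nm_c1_sub hβ hγ]
    have e : 8 * cA β γ ^ 2 / (nm 2 β * nm 2 γ) =
        2 * (nm 2 β * nm 2 γ) * (2 * cA β γ / (nm 2 β * nm 2 γ)) ^ 2 := by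
      field_simp
      ring
    rw [e, isSquare_mul_sq (div_ne_zero (mul_ne_zero two_ne_zero hcA) (mul_ne_zero h1 h2))]
  · simp only [cp, if_true]
    rw [mo_sub, nm_mo, nm_c1_sub hβ hγ]
    have e : 2 * (8 * cA β γ ^ 2 / (nm 2 β * nm 2 γ)) =
        1 * (nm 2 β * nm 2 γ) * (4 * cA β γ / (nm 2 β * nm 2 γ)) ^ 2 := by
      field_simp
      ring
    rw [e, isSquare_mul_sq (div_ne_zero (mul_ne_zero four_ne_zero hcA) (mul_ne_zero h1 h2))]

end Pool.Agent.Lib.MP_a24e3f_co.CC
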