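import Mathlib
import Pool.Agent.Lib.MP_a24e3f_co.CC.Circle

/-!
# Infinitely many independent square classes of norms
-/

set_option autoImplicit false

namespace Pool.Agent.Lib.MP_a24e3f_co.CC

/-- `P (k+1) = P k (1 + 2 (P k)^2)` -/
def PP : ℕ → ℕ
  | 0 => 1
  | k + 1 => PP k * (1 + 2 * PP k ^ 2)

def NN (k : ℕ) : ℕ := 1 + 2 * PP k ^ 2

theorem PP_odd (k : ℕ) : PP k % 2 = 1 := by
  induction k with
  | zero => rfl
  | succ k ih =>
    show (PP k * (1 + 2 * PP k ^ 2)) % 2 = 1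
    rw [Nat.mul_mod, ih, Nat.add_mod, Nat.mul_mod_right]

theorem NN_mod (k : ℕ) : NN k % 8 = 3 := by
  have h := PP_odd k
  obtain ⟨m, hm⟩ : ∃ m, PP k = 2 * m + 1 := ⟨PP k / 2, by omega⟩
  unfold NN
  rw [hm]
  have h1 : 1 + 2 * (2 * m + 1) ^ 2 = 3 + 8 * (m * (m + 1)) := by ring
  rw [h1]
  omega

theorem sq_mod8 (d : ℕ) : (d ^ 2) % 8 = 0 ∨ (d ^ 2) % 8 = 1 ∨ (d ^ 2) % 8 = 4 := by
  have h : d % 8 < 8 := Nat.mod_lt _ (by norm_num)
  rw [Nat.pow_mod]
  interval_cases d % 8 <;> simp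

theorem PP_dvd {k l : ℕ} (h : k ≤ l) : PP k ∣ PP l := by
  induction l, h using Nat.le_induction with
  | base => exact dvd_rfl
  | succ l _ ih => exact ih.trans (Dvd.intro _ rfl)

theorem NN_dvd {k l : ℕ} (h : k < l) : NN k ∣ PP l :=
  (Dvd.intro_left _ rfl : NN k ∣ PP (k + 1)).trans (PP_dvd h)

theorem NN_coprime {k l : ℕ} (h : k < l) : Nat.Coprime (NN k) (NN l) := by
  have h1 := NN_dvd h
  rw [Nat.coprime_iff_gcd_eq_one]
  have h2 : Nat.gcd (NN k) (NN l) ∣ PP l := (Nat.gcd_dvd_left _ _).trans h1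
  have h3 : Nat.gcd (NN k) (NN l) ∣ 1 + 2 * PP l ^ 2 := Nat.gcd_dvd_right _ _
  have h4 : Nat.gcd (NN k) (NN l) ∣ 2 * PP l ^ 2 := (h2.trans (dvd_pow_self _ two_ne_zero)).mul_left 2
  exact Nat.dvd_one.mp ((Nat.dvd_add_left h4).mp h3)

theorem NN_nonsq {k l : ℕ} (h : k < l) : ¬ IsSquare (NN k * NN l) := by
  rintro ⟨c, hc⟩
  have h1 : IsUnit (gcd (NN k) (NN l)) := by
    rw [Nat.isUnit_iff]
    exact NN_coprime h
  obtain ⟨d, hd⟩ := exists_eq_pow_of_mul_eq_pow h1 (hc.trans (sq c).symm)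
  have h2 := NN_mod k
  rw [hd] at h2
  rcases sq_mod8 d with h3 | h3 | h3 <;> omega

theorem NN_nonsq' {k l : ℕ} (h : k ≠ l) : ¬ IsSquare (NN k * NN l) := by
  rcases Nat.lt_or_gt_of_ne h with h1 | h1
  · exact NN_nonsq h1
  · rw [mul_comm]
    exact NN_nonsq h1

theorem NN_nonsq2 (k l : ℕ) : ¬ IsSquare (2 * (NN k * NN l)) := by
  rintro ⟨c, hc⟩
  have h1 := NN_mod k
  have h2 := NN_mod l
  have h3 : (NN k * NN l) % 8 = 1 := by rw [Nat.mul_mod, h1, h2]
  have h4 : (c ^ 2) % 8 = 2 := by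
    rw [sq, ← hc]
    omega
  rcases sq_mod8 c with h5 | h5 | h5 <;> omega

/-- representative of the class `k`, side `s` -/
def rp (k : ℕ) (s : Bool) : Pt := if s then mo (1, (PP k : ℚ)) else (1, (PP k : ℚ))

theorem nm_rp (k : ℕ) (s : Bool) : nm 2 (rp k s) = (if s then 2 else 1) * (NN k : ℚ) := by
  cases s
  · simp only [rp, Bool.false_eq_true, if_false, nm, NN]
    push_cast
    ring
  · simp only [rp, if_true]
    rw [nm_mo]
    unfold nm NN
    push_cast
    ring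

theorem rp_ne (k : ℕ) (s : Bool) : rp k s ≠ 0 := by
  intro h
  have h1 := nm_rp k s
  rw [h] at h1
  have h2 : (0 : ℚ) < NN k := by unfold NN; positivity
  have h3 : nm 2 (0 : Pt) = 0 := by unfold nm; simp
  rw [h3] at h1
  have h4 : (0 : ℚ) < (if s = true then 2 else 1) * (NN k : ℚ) := by
    split_ifs <;> linarith
  exact h4.ne h1

theorem cls_true (k l : ℕ) : IsSquare (1 * (nm 2 (rp k false) * nm 2 (rp l false))) ↔ k = l := by
  rw [nm_rp, nm_rp]
  have e : (1 : ℚ) * ((if false = true then 2 else 1) * (NN k : ℚ) *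
      ((if false = true then 2 else 1) * (NN l : ℚ))) = ((NN k * NN l : ℕ) : ℚ) := by
    push_cast
    simp
  rw [e, Rat.isSquare_natCast_iff]
  constructor
  · intro h
    by_contra hne
    exact NN_nonsq' hne h
  · rintro rfl
    exact ⟨_, rfl⟩

theorem cls_false (k l : ℕ) (s t : Bool) :
    IsSquare (2 * (nm 2 (rp k s) * nm 2 (rp l t))) ↔ k = l ∧ s ≠ t := by
  rw [nm_rp, nm_rp]
  cases s <;> cases t
  · have e : (2 : ℚ) * ((if false = true then 2 else 1) * (NN k : ℚ) *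
        ((if false = true then 2 else 1) * (NN l : ℚ))) = ((2 * (NN k * NN l) : ℕ) : ℚ) := by
      push_cast
      simp
    rw [e, Rat.isSquare_natCast_iff]
    constructor
    · intro h; exact absurd h (NN_nonsq2 k l)
    · rintro ⟨_, h⟩; exact absurd rfl h
  · have e : (2 : ℚ) * ((if false = true then 2 else 1) * (NN k : ℚ) *
        ((if true = true then 2 else 1) * (NN l : ℚ))) = ((NN k * NN l : ℕ) : ℚ) * 2 ^ 2 := by
      push_cast
      simp
      ring
    rw [e, isSquare_mul_sq two_ne_zero, Rat.isSquare_natCast_iff]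
    constructor
    · intro h
      refine ⟨?_, Bool.false_ne_true⟩
      by_contra hne
      exact NN_nonsq' hne h
    · rintro ⟨rfl, _⟩
      exact ⟨_, rfl⟩
  · have e : (2 : ℚ) * ((if true = true then 2 else 1) * (NN k : ℚ) *
        ((if false = true then 2 else 1) * (NN l : ℚ))) = ((NN k * NN l : ℕ) : ℚ) * 2 ^ 2 := by
      push_cast
      simp
      ring
    rw [e, isSquare_mul_sq two_ne_zero, Rat.isSquare_natCast_iff]
    constructor
    · intro h
      refine ⟨?_, Bool.false_ne_true.symm⟩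
      by_contra hne
      exact NN_nonsq' hne h
    · rintro ⟨rfl, _⟩
      exact ⟨_, rfl⟩
  · have e : (2 : ℚ) * ((if true = true then 2 else 1) * (NN k : ℚ) *
        ((if true = true then 2 else 1) * (NN l : ℚ))) = ((2 * (NN k * NN l) : ℕ) : ℚ) * 2 ^ 2 := by
      push_cast
      simp
      ring
    rw [e, isSquare_mul_sq two_ne_zero, Rat.isSquare_natCast_iff]
    constructor
    · intro h; exact absurd h (NN_nonsq2 k l)
    · rintro ⟨_, h⟩; exact absurd rfl h

end Pool.Agent.Lib.MP_a24e3f_co.CC
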