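import Mathlib
import Pool.Agent.Lib.MP_a24e3f_co.Extend

/-!
# Extension by a point with at most three prescribed neighbours, off a circle about `0`
-/

set_option autoImplicit false

namespace Pool.Agent.Lib.MP_a24e3f_co.CC

open Polynomial

/-- a polynomial with a simple root is not a constant times a square -/
theorem ne_const_mul_sq {F Q : ℚ[X]} {r : ℚ} (hF : HasSimpleRoot F) : F - C r * Q ^ 2 ≠ 0 := by
  intro h
  obtain ⟨s, h0, h1⟩ := hF
  have h2 : F = C r * Q ^ 2 := sub_eq_zero.mp h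
  by_cases hQ : aeval s Q = 0
  · apply h1
    rw [h2]
    simp only [derivative_mul, derivative_pow, derivative_C, map_add, map_mul, map_pow, hQ]
    simp
  · rw [h2, map_mul, map_pow] at h0
    have h3 := (mul_eq_zero.mp h0).resolve_right (pow_ne_zero 2 hQ)
    apply h1
    rw [h2]
    simp only [derivative_mul, derivative_C, zero_mul, zero_add, map_mul, h3]

theorem extend3' {D : ℚ} (hD : 0 < D) (r : ℚ) (S : Finset Pt) (hS : GP S) {a b c : Pt}
    (ha : a ∈ S) (hb : b ∈ S) (hc : c ∈ S) (hab : a ≠ b) (hbc : b ≠ c) (hac : a ≠ c)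
    (ha0 : a ≠ 0) (hb0 : b ≠ 0) (hc0 : c ≠ 0) :
    ∃ z : Pt, (∀ x ∈ S, ∀ y ∈ S, x ≠ y → cr x y z ≠ 0) ∧ IsSquare (nm D (z - a)) ∧
      IsSquare (nm D (z - b)) ∧ IsSquare (nm D (z - c)) ∧
      (∀ d ∈ S, d ≠ a → d ≠ b → d ≠ c → ¬ IsSquare (nm D (z - d))) ∧ nm D z ≠ r := by
  classical
  have hA : cA (b - a) (c - a) ≠ 0 := hS a ha b hb c hc hab hbc hac
  have hsr : HasSimpleRoot (FP D (b - a) (c - a) (0 - a)) := by
    apply FP_simpleRoot hD _ _ _ hA (sub_ne_zero.mpr ha0.symm)
    · intro h; exact hb0 (sub_left_inj.mp h).symm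
    · intro h; exact hc0 (sub_left_inj.mp h).symm
  have hB : (bP D (b - a) (c - a) * ∏ p ∈ (S ×ˢ S).filter (fun p => p.1 ≠ p.2),
      TP D (b - a) (c - a) (p.1 - a) (p.2 - p.1)) *
      (FP D (b - a) (c - a) (0 - a) -
        C r * (bP D (b - a) (c - a) * (1 + C D * X ^ 2)) ^ 2) ≠ 0 := by
    apply mul_ne_zero
    · apply mul_ne_zero (bP_ne D _ _ hA)
      rw [Finset.prod_ne_zero_iff]
      intro p hp
      rw [Finset.mem_filter] at hp
      exact TP_ne D _ _ _ hD _ hA (sub_ne_zero.mpr (Ne.symm hp.2))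
    · exact ne_const_mul_sq hsr
  obtain ⟨s, hs1, hs2⟩ := exists_good (fun d : Pt => FP D (b - a) (c - a) (d - a))
    (S.filter (fun d => d ≠ a ∧ d ≠ b ∧ d ≠ c)) (by
      intro d hd
      rw [Finset.mem_filter] at hd
      apply FP_simpleRoot hD _ _ _ hA (sub_ne_zero.mpr hd.2.1)
      · intro h; exact hd.2.2.1 (sub_left_inj.mp h)
      · intro h; exact hd.2.2.2 (sub_left_inj.mp h)) _ hB
  rw [eval_mul, mul_ne_zero_iff] at hs1
  obtain ⟨hs1, hsr2⟩ := hs1
  rw [eval_mul, eval_prod, mul_ne_zero_iff, Finset.prod_ne_zero_iff] at hs1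
  obtain ⟨hs1, hs3⟩ := hs1
  have hs0 : 1 + D * s ^ 2 ≠ 0 := by positivity
  have hden : (bP D (b - a) (c - a)).eval s * (1 + D * s ^ 2) ≠ 0 := mul_ne_zero hs1 hs0
  set z := a + newW D (b - a) (c - a) s with hz
  have hzd : ∀ d, z - d = newW D (b - a) (c - a) s - (d - a) := by
    intro d; rw [hz]; abel
  have hcr : ∀ x ∈ S, ∀ y ∈ S, x ≠ y → cr x y z ≠ 0 := by
    intro x hx y hy hxy
    unfold cr
    rw [cA_anti, neg_ne_zero, hzd]
    apply cA_newW D _ _ _ _ _ hs1 hs0
    exact hs3 (x, y) (by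
      rw [Finset.mem_filter, Finset.mem_product]
      exact ⟨⟨hx, hy⟩, hxy⟩)
  have hnm : ∀ d, nm D (z - d) = (FP D (b - a) (c - a) (d - a)).eval s /
      ((bP D (b - a) (c - a)).eval s * (1 + D * s ^ 2)) ^ 2 := by
    intro d
    rw [hzd]
    exact nm_newW D _ _ _ _ hs1 hs0
  refine ⟨z, hcr, ?_, ?_, ?_, ?_, ?_⟩
  · rw [hnm, sub_self]
    exact (FP_sq0 D _ _ _).div (IsSquare.sq _)
  · rw [hnm]
    exact (FP_sq1 D _ _ _).div (IsSquare.sq _)
  · rw [hnm]
    exact (FP_sq2 D _ _ _).div (IsSquare.sq _)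
  · intro d hd hda hdb hdc hsq
    rw [hnm] at hsq
    have h1 := isSquare_of_div hden hsq
    have hzne : z - d ≠ 0 := by
      intro h0
      have h2 := hcr d hd a ha hda
      apply h2
      unfold cr
      rw [h0]
      unfold cA
      simp
    have h3 : (FP D (b - a) (c - a) (d - a)).eval s ≠ 0 := by
      intro h0
      have h4 := hnm d
      rw [h0, zero_div] at h4
      exact (nm_pos hD hzne).ne' h4
    exact hs2 d (by rw [Finset.mem_filter]; exact ⟨hd, hda, hdb, hdc⟩) h3 h1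
  · intro h0
    apply hsr2
    have h1 := hnm 0
    rw [sub_zero, h0, eq_div_iff (pow_ne_zero 2 hden)] at h1
    rw [eval_sub, ← h1]
    simp only [eval_mul, eval_pow, eval_add, eval_X, eval_C, eval_one]
    ring

theorem extend' {D : ℚ} (hD : 0 < D) (r : ℚ) : ∀ (k : ℕ) (S : Finset Pt) (_ : GP S)
    (_ : (0 : Pt) ∈ S) (B : Finset Pt) (_ : B ⊆ S) (_ : (0 : Pt) ∉ B) (_ : B.card + k = 3),
    ∃ z : Pt, z ∉ S ∧ (∀ x ∈ S, ∀ y ∈ S, x ≠ y → cr x y z ≠ 0) ∧
      (∀ d ∈ S, (IsSquare (nm D (z - d)) ↔ d ∈ B)) ∧ nm D z ≠ r := by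
  classical
  intro k
  induction k with
  | zero =>
    intro S hS h0 B hB hB0 hcard
    rw [add_zero, Finset.card_eq_three] at hcard
    obtain ⟨a, b, c, hab, hac, hbc, rfl⟩ := hcard
    have ha : a ∈ S := hB (by simp)
    have hb : b ∈ S := hB (by simp)
    have hc : c ∈ S := hB (by simp)
    simp only [Finset.mem_insert, Finset.mem_singleton, not_or] at hB0
    obtain ⟨z, h1, h2, h3, h4, h5, h6⟩ := extend3' hD r S hS ha hb hc hab hbc hac
      (fun h => hB0.1 h.symm) (fun h => hB0.2.1 h.symm) (fun h => hB0.2.2 h.symm)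
    refine ⟨z, ?_, h1, ?_, h6⟩
    · intro hz
      have : ∃ x ∈ S, x ≠ z := by
        by_cases haz : a = z
        · exact ⟨b, hb, fun h => hab (haz.trans h.symm)⟩
        · exact ⟨a, ha, haz⟩
      obtain ⟨x, hx, hxz⟩ := this
      apply h1 x hx z hz hxz
      unfold cr cA
      ring
    · intro d hd
      constructor
      · intro hsq
        by_contra hdB
        simp only [Finset.mem_insert, Finset.mem_singleton, not_or] at hdB
        exact h5 d hd hdB.1 hdB.2.1 hdB.2.2 hsq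
      · intro hdB
        simp only [Finset.mem_insert, Finset.mem_singleton] at hdB
        rcases hdB with rfl | rfl | rfl
        · exact h2
        · exact h3
        · exact h4
  | succ k ih =>
    intro S hS h0 B hB hB0 hcard
    obtain ⟨p, hp, hpS⟩ := extend0 S
    have hpB : p ∉ B := fun h => hp (hB h)
    have hp0 : (0 : Pt) ≠ p := fun h => hp (h ▸ h0)
    obtain ⟨z, h1, h2, h3, h4⟩ := ih (insert p S) (GP_insert hS hpS)
      (Finset.mem_insert_of_mem h0) (insert p B)
      (Finset.insert_subset_insert p hB) (by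
        rw [Finset.mem_insert, not_or]
        exact ⟨hp0, hB0⟩) (by rw [Finset.card_insert_of_notMem hpB]; omega)
    refine ⟨z, fun h => h1 (Finset.mem_insert_of_mem h), ?_, ?_, h4⟩
    · intro x hx y hy hxy
      exact h2 x (Finset.mem_insert_of_mem hx) y (Finset.mem_insert_of_mem hy) hxy
    · intro d hd
      rw [h3 d (Finset.mem_insert_of_mem hd), Finset.mem_insert]
      constructor
      · rintro (rfl | h)
        · exact absurd hd hp
        · exact h
      · intro h
        exact Or.inr h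

end Pool.Agent.Lib.MP_a24e3f_co.CC
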