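import Mathlib
import Pool.Agent.Lib.MP_a24e3f_co.CC.Circle

set_option autoImplicit false

namespace Pool.Agent.Lib.MP_a24e3f_co.CC

open Polynomial ComplexConjugate

/-- the numerator of the squared distance of the moving point of the circle from `p` -/
noncomputable def LP (z p : Pt) : ℚ[X] :=
  C (nm 2 (z - p)) * (1 - 2 * X ^ 2) ^ 2 + C (-8 * cA z p) * ((1 - 2 * X ^ 2) * (2 * X)) +
    C (2 * nm 2 (z + p)) * (2 * X) ^ 2

/-- the moving point -/
def zz (z : Pt) (s : ℚ) : Pt :=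
  ((z.1 * ((1 - 2 * s ^ 2) ^ 2 - 2 * (2 * s) ^ 2) - 2 * z.2 * (2 * (1 - 2 * s ^ 2) * (2 * s))) /
      (1 + 2 * s ^ 2) ^ 2,
   (z.1 * (2 * (1 - 2 * s ^ 2) * (2 * s)) + z.2 * ((1 - 2 * s ^ 2) ^ 2 - 2 * (2 * s) ^ 2)) /
      (1 + 2 * s ^ 2) ^ 2)

theorem den_pos (s : ℚ) : (0 : ℚ) < 1 + 2 * s ^ 2 := by positivity

theorem LP_ev (z p : Pt) (s : ℚ) : (LP z p).eval s =
    nm 2 (z - p) * (1 - 2 * s ^ 2) ^ 2 + (-8 * cA z p) * ((1 - 2 * s ^ 2) * (2 * s)) +
    (2 * nm 2 (z + p)) * (2 * s) ^ 2 := by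
  unfold LP
  simp only [eval_add, eval_sub, eval_mul, eval_pow, eval_X, eval_C, eval_one, eval_ofNat]

theorem nm_zz (z p : Pt) (s : ℚ) :
    nm 2 (zz z s - p) = (LP z p).eval s / (1 + 2 * s ^ 2) ^ 2 := by
  have h := (den_pos s).ne'
  rw [LP_ev]
  have e : nm 2 (zz z s - p) =
      (((z.1 * ((1 - 2 * s ^ 2) ^ 2 - 2 * (2 * s) ^ 2) -
          2 * z.2 * (2 * (1 - 2 * s ^ 2) * (2 * s))) - p.1 * (1 + 2 * s ^ 2) ^ 2) ^ 2 +
        2 * ((z.1 * (2 * (1 - 2 * s ^ 2) * (2 * s)) +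
          z.2 * ((1 - 2 * s ^ 2) ^ 2 - 2 * (2 * s) ^ 2)) - p.2 * (1 + 2 * s ^ 2) ^ 2) ^ 2) /
        ((1 + 2 * s ^ 2) ^ 2) ^ 2 := by
    unfold zz nm
    simp only [Prod.fst_sub, Prod.snd_sub]
    field_simp
  rw [e, div_eq_div_iff (pow_ne_zero 2 (pow_ne_zero 2 h)) (pow_ne_zero 2 h)]
  unfold nm cA
  simp only [Prod.fst_sub, Prod.snd_sub, Prod.fst_add, Prod.snd_add]
  ring

/-- the moving point on the circles -/
theorem zz_cp (t : Bool) {β : Pt} (hβ : β ≠ 0) (s : ℚ) :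
    zz (cp t β) s = cp t (ml β (1 - 2 * s ^ 2, 2 * s)) := by
  have h := (den_pos s).ne'
  have h1 := (nm_pos two_pos' hβ).ne'
  have h2 : nm 2 (ml β (1 - 2 * s ^ 2, 2 * s)) = nm 2 β * (1 + 2 * s ^ 2) ^ 2 := by
    rw [nm_ml]
    congr 1
    unfold nm
    ring
  cases t
  · simp only [cp, Bool.false_eq_true, if_false]
    unfold c1
    rw [h2]
    ext
    · simp only [zz, ml]
      field_simp
      ring
    · simp only [zz, ml]
      field_simp
      ring
  · simp only [cp, if_true]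
    unfold c1
    rw [h2]
    ext
    · simp only [zz, ml, mo]
      field_simp
      ring
    · simp only [zz, ml, mo]
      field_simp
      ring

theorem nm_ml_s (β : Pt) (s : ℚ) :
    nm 2 (ml β (1 - 2 * s ^ 2, 2 * s)) = nm 2 β * (1 + 2 * s ^ 2) ^ 2 := by
  rw [nm_ml]
  congr 1
  unfold nm
  ring

theorem toC_nm (p : Pt) : toC 2 p * conj (toC 2 p) = ((nm 2 p : ℚ) : ℂ) := by
  have hw := om_sq (D := 2) two_pos'
  rw [conj_toC]
  unfold toC nm
  push_cast at hw ⊢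
  linear_combination (-(p.2 : ℂ) ^ 2) * hw

theorem toC_add (p q : Pt) : toC 2 (p + q) = toC 2 p + toC 2 q := by
  unfold toC
  simp only [Prod.fst_add, Prod.snd_add]
  push_cast
  ring

theorem LP_simpleRoot (z p : Pt) (hz : z ≠ 0) (hp : p ≠ 0) (hne : nm 2 z ≠ nm 2 p) :
    HasSimpleRoot (LP z p) := by
  have hw := om_sq (D := 2) two_pos'
  have hw0 := om_ne (D := 2) two_pos'
  have ha : toC 2 z ≠ 0 := by rw [← toC_zero 2]; exact toC_ne two_pos' hz
  have hb : toC 2 p ≠ 0 := by rw [← toC_zero 2]; exact toC_ne two_pos' hp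
  have hab : toC 2 z * conj (toC 2 z) - toC 2 p * conj (toC 2 p) ≠ 0 := by
    rw [toC_nm, toC_nm]
    intro h
    apply hne
    have h1 : ((nm 2 z : ℚ) : ℂ) = ((nm 2 p : ℚ) : ℂ) := sub_eq_zero.mp h
    exact_mod_cast h1
  have n1 : ((nm 2 (z - p) : ℚ) : ℂ) =
      (toC 2 z - toC 2 p) * (conj (toC 2 z) - conj (toC 2 p)) := by
    rw [← toC_nm, toC_sub, map_sub]
  have n3 : ((nm 2 (z + p) : ℚ) : ℂ) =
      (toC 2 z + toC 2 p) * (conj (toC 2 z) + conj (toC 2 p)) := by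
    rw [← toC_nm, toC_add, map_add]
  have n2 : -8 * ((cA z p : ℚ) : ℂ) =
      2 * om 2 * (conj (toC 2 z) * toC 2 p - toC 2 z * conj (toC 2 p)) := by
    rw [area_toC]
    push_cast at hw
    linear_combination (-4 * ((cA z p : ℚ) : ℂ)) * hw
  set a := toC 2 z
  set b := toC 2 p
  set a' := conj a
  set b' := conj b
  clear_value a' b'
  obtain ⟨r, hr⟩ := IsAlgClosed.exists_pow_nat_eq (b / a) (n := 2) two_pos
  have hbr : b = a * r ^ 2 := by rw [hr]; field_simp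
  have hr0 : r ≠ 0 := by
    rintro rfl
    apply hb
    rw [hbr]; ring
  have hba : b ≠ a := by
    intro h
    apply hne
    have h1 : toC 2 p = toC 2 z := h
    rw [toC_injective two_pos' h1]
  have hr1 : r + 1 ≠ 0 := by
    intro h
    apply hba
    rw [hbr]
    have : r = -1 := by linear_combination h
    rw [this]; ring
  set w := om 2
  push_cast at hw
  have hab' : a * (a' - r ^ 2 * b') ≠ 0 := by
    intro h
    apply hab
    rw [hbr]
    linear_combination h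
  clear_value a b w
  set q := (r - 1) / (r + 1) with hq
  have hs2 : (-(q * w / 2)) ^ 2 = -(q ^ 2 / 2) := by
    linear_combination (q ^ 2 / 4) * hw
  have e1 : 1 - 2 * (-(q * w / 2)) ^ 2 = 1 + q ^ 2 := by rw [hs2]; ring
  have e2 : 2 * (-(q * w / 2)) = -(q * w) := by ring
  have e3 : (-(q * w)) ^ 2 = -2 * q ^ 2 := by linear_combination (q ^ 2) * hw
  refine ⟨-(q * w / 2), ?_, ?_⟩
  · unfold LP
    simp only [map_add, map_sub, map_mul, map_pow, aeval_C, aeval_X, map_one, map_ofNat, map_neg,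
      eq_ratCast]
    rw [n1, n3, n2, e1, e2, e3, hbr]
    have key0 : (a - a * r ^ 2) * (a' - b') * (1 + q ^ 2) ^ 2 +
        4 * q * (1 + q ^ 2) * (a' * (a * r ^ 2) - a * b') -
        4 * q ^ 2 * ((a + a * r ^ 2) * (a' + b')) = 0 := by
      rw [hq]
      field_simp
      ring
    linear_combination key0 + (-2 * q * (1 + q ^ 2) * (a' * (a * r ^ 2) - a * b')) * hw
  · have hder : aeval (-(q * w / 2)) (derivative (LP z p)) =
        ((nm 2 (z - p) : ℚ) : ℂ) * (2 * (1 - 2 * (-(q * w / 2)) ^ 2) * (-4 * (-(q * w / 2)))) +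
        (-8 * ((cA z p : ℚ) : ℂ)) * ((-4 * (-(q * w / 2))) * (2 * (-(q * w / 2))) +
          (1 - 2 * (-(q * w / 2)) ^ 2) * 2) +
        2 * ((nm 2 (z + p) : ℚ) : ℂ) * (2 * (2 * (-(q * w / 2))) * 2) := by
      unfold LP
      simp only [derivative_mul, derivative_pow, derivative_C, derivative_X, derivative_one, derivative_ofNat, map_add, map_sub, map_mul, map_pow,
        aeval_C, aeval_X, map_one, map_ofNat, map_neg, map_zero, eq_ratCast, map_natCast]
      push_cast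
      ring
    rw [hder, n1, n3, n2, e1, e2, hbr]
    have key1 : 4 * q * (1 + q ^ 2) * ((a - a * r ^ 2) * (a' - b')) +
        4 * (1 + 3 * q ^ 2) * (a' * (a * r ^ 2) - a * b') -
        8 * q * ((a + a * r ^ 2) * (a' + b')) =
        16 * r * (a * (a' - r ^ 2 * b')) / (r + 1) ^ 2 := by
      rw [hq]
      field_simp
      ring
    have key2 : (a - a * r ^ 2) * (a' - b') * (2 * (1 + q ^ 2) * (-4 * (-(q * w / 2)))) +
        2 * w * (a' * (a * r ^ 2) - a * b') * ((-4 * (-(q * w / 2))) * (-(q * w)) +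
          (1 + q ^ 2) * 2) +
        2 * ((a + a * r ^ 2) * (a' + b')) * (2 * (-(q * w)) * 2) =
        w * (16 * r * (a * (a' - r ^ 2 * b')) / (r + 1) ^ 2) := by
      rw [← key1]
      linear_combination (-4 * w * q ^ 2 * (a' * (a * r ^ 2) - a * b')) * hw
    rw [key2]
    exact mul_ne_zero hw0 (div_ne_zero (mul_ne_zero (mul_ne_zero (by norm_num) hr0) hab')
      (pow_ne_zero 2 hr1))

end Pool.Agent.Lib.MP_a24e3f_co.CC
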