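import Mathlib
import Pool.Agent.Lib.MP_a24e3f_co.CC.Root2

set_option autoImplicit false

namespace Pool.Agent.Lib.MP_a24e3f_co.CC

open Polynomial ComplexConjugate

/-- the condition that the moving point is on the line through `x` with direction `d` -/
noncomputable def LC (z x d : Pt) : ℚ[X] :=
  (C z.1 * (2 * (1 - 2 * X ^ 2) * (2 * X)) + C z.2 * ((1 - 2 * X ^ 2) ^ 2 - 2 * (2 * X) ^ 2) -
    C x.2 * (1 + 2 * X ^ 2) ^ 2) * C d.1 -
  (C z.1 * ((1 - 2 * X ^ 2) ^ 2 - 2 * (2 * X) ^ 2) - 2 * C z.2 * (2 * (1 - 2 * X ^ 2) * (2 * X)) -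
    C x.1 * (1 + 2 * X ^ 2) ^ 2) * C d.2

theorem LC_ev (z x d : Pt) (s : ℚ) : cA d (zz z s - x) * (1 + 2 * s ^ 2) ^ 2 =
    (LC z x d).eval s := by
  have h := (den_pos s).ne'
  unfold LC cA zz
  simp only [eval_add, eval_sub, eval_mul, eval_pow, eval_X, eval_C, eval_one, eval_ofNat,
    Prod.fst_sub, Prod.snd_sub]
  field_simp

theorem LC_ne (z x d : Pt) (hz : z ≠ 0) (hd : d ≠ 0) : LC z x d ≠ 0 := by
  intro h
  have hw := om_sq (D := 2) two_pos'
  have hw0 := om_ne (D := 2) two_pos'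
  push_cast at hw
  have k : aeval (om 2 / 2) (LC z x d) = 0 := by rw [h]; simp
  have hs2 : (om 2 / 2) ^ 2 = -(1 / 2) := by linear_combination (1 / 4) * hw
  unfold LC at k
  simp only [map_add, map_sub, map_mul, map_pow, aeval_C, aeval_X, map_one, map_ofNat,
    eq_ratCast] at k
  have e1 : 1 - 2 * (om 2 / 2) ^ 2 = 2 := by rw [hs2]; ring
  have e2 : 1 + 2 * (om 2 / 2) ^ 2 = 0 := by rw [hs2]; ring
  rw [e1, e2] at k
  have hz' : conj (toC 2 z) ≠ 0 := by
    intro h0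
    have h1 : toC 2 z ≠ 0 := by rw [← toC_zero 2]; exact toC_ne two_pos' hz
    apply h1
    have := congrArg conj h0
    rwa [Complex.conj_conj, map_zero] at this
  have hd' : conj (toC 2 (d.1, -(d.2))) ≠ 0 := by
    intro h0
    have h2 : ((d.1, -(d.2)) : Pt) ≠ 0 := by
      intro h3
      apply hd
      have h4 := congrArg Prod.fst h3
      have h5 := congrArg Prod.snd h3
      simp only [Prod.fst_zero, Prod.snd_zero] at h4 h5
      exact Prod.ext h4 (neg_eq_zero.mp h5)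
    have h1 : toC 2 (d.1, -(d.2)) ≠ 0 := by rw [← toC_zero 2]; exact toC_ne two_pos' h2
    apply h1
    have := congrArg conj h0
    rwa [Complex.conj_conj, map_zero] at this
  have key : om 2 * (conj (toC 2 z) * conj (toC 2 (d.1, -(d.2)))) = 0 := by
    rw [conj_toC, conj_toC]
    push_cast
    linear_combination (1 / 4) * k +
      (((z.1 : ℂ) * d.2 - (z.2 : ℂ) * d.1) / 2 - (z.2 : ℂ) * d.2 * om 2) * hw
  exact mul_ne_zero hw0 (mul_ne_zero hz' hd') key

theorem rad_pos (t : Bool) : 0 < rad t := by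
  cases t <;> simp [rad]

/-- a new point of the circle of kind `t`, of the class of `β0` -/
theorem core_point (t : Bool) (β0 : Pt) (hβ0 : β0 ≠ 0) (S : Finset Pt) (h0 : (0 : Pt) ∈ S) :
    ∃ β : Pt, β ≠ 0 ∧ (∃ T : ℚ, T ≠ 0 ∧ nm 2 β = nm 2 β0 * T ^ 2) ∧ cp t β ∉ S ∧
      (∀ x ∈ S, ∀ y ∈ S, x ≠ y → cr x y (cp t β) ≠ 0) ∧
      ∀ p ∈ S, p ≠ 0 → nm 2 p ≠ rad t → ¬ IsSquare (nm 2 (cp t β - p)) := by
  classical
  have hzn : nm 2 (cp t β0) = rad t := nm_cp t hβ0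
  have hz : cp t β0 ≠ 0 := by
    intro h
    rw [h] at hzn
    have h1 := rad_pos t
    rw [← hzn] at h1
    unfold nm at h1
    simp at h1
  have hB : ∏ p ∈ (S ×ˢ S).filter (fun p => p.1 ≠ p.2),
      LC (cp t β0) p.1 (p.2 - p.1) ≠ 0 := by
    rw [Finset.prod_ne_zero_iff]
    intro p hp
    rw [Finset.mem_filter] at hp
    exact LC_ne _ _ _ hz (sub_ne_zero.mpr (Ne.symm hp.2))
  obtain ⟨s, hs1, hs2⟩ := exists_good (fun p : Pt => LP (cp t β0) p)
    (S.filter (fun p => p ≠ 0 ∧ nm 2 p ≠ rad t)) (by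
      intro p hp
      rw [Finset.mem_filter] at hp
      exact LP_simpleRoot _ _ hz hp.2.1 (by rw [hzn]; exact hp.2.2.symm)) _ hB
  rw [eval_prod, Finset.prod_ne_zero_iff] at hs1
  have hT := (den_pos s).ne'
  have hnb : nm 2 (ml β0 (1 - 2 * s ^ 2, 2 * s)) = nm 2 β0 * (1 + 2 * s ^ 2) ^ 2 := nm_ml_s β0 s
  have hb : ml β0 (1 - 2 * s ^ 2, 2 * s) ≠ 0 := by
    intro h
    rw [h] at hnb
    have h1 : nm 2 β0 * (1 + 2 * s ^ 2) ^ 2 ≠ 0 :=
      mul_ne_zero (nm_pos two_pos' hβ0).ne' (pow_ne_zero 2 hT)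
    apply h1
    rw [← hnb]
    unfold nm
    simp
  have hcp : cp t (ml β0 (1 - 2 * s ^ 2, 2 * s)) = zz (cp t β0) s := (zz_cp t hβ0 s).symm
  have hcr : ∀ x ∈ S, ∀ y ∈ S, x ≠ y → cr x y (zz (cp t β0) s) ≠ 0 := by
    intro x hx y hy hxy h
    have h1 := hs1 (x, y) (by
      rw [Finset.mem_filter, Finset.mem_product]
      exact ⟨⟨hx, hy⟩, hxy⟩)
    apply h1
    rw [← LC_ev]
    unfold cr at h
    simp only
    rw [h, zero_mul]
  have hn : nm 2 (zz (cp t β0) s) = rad t := by rw [← hcp]; exact nm_cp t hb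
  have hne0 : zz (cp t β0) s ≠ 0 := by
    intro h
    rw [h] at hn
    have h1 := rad_pos t
    rw [← hn] at h1
    unfold nm at h1
    simp at h1
  refine ⟨ml β0 (1 - 2 * s ^ 2, 2 * s), hb, ⟨1 + 2 * s ^ 2, hT, hnb⟩, ?_, ?_, ?_⟩
  · rw [hcp]
    intro hmem
    apply hcr 0 h0 _ hmem hne0.symm
    unfold cr cA
    ring
  · rw [hcp]
    exact hcr
  · intro p hp hp0 hpr hsq
    rw [hcp, nm_zz] at hsq
    have h1 := isSquare_of_div hT hsq
    have h2 : (LP (cp t β0) p).eval s ≠ 0 := by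
      intro h3
      have h4 := nm_zz (cp t β0) p s
      rw [h3, zero_div] at h4
      have h5 : zz (cp t β0) s - p = 0 := by
        by_contra h6
        exact (nm_pos two_pos' h6).ne' h4
      apply hpr
      rw [← sub_eq_zero.mp h5]
      exact hn
    exact hs2 p (by rw [Finset.mem_filter]; exact ⟨hp, hp0, hpr⟩) h2 h1

end Pool.Agent.Lib.MP_a24e3f_co.CC
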