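import Mathlib
import Pool.Agent.Lib.MP_a24e3f_co.Final
import Pool.Agent.Lib.MP_a24e3f_co.CC.Point
import Pool.Agent.Lib.MP_a24e3f_co.CC.Ext
import Pool.Agent.Lib.MP_a24e3f_co.CC.Classes

/-!
# Placing the vertices
-/

set_option autoImplicit false

namespace Pool.Agent.Lib.MP_a24e3f_co.CC

section

variable {V : Type} (G : SimpleGraph V) (C : Set V) (κ : V → ℕ) (τ : ℕ → Bool) (σ : V → Bool)

/-- representative of the square class of the core vertex `u` -/
def rep (u : V) : Pt := rp (κ u) (!(τ (κ u)) && σ u)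

theorem rep_ne (u : V) : rep κ τ σ u ≠ 0 := rp_ne _ _

/-- the point `p` is a correct place for the core vertex `u` -/
def CoreAt (u : V) (p : Pt) : Prop :=
  ∃ β : Pt, β ≠ 0 ∧ (∃ T : ℚ, T ≠ 0 ∧ nm 2 β = nm 2 (rep κ τ σ u) * T ^ 2) ∧
    p = cp (τ (κ u)) β

theorem CoreAt.nm {u : V} {p : Pt} (h : CoreAt κ τ σ u p) : nm 2 p = rad (τ (κ u)) := by
  obtain ⟨β, hβ, -, rfl⟩ := h
  exact nm_cp _ hβ

theorem CoreAt.ne {u : V} {p : Pt} (h : CoreAt κ τ σ u p) : p ≠ 0 := by
  intro h0
  have h1 := h.nm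
  rw [h0] at h1
  have h2 := rad_pos (τ (κ u))
  rw [← h1] at h2
  unfold MP_a24e3f_co.nm at h2
  simp at h2

theorem class_adj (u v : V) (huv : τ (κ u) = τ (κ v)) {β γ : Pt} {T T' : ℚ} (hT : T ≠ 0)
    (hT' : T' ≠ 0) (h1 : nm 2 β = nm 2 (rep κ τ σ u) * T ^ 2)
    (h2 : nm 2 γ = nm 2 (rep κ τ σ v) * T' ^ 2) :
    IsSquare ((if τ (κ u) = true then 1 else 2) * (nm 2 β * nm 2 γ)) ↔
      κ u = κ v ∧ (τ (κ u) = true ∨ σ u ≠ σ v) := by
  have e : (if τ (κ u) = true then (1 : ℚ) else 2) * (nm 2 β * nm 2 γ) =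
      (if τ (κ u) = true then 1 else 2) * (nm 2 (rep κ τ σ u) * nm 2 (rep κ τ σ v)) *
        (T * T') ^ 2 := by
    rw [h1, h2]
    ring
  rw [e, isSquare_mul_sq (mul_ne_zero hT hT')]
  unfold rep
  rw [← huv]
  cases ht : τ (κ u)
  · simp only [Bool.not_false, Bool.true_and, Bool.false_eq_true, if_false, false_or]
    exact cls_false _ _ _ _
  · simp only [Bool.not_true, Bool.false_and, if_true, true_or, and_true]
    exact cls_true _ _

/-- a correct placement of the vertices of `P` -/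
structure OK (P : Finset V) (f : V → Pt) : Prop where
  core : ∀ u ∈ P, u ∈ C → CoreAt κ τ σ u (f u)
  rest : ∀ u ∈ P, u ∉ C → f u ≠ 0 ∧ nm 2 (f u) ≠ 1 ∧ nm 2 (f u) ≠ 2
  inj : ∀ u ∈ P, ∀ v ∈ P, f u = f v → u = v
  gp : ∀ u ∈ P, ∀ v ∈ P, ∀ w ∈ P, u ≠ v → v ≠ w → u ≠ w → cr (f u) (f v) (f w) ≠ 0
  gp0 : ∀ u ∈ P, ∀ v ∈ P, u ≠ v → cr (f u) (f v) 0 ≠ 0
  adj : ∀ u ∈ P, ∀ v ∈ P, u ≠ v → (G.Adj u v ↔ IsSquare (nm 2 (f v - f u)))

variable {G C κ τ σ}

theorem OK.ne {P : Finset V} {f : V → Pt} (h : OK G C κ τ σ P f) : ∀ u ∈ P, f u ≠ 0 := by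
  intro u hu
  by_cases hC : u ∈ C
  · exact (h.core u hu hC).ne
  · exact (h.rest u hu hC).1

open Classical in
theorem OK.GP {P : Finset V} {f : V → Pt} (h : OK G C κ τ σ P f) :
    GP (insert 0 (P.image f)) := by
  apply GP_insert
  · intro x hx y hy z hz hxy hyz hxz
    obtain ⟨a, ha, rfl⟩ := Finset.mem_image.mp hx
    obtain ⟨b, hb, rfl⟩ := Finset.mem_image.mp hy
    obtain ⟨c, hc, rfl⟩ := Finset.mem_image.mp hz
    exact h.gp a ha b hb c hc (fun h => hxy (by rw [h])) (fun h => hyz (by rw [h]))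
      (fun h => hxz (by rw [h]))
  · intro x hx y hy hxy
    obtain ⟨a, ha, rfl⟩ := Finset.mem_image.mp hx
    obtain ⟨b, hb, rfl⟩ := Finset.mem_image.mp hy
    exact h.gp0 a ha b hb (fun h => hxy (by rw [h]))

open Classical in
/-- adding one vertex -/
theorem OK.add {P : Finset V} {f : V → Pt} (h : OK G C κ τ σ P f) {v : V} (hv : v ∉ P) (z : Pt)
    (hz : z ∉ insert 0 (P.image f))
    (hcr : ∀ x ∈ insert 0 (P.image f), ∀ y ∈ insert 0 (P.image f), x ≠ y → cr x y z ≠ 0)
    (hadj : ∀ u ∈ P, (G.Adj u v ↔ IsSquare (nm 2 (z - f u))))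
    (hcore : v ∈ C → CoreAt κ τ σ v z)
    (hrest : v ∉ C → z ≠ 0 ∧ nm 2 z ≠ 1 ∧ nm 2 z ≠ 2) :
    OK G C κ τ σ (insert v P) (Function.update f v z) := by
  have hfv : Function.update f v z v = z := Function.update_self _ _ _
  have hfu : ∀ u ∈ P, Function.update f v z u = f u := by
    intro u hu
    apply Function.update_of_ne
    rintro rfl
    exact hv hu
  have hmem : ∀ u ∈ P, f u ∈ insert 0 (P.image f) := fun u hu =>
    Finset.mem_insert_of_mem (Finset.mem_image_of_mem f hu)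
  have hne : ∀ x ∈ P, ∀ y ∈ P, x ≠ y → cr (f x) (f y) z ≠ 0 := fun x hx y hy hxy =>
    hcr _ (hmem x hx) _ (hmem y hy) (fun h' => hxy (h.inj x hx y hy h'))
  have hne0 : ∀ x ∈ P, cr (f x) z 0 ≠ 0 := by
    intro x hx
    rw [← cr_rot, ← cr_rot]
    exact hcr _ (Finset.mem_insert_self _ _) _ (hmem x hx) (h.ne x hx).symm
  constructor
  · intro u hu hC
    rcases Finset.mem_insert.mp hu with rfl | hu'
    · rw [hfv]; exact hcore hC
    · rw [hfu u hu']; exact h.core u hu' hC
  · intro u hu hC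
    rcases Finset.mem_insert.mp hu with rfl | hu'
    · rw [hfv]; exact hrest hC
    · rw [hfu u hu']; exact h.rest u hu' hC
  · intro u hu w hw heq
    rcases Finset.mem_insert.mp hu with rfl | hu'
    · rcases Finset.mem_insert.mp hw with rfl | hw'
      · rfl
      · rw [hfv, hfu w hw'] at heq
        exact absurd (heq ▸ hmem w hw') hz
    · rcases Finset.mem_insert.mp hw with rfl | hw'
      · rw [hfv, hfu u hu'] at heq
        exact absurd (heq ▸ hmem u hu') hz
      · rw [hfu u hu', hfu w hw'] at heq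
        exact h.inj u hu' w hw' heq
  · intro a ha b hb c hc hab hbc hac
    rcases Finset.mem_insert.mp ha with rfl | ha'
    · rcases Finset.mem_insert.mp hb with rfl | hb'
      · exact absurd rfl hab
      · rcases Finset.mem_insert.mp hc with rfl | hc'
        · exact absurd rfl hac
        · rw [hfv, hfu b hb', hfu c hc', ← cr_rot]
          exact hne b hb' c hc' hbc
    · rcases Finset.mem_insert.mp hb with rfl | hb'
      · rcases Finset.mem_insert.mp hc with rfl | hc'
        · exact absurd rfl hbc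
        · rw [hfv, hfu a ha', hfu c hc', ← cr_rot, ← cr_rot]
          exact hne c hc' a ha' hac.symm
      · rcases Finset.mem_insert.mp hc with rfl | hc'
        · rw [hfv, hfu a ha', hfu b hb']
          exact hne a ha' b hb' hab
        · rw [hfu a ha', hfu b hb', hfu c hc']
          exact h.gp a ha' b hb' c hc' hab hbc hac
  · intro a ha b hb hab
    rcases Finset.mem_insert.mp ha with rfl | ha'
    · rcases Finset.mem_insert.mp hb with rfl | hb'
      · exact absurd rfl hab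
      · rw [hfv, hfu b hb', ← cr_rot]
        exact hcr _ (hmem b hb') _ (Finset.mem_insert_self _ _) (h.ne b hb')
    · rcases Finset.mem_insert.mp hb with rfl | hb'
      · rw [hfv, hfu a ha']
        exact hne0 a ha'
      · rw [hfu a ha', hfu b hb']
        exact h.gp0 a ha' b hb' hab
  · intro a ha b hb hab
    rcases Finset.mem_insert.mp ha with rfl | ha'
    · rcases Finset.mem_insert.mp hb with rfl | hb'
      · exact absurd rfl hab
      · rw [hfv, hfu b hb', nm_sub_comm, G.adj_comm]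
        exact hadj b hb'
    · rcases Finset.mem_insert.mp hb with rfl | hb'
      · rw [hfv, hfu a ha']
        exact hadj a ha'
      · rw [hfu a ha', hfu b hb']
        exact h.adj a ha' b hb' hab

open Classical in
/-- adding a core vertex -/
theorem OK.addC {P : Finset V} {f : V → Pt} (h : OK G C κ τ σ P f)
    (hC : ∀ u ∈ C, ∀ v ∈ C, u ≠ v →
      (G.Adj u v ↔ κ u = κ v ∧ (τ (κ u) = true ∨ σ u ≠ σ v)))
    {v : V} (hv : v ∉ P) (hvC : v ∈ C) (hna : ∀ u ∈ P, u ∉ C → ¬ G.Adj u v) :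
    ∃ z, OK G C κ τ σ (insert v P) (Function.update f v z) := by
  obtain ⟨β, hβ, ⟨T, hT, hn⟩, h1, h2, h3⟩ := core_point (τ (κ v)) (rep κ τ σ v) (rep_ne κ τ σ v)
    (insert 0 (P.image f)) (Finset.mem_insert_self _ _)
  have hmem : ∀ u ∈ P, f u ∈ insert 0 (P.image f) := fun u hu =>
    Finset.mem_insert_of_mem (Finset.mem_image_of_mem f hu)
  refine ⟨cp (τ (κ v)) β, h.add hv _ h1 h2 ?_ (fun _ => ⟨β, hβ, ⟨T, hT, hn⟩, rfl⟩)
    (fun h' => absurd hvC h')⟩
  intro u hu
  have huv : u ≠ v := by rintro rfl; exact hv hu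
  by_cases huC : u ∈ C
  · have hcu := h.core u hu huC
    obtain ⟨γ, hγ, ⟨T', hT', hn'⟩, hfu⟩ := h.core u hu huC
    rw [hC u huC v hvC huv]
    by_cases ht : τ (κ u) = τ (κ v)
    · have hne : cp (τ (κ v)) β ≠ cp (τ (κ v)) γ := by
        intro heq
        apply h1
        rw [heq, ← ht, ← hfu]
        exact hmem u hu
      rw [hfu, ht, sq_cp _ hβ hγ hne, class_adj κ τ σ v u ht.symm hT hT' hn hn']
      constructor
      · rintro ⟨a, b⟩
        exact ⟨a.symm, b.imp id Ne.symm⟩
      · rintro ⟨a, b⟩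
        exact ⟨a.symm, b.imp id Ne.symm⟩
    · constructor
      · rintro ⟨a, -⟩
        exact absurd (congrArg τ a) ht
      · intro hsq
        refine absurd hsq (h3 (f u) (hmem u hu) hcu.ne ?_)
        rw [hcu.nm]
        intro hr
        apply ht
        revert hr
        cases τ (κ u) <;> cases τ (κ v) <;> simp [rad]
  · constructor
    · intro ha
      exact absurd ha (hna u hu huC)
    · intro hsq
      obtain ⟨r1, r2, r3⟩ := h.rest u hu huC
      refine absurd hsq (h3 (f u) (hmem u hu) r1 ?_)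
      cases τ (κ v)
      · simpa [rad] using r2
      · simpa [rad] using r3

open Classical in
/-- adding a vertex outside of the core -/
theorem OK.addR {P : Finset V} {f : V → Pt} (h : OK G C κ τ σ P f)
    {v : V} (hv : v ∉ P) (hvC : v ∉ C) (hcard : (P.filter (fun u => G.Adj u v)).card ≤ 3) :
    ∃ z, OK G C κ τ σ (insert v P) (Function.update f v z) := by
  have hmem : ∀ u ∈ P, f u ∈ insert 0 (P.image f) := fun u hu =>
    Finset.mem_insert_of_mem (Finset.mem_image_of_mem f hu)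
  have hB0 : (0 : Pt) ∉ (P.filter (fun u => G.Adj u v)).image f := by
    intro h0
    obtain ⟨u, hu, hu0⟩ := Finset.mem_image.mp h0
    exact h.ne u (Finset.mem_filter.mp hu).1 hu0
  have hc : ((P.filter (fun u => G.Adj u v)).image f).card ≤ 3 := Finset.card_image_le.trans hcard
  obtain ⟨z, h1, h2, h3, h4⟩ := extend' two_pos' 2
    (3 - ((P.filter (fun u => G.Adj u v)).image f).card) (insert 0 (P.image f)) h.GP
    (Finset.mem_insert_self _ _) ((P.filter (fun u => G.Adj u v)).image f)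
    ((Finset.image_subset_image (Finset.filter_subset _ _)).trans (Finset.subset_insert _ _))
    hB0 (by omega)
  refine ⟨z, h.add hv z h1 h2 ?_ (fun h' => absurd h' hvC) ?_⟩
  · intro u hu
    rw [h3 (f u) (hmem u hu), Finset.mem_image]
    constructor
    · intro ha
      exact ⟨u, Finset.mem_filter.mpr ⟨hu, ha⟩, rfl⟩
    · rintro ⟨u', hu', heq⟩
      rw [Finset.mem_filter] at hu'
      rw [← h.inj u' hu'.1 u hu heq]
      exact hu'.2
  · intro _
    refine ⟨?_, ?_, h4⟩
    · rintro rfl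
      exact h1 (Finset.mem_insert_self _ _)
    · intro hn
      have h5 := (h3 0 (Finset.mem_insert_self _ _)).mp (by
        rw [sub_zero, hn]
        exact IsSquare.one)
      exact hB0 h5

end

end Pool.Agent.Lib.MP_a24e3f_co.CC
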