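import Mathlib
import Pool.Agent.Lib.MP_a24e3f_co.CC.Place

/-!
# Graphs built from a core of complete and complete bipartite graphs
-/

set_option autoImplicit false

namespace Pool.Agent.Lib.MP_a24e3f_co.CC

section

variable {V : Type} {G : SimpleGraph V} {C : Set V} {κ : V → ℕ} {τ : ℕ → Bool} {σ : V → Bool}

open Classical in
/-- adding finitely many core vertices -/
theorem OK.addCs (hC : ∀ u ∈ C, ∀ v ∈ C, u ≠ v →
      (G.Adj u v ↔ κ u = κ v ∧ (τ (κ u) = true ∨ σ u ≠ σ v)))
    {P : Finset V} {f : V → Pt} (h : OK G C κ τ σ P f)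
    (hcl : ∀ v ∈ P, v ∉ C → ∀ u ∈ C, G.Adj u v → u ∈ P)
    (N : Finset V) (hN : ∀ u ∈ N, u ∈ C) :
    ∃ f' : V → Pt, OK G C κ τ σ (P ∪ N) f' ∧ ∀ u ∈ P, f' u = f u := by
  induction N using Finset.induction_on with
  | empty => exact ⟨f, by simpa using h, fun _ _ => rfl⟩
  | insert a N ha ih =>
    obtain ⟨f', hf', hfu⟩ := ih (fun u hu => hN u (Finset.mem_insert_of_mem hu))
    by_cases haP : a ∈ P ∪ N
    · have e : P ∪ insert a N = P ∪ N := by
        rw [Finset.union_insert, Finset.insert_eq_of_mem haP]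
      rw [e]
      exact ⟨f', hf', hfu⟩
    · have haC := hN a (Finset.mem_insert_self _ _)
      obtain ⟨z, hz⟩ := hf'.addC hC haP haC (by
        intro u hu huC hadj
        have huP : u ∈ P := by
          rcases Finset.mem_union.mp hu with h1 | h1
          · exact h1
          · exact absurd (hN u (Finset.mem_insert_of_mem h1)) huC
        exact haP (Finset.mem_union_left _ (hcl u huP huC a haC hadj.symm)))
      refine ⟨Function.update f' a z, ?_, ?_⟩
      · rw [Finset.union_insert]
        exact hz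
      · intro u hu
        rw [Function.update_of_ne]
        · exact hfu u hu
        · rintro rfl
          exact haP (Finset.mem_union_left _ hu)

variable (G C κ τ σ)

/-- the state before stage `n` -/
structure St (e : V → ℕ) (n : ℕ) (P : Finset V) (f : V → Pt) : Prop where
  ok : OK G C κ τ σ P f
  cl : ∀ v ∈ P, v ∉ C → ∀ u ∈ C, G.Adj u v → u ∈ P
  lt : ∀ v ∈ P, v ∉ C → e v < n
  all : ∀ v, e v < n → v ∈ P

variable {G C κ τ σ}

open Classical in
theorem St.step {e : V → ℕ} (he : Function.Injective e)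
    (hC : ∀ u ∈ C, ∀ v ∈ C, u ≠ v →
      (G.Adj u v ↔ κ u = κ v ∧ (τ (κ u) = true ∨ σ u ≠ σ v)))
    (hdeg : ∀ v, v ∉ C → {u | G.Adj u v ∧ (u ∈ C ∨ e u < e v)}.encard ≤ 3)
    {n : ℕ} {P : Finset V} {f : V → Pt} (h : St G C κ τ σ e n P f) :
    ∃ p : Finset V × (V → Pt), St G C κ τ σ e (n + 1) p.1 p.2 ∧ P ⊆ p.1 ∧
      ∀ u ∈ P, p.2 u = f u := by
  by_cases hv : ∃ v, e v = n
  · obtain ⟨v, hvn⟩ := hv
    have hall : ∀ w, e w < n + 1 → w = v ∨ w ∈ P := by
      intro w hw
      rcases Nat.lt_succ_iff_lt_or_eq.mp hw with h1 | h1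
      · exact Or.inr (h.all w h1)
      · exact Or.inl (he (h1.trans hvn.symm))
    by_cases hvC : v ∈ C
    · by_cases hvP : v ∈ P
      · refine ⟨(P, f), ⟨h.ok, h.cl, fun w hw hwC => (h.lt w hw hwC).trans (Nat.lt_succ_self n),
          ?_⟩, Finset.Subset.refl _, fun _ _ => rfl⟩
        intro w hw
        rcases hall w hw with rfl | h1
        · exact hvP
        · exact h1
      · obtain ⟨z, hz⟩ := h.ok.addC hC hvP hvC (by
          intro u hu huC hadj
          exact hvP (h.cl u hu huC v hvC hadj.symm))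
        refine ⟨(insert v P, Function.update f v z), ⟨hz, ?_, ?_, ?_⟩, Finset.subset_insert _ _,
          ?_⟩
        · intro w hw hwC u huC hadj
          rcases Finset.mem_insert.mp hw with h1 | h1
          · exact absurd (h1 ▸ hvC) hwC
          · exact Finset.mem_insert_of_mem (h.cl w h1 hwC u huC hadj)
        · intro w hw hwC
          rcases Finset.mem_insert.mp hw with h1 | h1
          · exact absurd (h1 ▸ hvC) hwC
          · exact (h.lt w h1 hwC).trans (Nat.lt_succ_self n)
        · intro w hw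
          rcases hall w hw with h1 | h1
          · rw [h1]; exact Finset.mem_insert_self _ _
          · exact Finset.mem_insert_of_mem h1
        · intro u hu
          show Function.update f v z u = f u
          apply Function.update_of_ne
          rintro rfl
          exact hvP hu
    · have hvP : v ∉ P := by
        intro h1
        have := h.lt v h1 hvC
        omega
      have hfin : {u | G.Adj u v ∧ (u ∈ C ∨ e u < e v)}.Finite :=
        Set.finite_of_encard_le_coe (k := 3) (hdeg v hvC)
      have hfin2 : {u | u ∈ C ∧ G.Adj u v}.Finite :=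
        hfin.subset (fun u hu => ⟨hu.2, Or.inl hu.1⟩)
      have memN : ∀ u, u ∈ hfin2.toFinset ↔ u ∈ C ∧ G.Adj u v := by
        intro u
        rw [Set.Finite.mem_toFinset]
        exact Iff.rfl
      obtain ⟨f1, hf1, hf1u⟩ := h.ok.addCs hC h.cl hfin2.toFinset (fun u hu => ((memN u).mp hu).1)
      have hvPN : v ∉ P ∪ hfin2.toFinset := by
        rw [Finset.mem_union, not_or]
        exact ⟨hvP, fun h1 => hvC ((memN v).mp h1).1⟩
      have hcard : ((P ∪ hfin2.toFinset).filter (fun u => G.Adj u v)).card ≤ 3 := by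
        have h1 : (((P ∪ hfin2.toFinset).filter (fun u => G.Adj u v) : Finset V) : Set V) ⊆
            {u | G.Adj u v ∧ (u ∈ C ∨ e u < e v)} := by
          intro u hu
          rw [Finset.mem_coe, Finset.mem_filter, Finset.mem_union] at hu
          refine ⟨hu.2, ?_⟩
          by_cases huC : u ∈ C
          · exact Or.inl huC
          · right
            rcases hu.1 with h2 | h2
            · rw [hvn]; exact h.lt u h2 huC
            · exact absurd ((memN u).mp h2).1 huC
        have h2 := (Set.encard_le_encard h1).trans (hdeg v hvC)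
        rw [Set.encard_coe_eq_coe_finsetCard] at h2
        exact_mod_cast h2
      obtain ⟨z, hz⟩ := hf1.addR hvPN hvC hcard
      have hfv : ∀ u ∈ P, Function.update f1 v z u = f u := by
        intro u hu
        rw [Function.update_of_ne]
        · exact hf1u u hu
        · rintro rfl
          exact hvP hu
      refine ⟨(insert v (P ∪ hfin2.toFinset), Function.update f1 v z), ⟨hz, ?_, ?_, ?_⟩, ?_,
        hfv⟩
      · intro w hw hwC u huC hadj
        rcases Finset.mem_insert.mp hw with h1 | h1
        · subst h1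
          exact Finset.mem_insert_of_mem (Finset.mem_union_right _ ((memN u).mpr ⟨huC, hadj⟩))
        · rcases Finset.mem_union.mp h1 with h2 | h2
          · exact Finset.mem_insert_of_mem (Finset.mem_union_left _ (h.cl w h2 hwC u huC hadj))
          · exact absurd ((memN w).mp h2).1 hwC
      · intro w hw hwC
        rcases Finset.mem_insert.mp hw with h1 | h1
        · rw [h1, hvn]; exact Nat.lt_succ_self n
        · rcases Finset.mem_union.mp h1 with h2 | h2
          · exact (h.lt w h2 hwC).trans (Nat.lt_succ_self n)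
          · exact absurd ((memN w).mp h2).1 hwC
      · intro w hw
        rcases hall w hw with h1 | h1
        · rw [h1]; exact Finset.mem_insert_self _ _
        · exact Finset.mem_insert_of_mem (Finset.mem_union_left _ h1)
      · intro u hu
        exact Finset.mem_insert_of_mem (Finset.mem_union_left _ hu)
  · refine ⟨(P, f), ⟨h.ok, h.cl, fun w hw hwC => (h.lt w hw hwC).trans (Nat.lt_succ_self n),
      ?_⟩, Finset.Subset.refl _, fun _ _ => rfl⟩
    intro w hw
    rcases Nat.lt_succ_iff_lt_or_eq.mp hw with h1 | h1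
    · exact h.all w h1
    · exact absurd ⟨w, h1⟩ hv

theorem St.zero (e : V → ℕ) : St G C κ τ σ e 0 ∅ (fun _ => 0) := by
  refine ⟨⟨?_, ?_, ?_, ?_, ?_, ?_⟩, ?_, ?_, ?_⟩
  · intro u hu; exact absurd hu (Finset.notMem_empty u)
  · intro u hu; exact absurd hu (Finset.notMem_empty u)
  · intro u hu; exact absurd hu (Finset.notMem_empty u)
  · intro u hu; exact absurd hu (Finset.notMem_empty u)
  · intro u hu; exact absurd hu (Finset.notMem_empty u)
  · intro u hu; exact absurd hu (Finset.notMem_empty u)
  · intro u hu; exact absurd hu (Finset.notMem_empty u)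
  · intro u hu; exact absurd hu (Finset.notMem_empty u)
  · intro v hv; exact absurd hv (Nat.not_lt_zero _)

/-- the whole placement -/
theorem build2 {e : V → ℕ} (he : Function.Injective e)
    (hC : ∀ u ∈ C, ∀ v ∈ C, u ≠ v →
      (G.Adj u v ↔ κ u = κ v ∧ (τ (κ u) = true ∨ σ u ≠ σ v)))
    (hdeg : ∀ v, v ∉ C → {u | G.Adj u v ∧ (u ∈ C ∨ e u < e v)}.encard ≤ 3) :
    ∃ f : V → Pt, Function.Injective f ∧
      (∀ u v w, u ≠ v → v ≠ w → u ≠ w → cr (f u) (f v) (f w) ≠ 0) ∧
      ∀ u v, u ≠ v → (G.Adj u v ↔ IsSquare (nm 2 (f v - f u))) := by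
  classical
  let F : ∀ n : ℕ, {p : Finset V × (V → Pt) // St G C κ τ σ e n p.1 p.2} := fun n =>
    Nat.rec ⟨(∅, fun _ => 0), St.zero e⟩
      (fun n p => ⟨Classical.choose (St.step he hC hdeg p.2),
        (Classical.choose_spec (St.step he hC hdeg p.2)).1⟩) n
  have hF : ∀ n, (F n).1.1 ⊆ (F (n + 1)).1.1 ∧
      ∀ u ∈ (F n).1.1, (F (n + 1)).1.2 u = (F n).1.2 u := fun n =>
    (Classical.choose_spec (St.step he hC hdeg (F n).2)).2
  have hmono : ∀ n m, n ≤ m → (F n).1.1 ⊆ (F m).1.1 ∧
      ∀ u ∈ (F n).1.1, (F m).1.2 u = (F n).1.2 u := by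
    intro n m hnm
    induction m, hnm using Nat.le_induction with
    | base => exact ⟨Finset.Subset.refl _, fun _ _ => rfl⟩
    | succ m hm ih =>
      refine ⟨ih.1.trans (hF m).1, ?_⟩
      intro u hu
      rw [(hF m).2 u (ih.1 hu), ih.2 u hu]
  let f : V → Pt := fun u => (F (e u + 1)).1.2 u
  have hmem : ∀ u n, e u < n → u ∈ (F n).1.1 := fun u n h => (F n).2.all u h
  have hf : ∀ u n, e u < n → (F n).1.2 u = f u := by
    intro u n h
    exact (hmono (e u + 1) n h).2 u (hmem u _ (Nat.lt_succ_self _))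
  refine ⟨f, ?_, ?_, ?_⟩
  · intro u v h
    have hu : e u < max (e u) (e v) + 1 := by omega
    have hv : e v < max (e u) (e v) + 1 := by omega
    apply (F (max (e u) (e v) + 1)).2.ok.inj u (hmem _ _ hu) v (hmem _ _ hv)
    rw [hf u _ hu, hf v _ hv]
    exact h
  · intro u v w huv hvw huw
    have hu : e u < max (e u) (max (e v) (e w)) + 1 := by omega
    have hv : e v < max (e u) (max (e v) (e w)) + 1 := by omega
    have hw : e w < max (e u) (max (e v) (e w)) + 1 := by omega
    have := (F (max (e u) (max (e v) (e w)) + 1)).2.ok.gp u (hmem _ _ hu) v (hmem _ _ hv) w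
      (hmem _ _ hw) huv hvw huw
    rwa [hf u _ hu, hf v _ hv, hf w _ hw] at this
  · intro u v huv
    have hu : e u < max (e u) (e v) + 1 := by omega
    have hv : e v < max (e u) (e v) + 1 := by omega
    have := (F (max (e u) (e v) + 1)).2.ok.adj u (hmem _ _ hu) v (hmem _ _ hv) huv
    rwa [hf u _ hu, hf v _ hv] at this

end

/-- Main theorem. -/
theorem main2 {V : Type} (G : SimpleGraph V) (e : V → ℕ) (he : Function.Injective e) (C : Set V)
    (κ : V → ℕ) (τ : ℕ → Bool) (σ : V → Bool)
    (hC : ∀ u ∈ C, ∀ v ∈ C, u ≠ v →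
      (G.Adj u v ↔ κ u = κ v ∧ (τ (κ u) = true ∨ σ u ≠ σ v)))
    (hdeg : ∀ v, v ∉ C → {u | G.Adj u v ∧ (u ∈ C ∨ e u < e v)}.encard ≤ 3) :
    ∃ f : V → Plane, IsRationalRep G f := by
  obtain ⟨f, hf2, hf3, hf4⟩ := build2 he hC hdeg
  refine ⟨fun u => place 2 (f u), ⟨?_, ?_, ?_⟩⟩
  · exact (place_injective two_pos').comp hf2
  · intro u v w huv hvw huw
    rw [collinear_place_iff two_pos' (fun h => huv (hf2 h))]
    exact hf3 u v w huv hvw huw
  · intro u v huv
    rw [rat_dist_iff two_pos', nm_sub_comm]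
    exact hf4 u v huv

end Pool.Agent.Lib.MP_a24e3f_co.CC
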