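import Mathlib
import Pool.Agent.Lib.MP_a24e3f_co.CC.Main
import Pool.Agent.Lib.MP_a24e3f_co.CC.Motion
import Pool.Agent.Lib.MP_a24e3f_co.CC.Blocks

/-!
# A countable graph all of whose blocks are rational graphs is a rational graph
-/

set_option autoImplicit false

namespace Pool.Agent.Lib.MP_a24e3f_co.CC

/-- The graph `G` has a core: there are a set `C` of vertices such that every connected component
of the graph induced on `C` is a complete graph or a complete bipartite graph (`κ` labels the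
components, `τ` says which of them are complete, and `σ` gives the two sides of the others), and
an enumeration `e` of the vertices of `G` such that every vertex outside `C` has at most three
neighbours which are in `C` or come before it. All the sets may be infinite. -/
def HasCore {V : Type} (G : SimpleGraph V) : Prop :=
  ∃ (e : V → ℕ) (C : Set V) (κ : V → ℕ) (τ : ℕ → Bool) (σ : V → Bool),
    Function.Injective e ∧
    (∀ u ∈ C, ∀ v ∈ C, u ≠ v → (G.Adj u v ↔ κ u = κ v ∧ (τ (κ u) = true ∨ σ u ≠ σ v))) ∧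
    ∀ v, v ∉ C → {u | G.Adj u v ∧ (u ∈ C ∨ e u < e v)}.encard ≤ 3

theorem HasCore.rep {V : Type} {G : SimpleGraph V} (h : HasCore G) :
    ∃ f : V → Plane, IsRationalRep G f := by
  obtain ⟨e, C, κ, τ, σ, he, hC, hdeg⟩ := h
  exact main2 G e he C κ τ σ hC hdeg

section

variable {V : Type} {G : SimpleGraph V}

/-- partial representations on closed sets of vertices -/
def T (G : SimpleGraph V) : Type :=
  {p : Set V × (V → Plane) // Cl G p.1 ∧ RepOn G p.1 p.2}

/-- extension -/
def ex (p q : T G) : Prop := p.1.1 ⊆ q.1.1 ∧ ∀ a ∈ p.1.1, q.1.2 a = p.1.2 a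

theorem repOn_empty (h : V → Plane) : RepOn G ∅ h :=
  ⟨fun u hu => absurd hu (Set.notMem_empty u), fun u hu => absurd hu (Set.notMem_empty u),
    fun u hu => absurd hu (Set.notMem_empty u)⟩

theorem repOn_singleton (x : V) (h : V → Plane) : RepOn G {x} h := by
  refine ⟨?_, ?_, ?_⟩
  · intro u hu v hv _
    rw [Set.mem_singleton_iff] at hu hv
    rw [hu, hv]
  · intro u hu v hv w _ huv
    rw [Set.mem_singleton_iff] at hu hv
    exact absurd (hu.trans hv.symm) huv
  · intro u hu v hv huv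
    rw [Set.mem_singleton_iff] at hu hv
    exact absurd (hu.trans hv.symm) huv

theorem cl_empty : Cl G (∅ : Set V) :=
  fun _ _ _ _ _ a ha => absurd ha (Set.notMem_empty a)

theorem chain_ub (c : Set (T G)) (hc : IsChain ex c) : ∃ ub : T G, ∀ a ∈ c, ex a ub := by
  classical
  let A : Set V := {v | ∃ p ∈ c, v ∈ p.1.1}
  have two : ∀ p ∈ c, ∀ q ∈ c, ex p q ∨ ex q p := by
    intro p hp q hq
    by_cases h : p = q
    · subst h
      exact Or.inl ⟨subset_rfl, fun _ _ => rfl⟩
    · exact hc hp hq h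
  let h : V → Plane := fun v => if hv : ∃ p ∈ c, v ∈ p.1.1 then (Classical.choose hv).1.2 v else 0
  have hh : ∀ p ∈ c, ∀ v ∈ p.1.1, h v = p.1.2 v := by
    intro p hp v hv
    have hex : ∃ p ∈ c, v ∈ p.1.1 := ⟨p, hp, hv⟩
    have h1 : h v = (Classical.choose hex).1.2 v := dif_pos hex
    obtain ⟨h2, h3⟩ := Classical.choose_spec hex
    rw [h1]
    rcases two _ hp _ h2 with h4 | h4
    · exact h4.2 v hv
    · exact (h4.2 v h3).symm
  have three : ∀ u ∈ A, ∀ v ∈ A, ∀ w ∈ A, ∃ p ∈ c, u ∈ p.1.1 ∧ v ∈ p.1.1 ∧ w ∈ p.1.1 := by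
    rintro u ⟨p, hp, hu⟩ v ⟨q, hq, hv⟩ w ⟨r, hr, hw⟩
    have h1 : ∃ s ∈ c, u ∈ s.1.1 ∧ v ∈ s.1.1 := by
      rcases two p hp q hq with h | h
      · exact ⟨q, hq, h.1 hu, hv⟩
      · exact ⟨p, hp, hu, h.1 hv⟩
    obtain ⟨s, hs, hus, hvs⟩ := h1
    rcases two s hs r hr with h | h
    · exact ⟨r, hr, h.1 hus, h.1 hvs, hw⟩
    · exact ⟨s, hs, hus, hvs, h.1 hw⟩
  have hsub : ∀ p ∈ c, p.1.1 ⊆ A := fun p hp v hv => ⟨p, hp, hv⟩
  refine ⟨⟨(A, h), ?_, ?_, ?_, ?_⟩, fun p hp => ⟨hsub p hp, fun a ha => hh p hp a ha⟩⟩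
  · intro u v hu hv huv a ha b hb hau hvb
    obtain ⟨p, hp, hap, hbp, _⟩ := three a ha b hb b hb
    have hle : Aᶜ ⊆ (p.1.1)ᶜ := Set.compl_subset_compl.mpr (hsub p hp)
    exact p.2.1 u v (fun h' => hu (hsub p hp h')) (fun h' => hv (hsub p hp h'))
      (huv.mono hle) a hap b hbp hau hvb
  · intro u hu v hv heq
    obtain ⟨p, hp, hup, hvp, _⟩ := three u hu v hv v hv
    have heq' : h u = h v := heq
    rw [hh p hp u hup, hh p hp v hvp] at heq'
    exact p.2.2.inj u hup v hvp heq'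
  · intro u hu v hv w hw huv hvw huw
    obtain ⟨p, hp, hup, hvp, hwp⟩ := three u hu v hv w hw
    show ar (h u) (h v) (h w) ≠ 0
    rw [hh p hp u hup, hh p hp v hvp, hh p hp w hwp]
    exact p.2.2.col u hup v hvp w hwp huv hvw huw
  · intro u hu v hv huv
    obtain ⟨p, hp, hup, hvp, _⟩ := three u hu v hv v hv
    show _ ↔ ∃ q : ℚ, dist (h u) (h v) = (q : ℝ)
    rw [hh p hp u hup, hh p hp v hvp]
    exact p.2.2.adj u hup v hvp huv

/-- **If every block of the countable graph `G` is a rational graph, then so is `G`.** -/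
theorem of_blocks [Countable V] (G : SimpleGraph V)
    (hG : ∀ B, IsBlock G B → ∃ f : B → Plane, IsRationalRep (G.induce B) f) :
    ∃ f : V → Plane, IsRationalRep G f := by
  obtain ⟨m, hm⟩ := exists_maximal_of_chains_bounded (r := (ex : T G → T G → Prop)) chain_ub
    (fun {a b c} hab hbc => ⟨hab.1.trans hbc.1, fun v hv => (hbc.2 v (hab.1 hv)).trans (hab.2 v hv)⟩)
  obtain ⟨⟨A, h⟩, hA, hh⟩ := m
  have hA' : Cl G A := hA
  have hh' : RepOn G A h := hh
  -- any extension is trivial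
  have triv : ∀ A' : Set V, Cl G A' → A ⊆ A' → (∃ h', RepOn G A' h' ∧ ∀ a ∈ A, h' a = h a) →
      A' ⊆ A := by
    rintro A' hcl hsub ⟨h', h1, h2⟩
    exact (hm ⟨(A', h'), hcl, h1⟩ ⟨hsub, h2⟩).1
  have huniv : A = Set.univ := by
    by_contra hne
    by_cases hed : ∃ a ∈ A, ∃ y, y ∉ A ∧ G.Adj a y
    · obtain ⟨a, haA, y, hyA, hay⟩ := hed
      obtain ⟨B, hB, haB, hyB⟩ := block_of_edge hay
      obtain ⟨f, hf⟩ := hG B hB
      obtain ⟨g, hg⟩ := RepOn.of_induce hf
      have h1 : (A ∩ B).Subsingleton := by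
        intro z hz z' hz'
        rw [inter_eq hA' hB haA hyA hay hyB hz.1 hz.2, inter_eq hA' hB haA hyA hay hyB hz'.1 hz'.2]
      have h2 := glue_step hh' hg
        (fun a' ha' ha'B b hb hbA => no_edge hA' hB haA hyA hay haB hyB ha' ha'B hb hbA) h1
      exact hyA (triv (A ∪ B) (cl_union hA' hB haA hyA hay haB hyB) Set.subset_union_left h2
        (Or.inr hyB))
    · push Not at hed
      obtain ⟨x, hx⟩ := (Set.ne_univ_iff_exists_notMem A).mp hne
      have hno : ∀ a ∈ A, ∀ b, b ∉ A → ¬ G.Adj a b := hed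
      have h1 : (A ∩ {x}).Subsingleton := Set.subsingleton_singleton.anti Set.inter_subset_right
      have h2 := glue_step hh' (repOn_singleton x (fun _ => 0))
        (fun a' ha' _ b _ hbA => hno a' ha' b hbA) h1
      exact hx (triv (A ∪ {x}) (cl_insert hno x) Set.subset_union_left h2 (Or.inr rfl))
  subst huniv
  exact ⟨h, hh'.toRep⟩

/-- blocks with a core or rational -/
theorem of_blocks' [Countable V] (G : SimpleGraph V)
    (hG : ∀ B, IsBlock G B → HasCore (G.induce B) ∨
      ∃ f : B → Plane, IsRationalRep (G.induce B) f) :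
    ∃ f : V → Plane, IsRationalRep G f := by
  refine of_blocks G (fun B hB => ?_)
  rcases hG B hB with h | h
  · exact h.rep
  · exact h

end

end Pool.Agent.Lib.MP_a24e3f_co.CC
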