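import Mathlib
import Pool.Agent.Lib.MP_a24e3f_co.CC.Box

/-!
# Infinite rational sets on the circles of integer radius
-/

set_option autoImplicit false

namespace Pool.Agent.Lib.MP_a24e3f_co.CC

/-- the point of the circle of radius `ρ` with parameter `t` -/
noncomputable def ck (ρ t : ℝ) : Plane :=
  !₂[ρ * (((1 - t ^ 2) ^ 2 - 4 * t ^ 2) / (1 + t ^ 2) ^ 2),
    ρ * (4 * t * (1 - t ^ 2) / (1 + t ^ 2) ^ 2)]

theorem ck_0 (ρ t : ℝ) : ck ρ t 0 = ρ * (((1 - t ^ 2) ^ 2 - 4 * t ^ 2) / (1 + t ^ 2) ^ 2) := by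
  simp [ck]
theorem ck_1 (ρ t : ℝ) : ck ρ t 1 = ρ * (4 * t * (1 - t ^ 2) / (1 + t ^ 2) ^ 2) := by
  simp [ck]

theorem sd_ck (ρ t u : ℝ) : sd (ck ρ t) (ck ρ u) =
    (ρ * (4 * (t - u) * (1 + t * u) / ((1 + t ^ 2) * (1 + u ^ 2)))) ^ 2 := by
  have h1 : (1 + t ^ 2) ≠ 0 := by positivity
  have h2 : (1 + u ^ 2) ≠ 0 := by positivity
  unfold sd
  rw [ck_0, ck_0, ck_1, ck_1]
  field_simp
  ring

theorem ar_ck (ρ t u v : ℝ) : ar (ck ρ t) (ck ρ u) (ck ρ v) =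
    ρ ^ 2 * (32 * ((u - t) * (1 + t * u)) * ((v - u) * (1 + u * v)) * ((v - t) * (1 + t * v)) /
      ((1 + t ^ 2) ^ 2 * (1 + u ^ 2) ^ 2 * (1 + v ^ 2) ^ 2)) := by
  have h1 : (1 + t ^ 2) ≠ 0 := by positivity
  have h2 : (1 + u ^ 2) ≠ 0 := by positivity
  have h3 : (1 + v ^ 2) ≠ 0 := by positivity
  unfold ar
  simp only [ck_0, ck_1]
  field_simp
  ring

theorem circ_ck (ρ t u v : ℝ) : sd (ck ρ t) (ck ρ u) * sd (ck ρ u) (ck ρ v) *
    sd (ck ρ t) (ck ρ v) = 4 * ρ ^ 2 * ar (ck ρ t) (ck ρ u) (ck ρ v) ^ 2 := by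
  have h1 : (1 + t ^ 2) ≠ 0 := by positivity
  have h2 : (1 + u ^ 2) ≠ 0 := by positivity
  have h3 : (1 + v ^ 2) ≠ 0 := by positivity
  rw [sd_ck, sd_ck, sd_ck, ar_ck]
  field_simp
  ring

theorem heron (x y z : Plane) :
    4 * ar x y z ^ 2 = 4 * sd x y * sd x z - (sd x y + sd x z - sd y z) ^ 2 := by
  unfold ar sd
  ring

theorem dist_ck {ρ : ℝ} (hρ : 0 < ρ) (k l : ℕ) : dist (ck ρ k) (ck ρ l) =
    ρ * (4 * |(k : ℝ) - l| * (1 + k * l) / ((1 + (k : ℝ) ^ 2) * (1 + (l : ℝ) ^ 2))) := by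
  rw [dist_eq_sqrt_sd, sd_ck, Real.sqrt_sq_eq_abs, abs_mul, abs_of_pos hρ, abs_div, abs_mul,
    abs_mul]
  rw [abs_of_pos (show (0 : ℝ) < 4 by norm_num), abs_of_pos (show (0 : ℝ) < 1 + k * l by positivity),
    abs_of_pos (show (0 : ℝ) < (1 + (k : ℝ) ^ 2) * (1 + (l : ℝ) ^ 2) by positivity)]

/-- the complete graph on `ℕ` on the circle of radius `n + 1` -/
theorem rep_ck (n : ℕ) : IsRationalRep (⊤ : SimpleGraph ℕ) (fun k : ℕ => ck ((n : ℝ) + 1) k) := by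
  have hρ : (0 : ℝ) < (n : ℝ) + 1 := by positivity
  have hne : ∀ k l : ℕ, k ≠ l → sd (ck ((n : ℝ) + 1) k) (ck ((n : ℝ) + 1) l) ≠ 0 := by
    intro k l hkl h0
    have h1 : dist (ck ((n : ℝ) + 1) k) (ck ((n : ℝ) + 1) l) = 0 := by
      rw [dist_eq_sqrt_sd, h0, Real.sqrt_zero]
    rw [dist_ck hρ] at h1
    have h2 : (0 : ℝ) < |(k : ℝ) - l| := by
      rw [abs_pos, sub_ne_zero]
      exact_mod_cast hkl
    have : 0 < ((n : ℝ) + 1) * (4 * |(k : ℝ) - l| * (1 + k * l) /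
      ((1 + (k : ℝ) ^ 2) * (1 + (l : ℝ) ^ 2))) := by positivity
    linarith
  have hinj : Function.Injective (fun k : ℕ => ck ((n : ℝ) + 1) k) := by
    intro k l hkl
    by_contra h
    have h1 : ck ((n : ℝ) + 1) k = ck ((n : ℝ) + 1) l := hkl
    apply hne k l h
    rw [h1]
    unfold sd
    ring
  refine ⟨hinj, ?_, ?_⟩
  · intro k l m h1 h2 h3
    rw [col_iff (fun h => h1 (hinj h))]
    intro h0
    have h4 := circ_ck ((n : ℝ) + 1) k l m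
    have h5 : ar (ck ((n : ℝ) + 1) k) (ck ((n : ℝ) + 1) l) (ck ((n : ℝ) + 1) m) = 0 := h0
    rw [h5] at h4
    exact mul_ne_zero (mul_ne_zero (hne k l h1) (hne l m h2)) (hne k m h3) (by rw [h4]; ring)
  · intro k l hkl
    constructor
    · intro _
      refine ⟨((n : ℚ) + 1) * (4 * |(k : ℚ) - l| * (1 + k * l) /
        ((1 + (k : ℚ) ^ 2) * (1 + (l : ℚ) ^ 2))), ?_⟩
      show dist (ck ((n : ℝ) + 1) k) (ck ((n : ℝ) + 1) l) = _
      rw [dist_ck hρ]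
      push_cast
      ring
    · intro _
      exact hkl

end Pool.Agent.Lib.MP_a24e3f_co.CC
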