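import Mathlib
import Pool.Agent.Lib.MP_a24e3f_co.CC.KCircle

/-!
# Infinite complete graphs with one more vertex

The points `ck 1 s` of the unit circle, `s` rational, have rational distances. Their distance to
the point `(-6, 0)` is rational if and only if `49 s ^ 4 + 2 s ^ 2 + 49` is a square, which holds
for infinitely many `s` (a curve of genus one) and does not hold for infinitely many `s`.
-/

set_option autoImplicit false

namespace Pool.Agent.Lib.MP_a24e3f_co.CC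

/-! ### 2-adic valuations -/

/-- the 2-adic valuation -/
def v2 (x : ℚ) : ℤ := padicValRat 2 x

theorem v2_mul {x y : ℚ} (hx : x ≠ 0) (hy : y ≠ 0) : v2 (x * y) = v2 x + v2 y :=
  padicValRat.mul hx hy
theorem v2_div {x y : ℚ} (hx : x ≠ 0) (hy : y ≠ 0) : v2 (x / y) = v2 x - v2 y :=
  padicValRat.div hx hy
theorem v2_pow {x : ℚ} (_hx : x ≠ 0) (k : ℕ) : v2 (x ^ k) = k * v2 x := padicValRat.pow x
theorem v2_neg (x : ℚ) : v2 (-x) = v2 x := padicValRat.neg x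
theorem v2_one : v2 1 = 0 := padicValRat.one
theorem v2_two : v2 2 = 1 := padicValRat.self (p := 2) (by norm_num)
theorem v2_abs (x : ℚ) : v2 |x| = v2 x := by
  rcases abs_choice x with h | h
  · rw [h]
  · rw [h, v2_neg]
theorem v2_odd (n : ℕ) (h : ¬ 2 ∣ n) : v2 (n : ℚ) = 0 := by
  unfold v2
  rw [padicValRat.of_nat, padicValNat.eq_zero_of_not_dvd h]
  rfl
theorem v2_nat (n : ℕ) : 0 ≤ v2 (n : ℚ) := by
  unfold v2
  rw [padicValRat.of_nat]
  positivity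

theorem v2_one_add {r : ℚ} (hr : r ≠ 0) (h : 0 < v2 r) : 1 + r ≠ 0 ∧ v2 (1 + r) = 0 := by
  have h1 : 1 + r ≠ 0 := by
    intro h0
    have : r = -1 := by linarith
    rw [this, v2_neg, v2_one] at h
    exact lt_irrefl _ h
  refine ⟨h1, ?_⟩
  have h2 := padicValRat.add_eq_of_lt (p := 2) h1 one_ne_zero hr (by rw [padicValRat.one]; exact h)
  exact h2.trans padicValRat.one

theorem v2_one_sub_pow {s : ℚ} (hs : s ≠ 0) (h : 1 ≤ v2 s) (k : ℕ) (hk : 0 < k) :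
    1 - s ^ k ≠ 0 ∧ v2 (1 - s ^ k) = 0 := by
  have h1 : -(s ^ k) ≠ 0 := neg_ne_zero.mpr (pow_ne_zero k hs)
  have h2 : 0 < v2 (-(s ^ k)) := by
    rw [v2_neg, v2_pow hs]
    have : (0 : ℤ) < k := by exact_mod_cast hk
    positivity
  have h3 := v2_one_add h1 h2
  rwa [← sub_eq_add_neg] at h3

/-- `s` is the first coordinate of a rational point of the curve -/
def OnC (s : ℚ) : Prop := ∃ y : ℚ, y ^ 2 = s ^ 4 + 2 / 49 * s ^ 2 + 1

theorem onC_iff (s : ℚ) : OnC s ↔ ∃ z : ℚ, z ^ 2 = 49 * s ^ 4 + 2 * s ^ 2 + 49 := by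
  constructor
  · rintro ⟨y, hy⟩
    exact ⟨7 * y, by rw [mul_pow, hy]; ring⟩
  · rintro ⟨z, hz⟩
    exact ⟨z / 7, by rw [div_pow, hz]; ring⟩

theorem dbl {s : ℚ} (hs : 0 < s) (hv : 1 ≤ v2 s) (hC : OnC s) :
    ∃ s' : ℚ, 0 < s' ∧ v2 s' = v2 s + 1 ∧ OnC s' := by
  obtain ⟨y, hy⟩ := hC
  obtain ⟨h4, hv4⟩ := v2_one_sub_pow hs.ne' hv 4 (by norm_num)
  have hy0 : y ≠ 0 := by
    rintro rfl
    have : 0 < s ^ 4 + 2 / 49 * s ^ 2 + 1 := by positivity
    rw [← hy] at this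
    norm_num at this
  have hc : (2 / 49 : ℚ) ≠ 0 := by norm_num
  have vc : v2 (2 / 49 : ℚ) = 1 := by
    rw [v2_div two_ne_zero (by norm_num), v2_two]
    have := v2_odd 49 (by norm_num)
    push_cast at this
    rw [this]
    rfl
  have hy' : v2 y = 0 := by
    have hr : s ^ 2 * (s ^ 2 + 2 / 49) ≠ 0 := by positivity
    have hvr : 0 < v2 (s ^ 2 * (s ^ 2 + 2 / 49)) := by
      rw [v2_mul (by positivity) (by positivity), v2_pow hs.ne']
      have h1 := padicValRat.min_le_padicValRat_add (p := 2) (q := s ^ 2) (r := 2 / 49)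
        (by positivity)
      have h2 : v2 (s ^ 2) = 2 * v2 s := by rw [v2_pow hs.ne']; rfl
      have h3 : (1 : ℤ) ≤ v2 (s ^ 2 + 2 / 49) := by
        refine le_trans (le_min ?_ ?_) h1
        · show 1 ≤ v2 (s ^ 2)
          rw [h2]; omega
        · show 1 ≤ v2 (2 / 49)
          rw [vc]
      push_cast
      omega
    have h1 := (v2_one_add hr hvr).2
    have h2 : 1 + s ^ 2 * (s ^ 2 + 2 / 49) = y ^ 2 := by rw [hy]; ring
    rw [h2, v2_pow hy0] at h1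
    push_cast at h1
    omega
  refine ⟨|2 * s * y / (1 - s ^ 4)|, ?_, ?_, ?_⟩
  · rw [abs_pos]
    exact div_ne_zero (mul_ne_zero (mul_ne_zero two_ne_zero hs.ne') hy0) h4
  · rw [v2_abs, v2_div (mul_ne_zero (mul_ne_zero two_ne_zero hs.ne') hy0) h4,
      v2_mul (mul_ne_zero two_ne_zero hs.ne') hy0, v2_mul two_ne_zero hs.ne', v2_two, hv4, hy']
    ring
  · refine ⟨((1 + s ^ 4) * (y ^ 2 + 2 / 49 * s ^ 2) + 4 * s ^ 4) / (1 - s ^ 4) ^ 2, ?_⟩
    have e2 : |2 * s * y / (1 - s ^ 4)| ^ 2 = 4 * s ^ 2 * y ^ 2 / (1 - s ^ 4) ^ 2 := by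
      rw [sq_abs, div_pow]
      ring
    have e4 : |2 * s * y / (1 - s ^ 4)| ^ 4 = (4 * s ^ 2 * y ^ 2 / (1 - s ^ 4) ^ 2) ^ 2 := by
      rw [← e2]
      ring
    rw [e2, e4, hy]
    field_simp
    ring

/-- infinitely many parameters of positive 2-adic valuation on the curve -/
theorem seqA : ∃ a : ℕ → ℚ, ∀ n, 0 < a n ∧ v2 (a n) = n + 2 ∧ OnC (a n) := by
  have hstep : ∀ s : {s : ℚ // 0 < s ∧ 1 ≤ v2 s ∧ OnC s},
      ∃ s' : {s : ℚ // 0 < s ∧ 1 ≤ v2 s ∧ OnC s}, v2 s'.1 = v2 s.1 + 1 := by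
    rintro ⟨s, hs, hv, hC⟩
    obtain ⟨s', h1, h2, h3⟩ := dbl hs hv hC
    exact ⟨⟨s', h1, by rw [h2]; omega, h3⟩, h2⟩
  choose nx hnx using hstep
  have h29 : v2 (116 / 105 : ℚ) = 2 := by
    have e1 : (116 / 105 : ℚ) = 2 ^ 2 * (((29 : ℕ) : ℚ) / ((105 : ℕ) : ℚ)) := by norm_num
    rw [e1, v2_mul (by norm_num) (by norm_num), v2_pow two_ne_zero, v2_two,
      v2_div (by norm_num) (by norm_num), v2_odd 29 (by norm_num), v2_odd 105 (by norm_num)]
    norm_num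
  let s0 : {s : ℚ // 0 < s ∧ 1 ≤ v2 s ∧ OnC s} :=
    ⟨116 / 105, by norm_num, by rw [h29]; norm_num, 17569 / 11025, by norm_num⟩
  let a : ℕ → {s : ℚ // 0 < s ∧ 1 ≤ v2 s ∧ OnC s} := fun n => Nat.rec s0 (fun _ s => nx s) n
  have ha : ∀ n, v2 (a (n + 1)).1 = v2 (a n).1 + 1 := fun n => hnx (a n)
  refine ⟨fun n => (a n).1, fun n => ⟨(a n).2.1, ?_, (a n).2.2.2⟩⟩
  induction n with
  | zero =>
    show v2 (116 / 105 : ℚ) = _
    rw [h29]
    norm_num
  | succ n ih =>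
    have h1 : v2 (a n).1 = n + 2 := ih
    show v2 (a (n + 1)).1 = _
    rw [ha, h1]
    push_cast
    ring

/-- the other parameters -/
theorem notOnC (n : ℕ) : ¬ OnC (2 * ((n : ℚ) + 2)) := by
  rw [onC_iff]
  rintro ⟨z, hz⟩
  have h1 : IsSquare (((49 * (2 * (n + 2)) ^ 4 + 2 * (2 * (n + 2)) ^ 2 + 49 : ℕ)) : ℚ) := by
    refine ⟨z, ?_⟩
    push_cast
    rw [← sq, hz]
  rw [Rat.isSquare_natCast_iff] at h1
  obtain ⟨m, hm⟩ := h1
  have h2 : 7 * (2 * (n + 2)) ^ 2 < m := by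
    by_contra hcon
    push Not at hcon
    have := Nat.mul_le_mul hcon hcon
    rw [← hm] at this
    nlinarith [sq_nonneg (2 * (n + 2))]
  have h3 : m < 7 * (2 * (n + 2)) ^ 2 + 1 := by
    by_contra hcon
    push Not at hcon
    have := Nat.mul_le_mul hcon hcon
    rw [← hm] at this
    have h4 : 4 ^ 2 ≤ (2 * (n + 2)) ^ 2 := Nat.pow_le_pow_left (by omega) 2
    nlinarith
  omega

theorem v2_even (n : ℕ) : 1 ≤ v2 (2 * ((n : ℚ) + 2)) := by
  have h0 : ((n : ℚ) + 2) ≠ 0 := by positivity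
  rw [v2_mul two_ne_zero h0, v2_two]
  have := v2_nat (n + 2)
  push_cast at this
  omega

/-- for every set `S` there are parameters which are on the curve exactly for `n` in `S` -/
theorem params (S : Set ℕ) : ∃ σ : ℕ → ℚ, Function.Injective σ ∧
    ∀ n, 0 < σ n ∧ 1 ≤ v2 (σ n) ∧ (OnC (σ n) ↔ n ∈ S) := by
  classical
  obtain ⟨a, ha⟩ := seqA
  let σ : ℕ → ℚ := fun n => if n ∈ S then a n else 2 * ((n : ℚ) + 2)
  have h1 : ∀ n, n ∈ S → σ n = a n := fun n hn => if_pos hn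
  have h2 : ∀ n, n ∉ S → σ n = 2 * ((n : ℚ) + 2) := fun n hn => if_neg hn
  have h3 : ∀ n, OnC (σ n) ↔ n ∈ S := by
    intro n
    by_cases hn : n ∈ S
    · rw [h1 n hn]
      exact ⟨fun _ => hn, fun _ => (ha n).2.2⟩
    · rw [h2 n hn]
      exact ⟨fun h => absurd h (notOnC n), fun h => absurd h hn⟩
  refine ⟨σ, ?_, fun n => ⟨?_, ?_, h3 n⟩⟩
  · intro m n hmn
    by_cases hm : m ∈ S
    · have hn : n ∈ S := (h3 n).mp (hmn ▸ (h3 m).mpr hm)
      rw [h1 m hm, h1 n hn] at hmn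
      have h4 := (ha m).2.1
      rw [hmn, (ha n).2.1] at h4
      have h5 : (n : ℤ) = m := by linarith
      exact_mod_cast h5.symm
    · have hn : n ∉ S := fun hn => hm ((h3 m).mp (hmn ▸ (h3 n).mpr hn))
      rw [h2 m hm, h2 n hn] at hmn
      have h5 : (m : ℚ) = n := by linarith
      exact_mod_cast h5
  · by_cases hn : n ∈ S
    · rw [h1 n hn]; exact (ha n).1
    · rw [h2 n hn]; positivity
  · by_cases hn : n ∈ S
    · rw [h1 n hn, (ha n).2.1]
      omega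
    · rw [h2 n hn]; exact v2_even n

end Pool.Agent.Lib.MP_a24e3f_co.CC
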