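import Mathlib
import Pool.Agent.Lib.MP_a24e3f_co.CC.Minus

/-!
# Graphs which become complete when one vertex is removed
-/

set_option autoImplicit false

namespace Pool.Agent.Lib.MP_a24e3f_co.CC

/-- the point `(-6, 0)` -/
noncomputable def x0 : Plane := !₂[-6, 0]

theorem x0_0 : x0 0 = -6 := by simp [x0]
theorem x0_1 : x0 1 = 0 := by simp [x0]

theorem sd_x0 (s : ℝ) : sd x0 (ck 1 s) = (49 * s ^ 4 + 2 * s ^ 2 + 49) / (1 + s ^ 2) ^ 2 := by
  have h1 : (1 + s ^ 2) ≠ 0 := by positivity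
  unfold sd
  rw [x0_0, x0_1, ck_0, ck_1]
  field_simp
  ring

theorem ar_x0 (s u : ℝ) : ar x0 (ck 1 s) (ck 1 u) =
    4 * (s - u) * (1 + s * u) * (20 * s * u - 7 * (1 - s ^ 2) * (1 - u ^ 2)) /
      ((1 + s ^ 2) ^ 2 * (1 + u ^ 2) ^ 2) := by
  have h1 : (1 + s ^ 2) ≠ 0 := by positivity
  have h2 : (1 + u ^ 2) ≠ 0 := by positivity
  unfold ar
  simp only [x0_0, x0_1, ck_0, ck_1]
  field_simp
  ring

theorem not_col {s u : ℚ} (hs : 0 < s) (hu : 0 < u) (vs : 1 ≤ v2 s) (vu : 1 ≤ v2 u) :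
    20 * s * u - 7 * (1 - s ^ 2) * (1 - u ^ 2) ≠ 0 := by
  intro h0
  have h1 : 20 * s * u = 7 * (1 - s ^ 2) * (1 - u ^ 2) := by linarith
  obtain ⟨a1, a2⟩ := v2_one_sub_pow hs.ne' vs 2 (by norm_num)
  obtain ⟨b1, b2⟩ := v2_one_sub_pow hu.ne' vu 2 (by norm_num)
  have h2 : v2 (20 * s * u) = v2 20 + v2 s + v2 u := by
    rw [v2_mul (mul_ne_zero (by norm_num) hs.ne') hu.ne', v2_mul (by norm_num) hs.ne']
  have h3 : v2 (7 * (1 - s ^ 2) * (1 - u ^ 2)) = v2 7 := by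
    rw [v2_mul (mul_ne_zero (by norm_num) a1) b1, v2_mul (by norm_num) a1, a2, b2]
    ring
  have h4 : v2 (7 : ℚ) = 0 := by
    have := v2_odd 7 (by norm_num)
    exact_mod_cast this
  have h5 : 0 ≤ v2 (20 : ℚ) := by
    have := v2_nat 20
    exact_mod_cast this
  rw [h1, h3, h4] at h2
  omega

theorem rat_dist_circle (s u : ℚ) :
    dist (ck 1 (s : ℝ)) (ck 1 (u : ℝ)) =
      ((|4 * (s - u) * (1 + s * u) / ((1 + s ^ 2) * (1 + u ^ 2))| : ℚ) : ℝ) := by
  rw [dist_eq_sqrt_sd, sd_ck, Real.sqrt_sq_eq_abs, one_mul]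
  push_cast
  rfl

theorem circle_ne {s u : ℚ} (hs : 0 < s) (hu : 0 < u) (hsu : s ≠ u) :
    sd (ck 1 (s : ℝ)) (ck 1 (u : ℝ)) ≠ 0 := by
  have hs' : (0 : ℝ) < s := by exact_mod_cast hs
  have hu' : (0 : ℝ) < u := by exact_mod_cast hu
  have hsu' : (s : ℝ) - u ≠ 0 := by
    rw [sub_ne_zero]
    exact_mod_cast hsu
  rw [sd_ck]
  have h1 : (1 + (s : ℝ) ^ 2) ≠ 0 := by positivity
  have h2 : (1 + (u : ℝ) ^ 2) ≠ 0 := by positivity
  have h3 : (1 + (s : ℝ) * u) ≠ 0 := by positivity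
  exact pow_ne_zero 2 (mul_ne_zero one_ne_zero (div_ne_zero
    (mul_ne_zero (mul_ne_zero (by norm_num) hsu') h3) (mul_ne_zero h1 h2)))

theorem dist_x0_iff {s : ℚ} : (∃ q : ℚ, dist x0 (ck 1 (s : ℝ)) = (q : ℝ)) ↔ OnC s := by
  rw [onC_iff]
  have h1 : (1 + (s : ℝ) ^ 2) ≠ 0 := by positivity
  constructor
  · rintro ⟨q, hq⟩
    refine ⟨q * (1 + s ^ 2), ?_⟩
    have h2 : sd x0 (ck 1 (s : ℝ)) = (q : ℝ) ^ 2 := by rw [sd_eq_dist, hq]
    rw [sd_x0, div_eq_iff (pow_ne_zero 2 h1)] at h2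
    have h3 : ((q * (1 + s ^ 2)) ^ 2 : ℝ) = 49 * (s : ℝ) ^ 4 + 2 * (s : ℝ) ^ 2 + 49 := by
      rw [h2]; ring
    exact_mod_cast h3
  · rintro ⟨z, hz⟩
    refine ⟨|z / (1 + s ^ 2)|, ?_⟩
    rw [dist_eq_sqrt_sd, sd_x0]
    have h3 : (49 * (s : ℝ) ^ 4 + 2 * (s : ℝ) ^ 2 + 49) / (1 + (s : ℝ) ^ 2) ^ 2 =
        ((z : ℝ) / (1 + (s : ℝ) ^ 2)) ^ 2 := by
      have h4 : ((z : ℝ)) ^ 2 = 49 * (s : ℝ) ^ 4 + 2 * (s : ℝ) ^ 2 + 49 := by exact_mod_cast hz
      rw [div_pow, h4]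
    rw [h3, Real.sqrt_sq_eq_abs]
    push_cast
    rfl

theorem x0_ne (s : ℝ) : sd x0 (ck 1 s) ≠ 0 := by
  rw [sd_x0]
  have h1 : (1 + s ^ 2) ≠ 0 := by positivity
  have h2 : 49 * s ^ 4 + 2 * s ^ 2 + 49 ≠ 0 := by positivity
  exact div_ne_zero h2 (pow_ne_zero 2 h1)

/-- **A countable graph which becomes complete when one vertex is removed is a rational graph.** -/
theorem one_more {U : Type} [Countable U] (H : SimpleGraph U) (x : U)
    (hx : ∀ u v, u ≠ x → v ≠ x → u ≠ v → H.Adj u v) : ∃ f : U → Plane, IsRationalRep H f := by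
  classical
  obtain ⟨i, hi⟩ := exists_injective_nat U
  obtain ⟨σ, hσ, hp⟩ := params {n | ∃ u, i u = n ∧ H.Adj u x}
  let f : U → Plane := fun u => if u = x then x0 else ck 1 ((σ (i u) : ℚ) : ℝ)
  have fx : f x = x0 := if_pos rfl
  have fu : ∀ u, u ≠ x → f u = ck 1 ((σ (i u) : ℚ) : ℝ) := fun u hu => if_neg hu
  have hne : ∀ u v, u ≠ v → σ (i u) ≠ σ (i v) := fun u v huv h => huv (hi (hσ h))
  have sdne : ∀ u v, u ≠ v → sd (f u) (f v) ≠ 0 := by
    intro u v huv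
    by_cases hu : u = x
    · subst hu
      rw [fx, fu v huv.symm]
      exact x0_ne _
    · by_cases hv : v = x
      · subst hv
        rw [fx, fu u hu, sd_comm]
        exact x0_ne _
      · rw [fu u hu, fu v hv]
        exact circle_ne (hp _).1 (hp _).1 (hne u v huv)
  have hinj : Function.Injective f := by
    intro u v huv
    by_contra h
    apply sdne u v h
    rw [huv]
    unfold sd
    ring
  have arx : ∀ u v, u ≠ x → v ≠ x → u ≠ v → ar (f x) (f u) (f v) ≠ 0 := by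
    intro u v hu hv huv
    rw [fx, fu u hu, fu v hv, ar_x0]
    have hs := (hp (i u)).1
    have ht := (hp (i v)).1
    have hs' : (0 : ℝ) < (σ (i u) : ℝ) := by exact_mod_cast hs
    have ht' : (0 : ℝ) < (σ (i v) : ℝ) := by exact_mod_cast ht
    have h1 : ((σ (i u) : ℝ) - (σ (i v) : ℝ)) ≠ 0 := by
      rw [sub_ne_zero]
      exact_mod_cast hne u v huv
    have h2 : (1 + (σ (i u) : ℝ) * (σ (i v) : ℝ)) ≠ 0 := by positivity
    have h3 := not_col hs ht (hp (i u)).2.1 (hp (i v)).2.1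
    have h4 : (20 * (σ (i u) : ℝ) * (σ (i v) : ℝ) -
        7 * (1 - (σ (i u) : ℝ) ^ 2) * (1 - (σ (i v) : ℝ) ^ 2)) ≠ 0 := by exact_mod_cast h3
    have h5 : (1 + (σ (i u) : ℝ) ^ 2) ≠ 0 := by positivity
    have h6 : (1 + (σ (i v) : ℝ) ^ 2) ≠ 0 := by positivity
    exact div_ne_zero (mul_ne_zero (mul_ne_zero (mul_ne_zero (by norm_num) h1) h2) h4)
      (mul_ne_zero (pow_ne_zero 2 h5) (pow_ne_zero 2 h6))
  have adjx : ∀ u, u ≠ x → (H.Adj u x ↔ ∃ q : ℚ, dist (f x) (f u) = (q : ℝ)) := by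
    intro u hu
    rw [fx, fu u hu, dist_x0_iff, (hp (i u)).2.2]
    constructor
    · intro h
      exact ⟨u, rfl, h⟩
    · rintro ⟨v, hv, h⟩
      rwa [hi hv] at h
  refine ⟨f, hinj, ?_, ?_⟩
  · intro u v w huv hvw huw
    rw [col_iff (fun h => huv (hinj h))]
    by_cases hu : u = x
    · subst hu
      exact arx v w huv.symm huw.symm hvw
    · by_cases hv : v = x
      · subst hv
        rw [← ar_rot]
        exact arx w u hvw.symm hu huw.symm
      · by_cases hw : w = x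
        · subst hw
          rw [← ar_rot, ← ar_rot]
          exact arx u v hu hv huv
        · intro h0
          rw [fu u hu, fu v hv, fu w hw] at h0
          have h1 := circ_ck 1 ((σ (i u) : ℚ) : ℝ) ((σ (i v) : ℚ) : ℝ) ((σ (i w) : ℚ) : ℝ)
          rw [h0] at h1
          refine mul_ne_zero (mul_ne_zero (circle_ne (hp _).1 (hp _).1 (hne u v huv))
            (circle_ne (hp _).1 (hp _).1 (hne v w hvw)))
            (circle_ne (hp _).1 (hp _).1 (hne u w huw)) (h1.trans ?_)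
          ring
  · intro u v huv
    by_cases hu : u = x
    · subst hu
      rw [H.adj_comm]
      exact adjx v huv.symm
    · by_cases hv : v = x
      · subst hv
        rw [dist_comm]
        exact adjx u hu
      · constructor
        · intro _
          rw [fu u hu, fu v hv, rat_dist_circle]
          exact ⟨_, rfl⟩
        · intro _
          exact hx u v hu hv huv

end Pool.Agent.Lib.MP_a24e3f_co.CC
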