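import Mathlib
import Pool.Agent.Lib.MP_a24e3f_co.CC.Final
import Pool.Agent.Lib.MP_a24e3f_co.CC.Minus2
import Pool.Agent.Lib.MP_a24e3f_co.M4.Assemble

/-!
# Blocks of one of five kinds
-/

set_option autoImplicit false

namespace Pool.Agent.Lib.MP_a24e3f_co.CC

/-- The graph `G` has a finite core: there are a finite (possibly empty) set `W` of vertices which
induces a connected graph of maximum degree at most four, and an enumeration `e` of the vertices of
`G` such that every vertex outside `W` has at most three neighbours which are in `W` or come before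
it. -/
def HasFiniteCore {V : Type} (G : SimpleGraph V) : Prop :=
  ∃ (e : V → ℕ) (W : Set V), Function.Injective e ∧ W.Finite ∧ (G.induce W).Preconnected ∧
    (∀ v ∈ W, {u | G.Adj u v ∧ u ∈ W}.encard ≤ 4) ∧
    ∀ v, v ∉ W → {u | G.Adj u v ∧ (u ∈ W ∨ e u < e v)}.encard ≤ 3

/-- The graph `G` has maximum degree at most four, or has a finite core, or has a core made of
complete and complete bipartite graphs, or becomes a complete graph when one vertex is removed, or
is a rational graph. -/
def Nice {V : Type} (G : SimpleGraph V) : Prop :=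
  (∀ v, (G.neighborSet v).encard ≤ 4) ∨ HasFiniteCore G ∨ HasCore G ∨
    (∃ x, ∀ u v, u ≠ x → v ≠ x → u ≠ v → G.Adj u v) ∨ ∃ f : V → Plane, IsRationalRep G f

theorem Nice.rep {V : Type} [Countable V] {G : SimpleGraph V} (h : Nice G) :
    ∃ f : V → Plane, IsRationalRep G f := by
  rcases h with h | h | h | ⟨x, hx⟩ | h
  · exact M4.max_degree_four G (fun c => Or.inl (fun v _ => h v))
  · obtain ⟨e, W, he, hW, hc, h4, hdeg⟩ := h
    exact M4.core_form G e he W hW
      (fun u v => (SimpleGraph.reachable_iff_reflTransGen u v).1 (hc u v)) h4 hdeg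
  · exact h.rep
  · exact one_more G x hx
  · exact h

theorem rep_mono {V : Type} {G : SimpleGraph V} {A B : Set V} (hBA : B ⊆ A)
    (h : ∃ f : A → Plane, IsRationalRep (G.induce A) f) :
    ∃ f : B → Plane, IsRationalRep (G.induce B) f := by
  obtain ⟨f, hf⟩ := h
  refine ⟨fun b => f ⟨b.1, hBA b.2⟩, ?_, ?_, ?_⟩
  · intro u v huv
    have h1 := hf.injective huv
    exact Subtype.ext (congrArg (fun x : A => (x : V)) h1)
  · intro u v w huv hvw huw
    exact hf.no_three_collinear ⟨u.1, hBA u.2⟩ ⟨v.1, hBA v.2⟩ ⟨w.1, hBA w.2⟩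
      (fun h1 => huv (Subtype.ext (congrArg (fun x : A => (x : V)) h1)))
      (fun h1 => hvw (Subtype.ext (congrArg (fun x : A => (x : V)) h1)))
      (fun h1 => huw (Subtype.ext (congrArg (fun x : A => (x : V)) h1)))
  · intro u v huv
    exact hf.adj_iff ⟨u.1, hBA u.2⟩ ⟨v.1, hBA v.2⟩
      (fun h1 => huv (Subtype.ext (congrArg (fun x : A => (x : V)) h1)))

/-- **Blocks theorem.** -/
theorem of_nice_blocks {V : Type} [Countable V] (G : SimpleGraph V)
    (h : ∀ B : Set V, IsBlock G B → ∃ A : Set V, B ⊆ A ∧ Nice (G.induce A)) :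
    ∃ f : V → Plane, IsRationalRep G f := by
  refine of_blocks G (fun B hB => ?_)
  obtain ⟨A, hBA, hA⟩ := h B hB
  exact rep_mono hBA hA.rep

/-- the graphs of the hand-in MaxDegreeFour are a special case -/
theorem of_nice_components {V : Type} [Countable V] (G : SimpleGraph V)
    (h : ∀ c : G.ConnectedComponent, Nice (G.induce c.supp)) :
    ∃ f : V → Plane, IsRationalRep G f := by
  refine of_nice_blocks G (fun B hB => ?_)
  by_cases hne : B.Nonempty
  · obtain ⟨b, hb⟩ := hne
    refine ⟨(G.connectedComponentMk b).supp, ?_, h _⟩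
    intro v hv
    rw [SimpleGraph.ConnectedComponent.mem_supp_iff]
    have h1 := pre_iff.mp hB.prop.1 v hv b hb
    apply SimpleGraph.ConnectedComponent.sound
    rw [SimpleGraph.reachable_iff_reflTransGen]
    exact Relation.ReflTransGen.mono (fun _ _ hab => hab.1) _ _ h1
  · rw [Set.not_nonempty_iff_eq_empty] at hne
    subst hne
    exact ⟨∅, subset_rfl, Or.inl (fun v => (v.2 : False).elim)⟩

end Pool.Agent.Lib.MP_a24e3f_co.CC
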