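import Mathlib
import Pool.Agent.Lib.MP_a24e3f_co.CC.KCircle

/-!
# Weak Cartesian products with countably many infinite complete graphs
-/

set_option autoImplicit false

namespace Pool.Agent.Lib.MP_a24e3f_co.CC

open SimpleGraph

/-- The weak Cartesian product of the graph `T` and of countably many copies of the complete graph
on the natural numbers: the vertices are the pairs of a vertex of `T` and of a sequence of natural
numbers almost all of which are zero; two vertices are adjacent if and only if either their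
first components are adjacent and their sequences are equal, or their first components are equal
and their sequences differ in exactly one place. -/
def hamming {U : Type} (T : SimpleGraph U) : SimpleGraph (U × (ℕ →₀ ℕ)) where
  Adj p q := (T.Adj p.1 q.1 ∧ p.2 = q.2) ∨
    (p.1 = q.1 ∧ ∃ i, p.2 i ≠ q.2 i ∧ ∀ j, j ≠ i → p.2 j = q.2 j)
  symm := ⟨by
    rintro p q (⟨h1, h2⟩ | ⟨h1, i, h2, h3⟩)
    · exact Or.inl ⟨h1.symm, h2.symm⟩
    · exact Or.inr ⟨h1.symm, i, h2.symm, fun j hj => (h3 j hj).symm⟩⟩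
  loopless := ⟨by
    rintro p (⟨h1, _⟩ | ⟨_, i, h2, _⟩)
    · exact T.irrefl h1
    · exact h2 rfl⟩

section

variable {U : Type} {T : SimpleGraph U}

/-- the vertices whose coordinates from `n` on are zero -/
def lev (U : Type) (n : ℕ) : Set (U × (ℕ →₀ ℕ)) := {p | ∀ i, n ≤ i → p.2 i = 0}

/-- forget the coordinate `n` -/
noncomputable def dn (n : ℕ) (p : U × (ℕ →₀ ℕ)) : U × (ℕ →₀ ℕ) := (p.1, p.2.erase n)

theorem dn_same (n : ℕ) (p : U × (ℕ →₀ ℕ)) : (dn n p).2 n = 0 := by simp [dn]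

theorem dn_ne {n j : ℕ} (h : j ≠ n) (p : U × (ℕ →₀ ℕ)) : (dn n p).2 j = p.2 j := by
  show (p.2.erase n) j = p.2 j
  exact Finsupp.erase_ne h

theorem dn_mem {n : ℕ} {p : U × (ℕ →₀ ℕ)} (hp : p ∈ lev U (n + 1)) : dn n p ∈ lev U n := by
  intro i hi
  by_cases h : i = n
  · rw [h]; exact dn_same n p
  · rw [dn_ne h]
    exact hp i (by omega)

theorem lev_mono {n m : ℕ} (h : n ≤ m) : lev U n ⊆ lev U m := fun _ hp i hi => hp i (h.trans hi)

theorem dn_eq {n : ℕ} {p : U × (ℕ →₀ ℕ)} (hp : p ∈ lev U n) : dn n p = p := by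
  refine Prod.ext rfl (Finsupp.ext fun j => ?_)
  by_cases h : j = n
  · rw [h, dn_same, hp n le_rfl]
  · exact dn_ne h p

theorem eq_of_dn {n : ℕ} {p q : U × (ℕ →₀ ℕ)} (h : dn n p = dn n q) (h' : p.2 n = q.2 n) :
    p = q := by
  have h0 : (dn n p).1 = (dn n q).1 := by rw [h]
  have h1 : p.1 = q.1 := h0
  refine Prod.ext h1 (Finsupp.ext fun j => ?_)
  by_cases hj : j = n
  · rw [hj]; exact h'
  · rw [← dn_ne hj p, ← dn_ne hj q, h]

theorem adj_dn (n : ℕ) (p q : U × (ℕ →₀ ℕ)) : (hamming T).Adj p q ↔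
    ((hamming T).Adj (dn n p) (dn n q) ∧ p.2 n = q.2 n) ∨
      (p.2 n ≠ q.2 n ∧ dn n p = dn n q) := by
  constructor
  · rintro (⟨h1, h2⟩ | ⟨h1, i, h2, h3⟩)
    · refine Or.inl ⟨Or.inl ⟨h1, ?_⟩, by rw [h2]⟩
      show p.2.erase n = q.2.erase n
      rw [h2]
    · by_cases hi : i = n
      · subst hi
        refine Or.inr ⟨h2, Prod.ext h1 (Finsupp.ext fun j => ?_)⟩
        by_cases hj : j = i
        · rw [hj, dn_same, dn_same]
        · rw [dn_ne hj, dn_ne hj]
          exact h3 j hj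
      · refine Or.inl ⟨Or.inr ⟨h1, i, ?_, ?_⟩, h3 n (Ne.symm hi)⟩
        · rw [dn_ne hi, dn_ne hi]
          exact h2
        · intro j hj
          by_cases hjn : j = n
          · rw [hjn, dn_same, dn_same]
          · rw [dn_ne hjn, dn_ne hjn]
            exact h3 j hj
  · rintro (⟨⟨h1, h2⟩ | ⟨h1, i, h2, h3⟩, h4⟩ | ⟨h1, h2⟩)
    · refine Or.inl ⟨h1, Finsupp.ext fun j => ?_⟩
      by_cases hj : j = n
      · rw [hj]; exact h4
      · rw [← dn_ne hj p, ← dn_ne hj q, h2]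
    · have hi : i ≠ n := by
        rintro rfl
        exact h2 (by rw [dn_same, dn_same])
      refine Or.inr ⟨h1, i, ?_, ?_⟩
      · rw [← dn_ne hi p, ← dn_ne hi q]
        exact h2
      · intro j hj
        by_cases hjn : j = n
        · rw [hjn]; exact h4
        · rw [← dn_ne hjn p, ← dn_ne hjn q]
          exact h3 j hj
    · have h0 : (dn n p).1 = (dn n q).1 := by rw [h2]
      refine Or.inr ⟨h0, n, h1, ?_⟩
      intro j hj
      rw [← dn_ne hj p, ← dn_ne hj q, h2]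

/-- the invariant of the construction -/
structure Inv (T : SimpleGraph U) (m n : ℕ) (h : U × (ℕ →₀ ℕ) → Plane) : Prop where
  rep : RepOn (hamming T) (lev U n) h
  circ : ∀ p ∈ lev U n, ∀ q ∈ lev U n, ∀ r ∈ lev U n, (hamming T).Adj p q →
    (hamming T).Adj q r → (hamming T).Adj p r →
      sd (h p) (h q) * sd (h q) (h r) * sd (h p) (h r) <
        4 * ((m : ℝ) + 1) ^ 2 * ar (h p) (h q) (h r) ^ 2

theorem RepOn.induce {V : Type} {G : SimpleGraph V} {A : Set V} {h : V → Plane}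
    (hh : RepOn G A h) : IsRationalRep (G.induce A) (fun a : A => h a) := by
  have hinj : Function.Injective (fun a : A => h a) :=
    fun a b hab => Subtype.ext (hh.inj a a.2 b b.2 hab)
  refine ⟨hinj, ?_, ?_⟩
  · intro u v w huv hvw huw
    rw [col_iff (fun h' => huv (hinj h'))]
    exact hh.col u u.2 v v.2 w w.2 (fun h' => huv (Subtype.ext h'))
      (fun h' => hvw (Subtype.ext h')) (fun h' => huw (Subtype.ext h'))
  · intro u v huv
    exact hh.adj u u.2 v v.2 (fun h' => huv (Subtype.ext h'))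

theorem step [Countable U] {m n : ℕ} {h : U × (ℕ →₀ ℕ) → Plane} (hI : Inv T m n h) :
    ∃ h' : U × (ℕ →₀ ℕ) → Plane, Inv T (m + 1) (n + 1) h' ∧ ∀ p ∈ lev U n, h' p = h p := by
  have hf := hI.rep.induce
  have hg := rep_ck m
  obtain ⟨s, hs⟩ := box_core hf hg (by
    rintro ⟨x, hx⟩ ⟨y, hy⟩ ⟨z, hz⟩ a b c hxy hyz hxz hab hbc hac ⟨e1, e2, e3⟩
    have hxy' : x ≠ y := fun h' => hxy (Subtype.ext h')
    have hyz' : y ≠ z := fun h' => hyz (Subtype.ext h')
    have hxz' : x ≠ z := fun h' => hxz (Subtype.ext h')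
    have e1' : sd (h x) (h y) = sd (ck ((m : ℝ) + 1) a) (ck ((m : ℝ) + 1) b) := e1
    have e2' : sd (h x) (h z) = sd (ck ((m : ℝ) + 1) a) (ck ((m : ℝ) + 1) c) := e2
    have e3' : sd (h y) (h z) = sd (ck ((m : ℝ) + 1) b) (ck ((m : ℝ) + 1) c) := e3
    have adj : ∀ x ∈ lev U n, ∀ y ∈ lev U n, x ≠ y → ∀ a b : ℕ, a ≠ b →
        sd (h x) (h y) = sd (ck ((m : ℝ) + 1) a) (ck ((m : ℝ) + 1) b) →
        (hamming T).Adj x y := by
      intro x hx y hy hxy a b hab e
      rw [hI.rep.adj x hx y hy hxy, dist_eq_sqrt_sd, e, ← dist_eq_sqrt_sd]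
      exact (hg.adj_iff a b hab).mp hab
    have h1 := hI.circ x hx y hy z hz (adj x hx y hy hxy' a b hab e1')
      (adj y hy z hz hyz' b c hbc e3') (adj x hx z hz hxz' a c hac e2')
    have h2 := circ_ck ((m : ℝ) + 1) a b c
    have h3 := heron (h x) (h y) (h z)
    have h4 := heron (ck ((m : ℝ) + 1) a) (ck ((m : ℝ) + 1) b) (ck ((m : ℝ) + 1) c)
    rw [e1', e2', e3'] at h3 h1
    have h5 : ar (h x) (h y) (h z) ^ 2 =
        ar (ck ((m : ℝ) + 1) a) (ck ((m : ℝ) + 1) b) (ck ((m : ℝ) + 1) c) ^ 2 := by linarith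
    rw [h5, h2] at h1
    exact lt_irrefl _ h1) (ck ((m : ℝ) + 1) (0 : ℕ))
  set g : ℕ → Plane := fun k : ℕ => ck ((m : ℝ) + 1) k with hgdef
  let h' : U × (ℕ →₀ ℕ) → Plane := fun p => ro (h (dn n p)) (g 0) s (g (p.2 n))
  let φ : ∀ p ∈ lev U (n + 1), (lev U n) × ℕ := fun p hp => (⟨dn n p, dn_mem hp⟩, p.2 n)
  have hφ : ∀ p (hp : p ∈ lev U (n + 1)) q (hq : q ∈ lev U (n + 1)), p ≠ q → φ p hp ≠ φ q hq := by
    intro p hp q hq hne heq
    apply hne
    have h1 : dn n p = dn n q := congrArg (fun x : (lev U n) × ℕ => (x.1 : U × (ℕ →₀ ℕ))) heq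
    have h2 : p.2 n = q.2 n := congrArg (fun x : (lev U n) × ℕ => x.2) heq
    exact eq_of_dn h1 h2
  have hrep : RepOn (hamming T) (lev U (n + 1)) h' := by
    refine ⟨?_, ?_, ?_⟩
    · intro p hp q hq heq
      by_contra hne
      exact hφ p hp q hq hne (hs.injective heq)
    · intro p hp q hq r hr hpq hqr hpr
      exact rep_ar_ne hs (hφ p hp q hq hpq) (hφ q hq r hr hqr) (hφ p hp r hr hpr)
    · intro p hp q hq hpq
      have h1 := hs.adj_iff (φ p hp) (φ q hq) (hφ p hp q hq hpq)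
      refine Iff.trans ?_ h1
      rw [boxProd_adj, adj_dn n p q]
      constructor
      · rintro (⟨h2, h3⟩ | ⟨h2, h3⟩)
        · exact Or.inl ⟨h2, h3⟩
        · exact Or.inr ⟨h2, Subtype.ext h3⟩
      · rintro (⟨h2, h3⟩ | ⟨h2, h3⟩)
        · exact Or.inl ⟨h2, h3⟩
        · exact Or.inr ⟨h2, congrArg Subtype.val h3⟩
  refine ⟨h', ⟨hrep, ?_⟩, ?_⟩
  · intro p hp q hq r hr hpq hqr hpr
    have har : 0 < ar (h' p) (h' q) (h' r) ^ 2 := by
      have := hrep.col p hp q hq r hr hpq.ne hqr.ne hpr.ne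
      positivity
    have hm0 : (0 : ℝ) ≤ m := by positivity
    -- it is enough to have the weak inequality with `m`
    suffices hsuff : sd (h' p) (h' q) * sd (h' q) (h' r) * sd (h' p) (h' r) ≤
        4 * ((m : ℝ) + 1) ^ 2 * ar (h' p) (h' q) (h' r) ^ 2 by
      push_cast
      nlinarith
    show sd (ro (h (dn n p)) (g 0) s (g (p.2 n)))
        (ro (h (dn n q)) (g 0) s (g (q.2 n))) * sd (ro (h (dn n q)) (g 0) s (g (q.2 n)))
        (ro (h (dn n r)) (g 0) s (g (r.2 n))) * sd (ro (h (dn n p)) (g 0) s (g (p.2 n)))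
        (ro (h (dn n r)) (g 0) s (g (r.2 n))) ≤ 4 * ((m : ℝ) + 1) ^ 2 *
        ar (ro (h (dn n p)) (g 0) s (g (p.2 n))) (ro (h (dn n q)) (g 0) s (g (q.2 n)))
          (ro (h (dn n r)) (g 0) s (g (r.2 n))) ^ 2
    rw [adj_dn n] at hpq hqr hpr
    rcases hpq with ⟨h1, h2⟩ | ⟨h1, h2⟩
    · rcases hqr with ⟨h3, h4⟩ | ⟨h3, h4⟩
      · rcases hpr with ⟨h5, h6⟩ | ⟨h5, h6⟩
        · rw [h2, h4, sd_ro_left, sd_ro_left, sd_ro_left, ar_ro_left]
          exact (hI.circ _ (dn_mem hp) _ (dn_mem hq) _ (dn_mem hr) h1 h3 h5).le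
        · exact absurd (h2.trans h4) h5
      · rcases hpr with ⟨h5, h6⟩ | ⟨h5, h6⟩
        · exact absurd (h2.symm.trans h6) h3
        · rw [h6, h4] at h1
          exact absurd h1 (SimpleGraph.irrefl _)
    · rcases hqr with ⟨h3, h4⟩ | ⟨h3, h4⟩
      · rcases hpr with ⟨h5, h6⟩ | ⟨h5, h6⟩
        · exact absurd (h6.trans h4.symm) h1
        · rw [← h2, h6] at h3
          exact absurd h3 (SimpleGraph.irrefl _)
      · rw [h2, h4, sd_ro_right, sd_ro_right, sd_ro_right, ar_ro_right]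
        exact (circ_ck ((m : ℝ) + 1) _ _ _).le
  · intro p hp
    show ro (h (dn n p)) (g 0) s (g (p.2 n)) = h p
    rw [dn_eq hp, hp n le_rfl]
    ext i
    fin_cases i
    · show ro (h p) (g 0) s (g 0) 0 = h p 0
      rw [ro_0]; ring
    · show ro (h p) (g 0) s (g 0) 1 = h p 1
      rw [ro_1]; ring

theorem base {f : U → Plane} (hf : IsRationalRep T f) (N : ℕ)
    (hN : ∀ x y z, T.Adj x y → T.Adj y z → T.Adj x z →
      sd (f x) (f y) * sd (f y) (f z) * sd (f x) (f z) <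
        4 * ((N : ℝ) + 1) ^ 2 * ar (f x) (f y) (f z) ^ 2) :
    Inv T N 0 (fun p => f p.1) := by
  have h0 : ∀ p ∈ lev U 0, p.2 = 0 := fun p hp => Finsupp.ext fun i => hp i (Nat.zero_le i)
  have hne : ∀ p ∈ lev U 0, ∀ q ∈ lev U 0, p ≠ q → p.1 ≠ q.1 := by
    intro p hp q hq hpq h1
    exact hpq (Prod.ext h1 ((h0 p hp).trans (h0 q hq).symm))
  have hadj : ∀ p ∈ lev U 0, ∀ q ∈ lev U 0, ((hamming T).Adj p q ↔ T.Adj p.1 q.1) := by
    intro p hp q hq
    constructor
    · rintro (⟨h1, _⟩ | ⟨_, i, h2, _⟩)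
      · exact h1
      · exact absurd (by rw [h0 p hp, h0 q hq]) h2
    · intro h1
      exact Or.inl ⟨h1, (h0 p hp).trans (h0 q hq).symm⟩
  refine ⟨⟨?_, ?_, ?_⟩, ?_⟩
  · intro p hp q hq heq
    by_contra hpq
    exact hne p hp q hq hpq (hf.injective heq)
  · intro p hp q hq r hr hpq hqr hpr
    exact rep_ar_ne hf (hne p hp q hq hpq) (hne q hq r hr hqr) (hne p hp r hr hpr)
  · intro p hp q hq hpq
    rw [hadj p hp q hq]
    exact hf.adj_iff _ _ (hne p hp q hq hpq)
  · intro p hp q hq r hr hpq hqr hpr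
    exact hN _ _ _ ((hadj p hp q hq).mp hpq) ((hadj q hq r hr).mp hqr) ((hadj p hp r hr).mp hpr)

/-- **Weak Cartesian products with countably many infinite complete graphs.** -/
theorem weak_product [Countable U] {f : U → Plane} (hf : IsRationalRep T f) (N : ℕ)
    (hN : ∀ x y z, T.Adj x y → T.Adj y z → T.Adj x z →
      sd (f x) (f y) * sd (f y) (f z) * sd (f x) (f z) <
        4 * ((N : ℝ) + 1) ^ 2 * ar (f x) (f y) (f z) ^ 2) :
    ∃ F : U × (ℕ →₀ ℕ) → Plane, IsRationalRep (hamming T) F := by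
  classical
  have hstep : ∀ n (h : {h : U × (ℕ →₀ ℕ) → Plane // Inv T (N + n) n h}),
      ∃ h' : {h : U × (ℕ →₀ ℕ) → Plane // Inv T (N + (n + 1)) (n + 1) h},
        ∀ p ∈ lev U n, h'.1 p = h.1 p := by
    intro n h
    obtain ⟨h', h1, h2⟩ := step h.2
    exact ⟨⟨h', h1⟩, h2⟩
  choose nx hnx using hstep
  let H : ∀ n, {h : U × (ℕ →₀ ℕ) → Plane // Inv T (N + n) n h} := fun n =>
    Nat.rec ⟨fun p => f p.1, base hf N hN⟩ (fun n h => nx n h) n
  have hH : ∀ n, ∀ p ∈ lev U n, (H (n + 1)).1 p = (H n).1 p := fun n p hp => hnx n (H n) p hp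
  let M : U × (ℕ →₀ ℕ) → ℕ := fun p => p.2.support.sup id + 1
  have hM : ∀ p, p ∈ lev U (M p) := by
    intro p i hi
    by_contra hne
    have h1 : i ∈ p.2.support := Finsupp.mem_support_iff.mpr hne
    have h2 : i ≤ p.2.support.sup id := Finset.le_sup (f := id) h1
    have h3 : p.2.support.sup id + 1 ≤ i := hi
    omega
  let F : U × (ℕ →₀ ℕ) → Plane := fun p => (H (M p)).1 p
  have hF : ∀ p n, M p ≤ n → (H n).1 p = F p := by
    intro p n hn
    induction n, hn using Nat.le_induction with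
    | base => rfl
    | succ n hn ih =>
      rw [hH n p (lev_mono hn (hM p))]
      exact ih
  have hcom : ∀ n p, M p ≤ n → p ∈ lev U n := fun n p hn => lev_mono hn (hM p)
  refine ⟨F, RepOn.toRep ⟨?_, ?_, ?_⟩⟩
  · intro p _ q _ heq
    have h1 : M p ≤ max (M p) (M q) := le_max_left _ _
    have h2 : M q ≤ max (M p) (M q) := le_max_right _ _
    refine (H (max (M p) (M q))).2.rep.inj p (hcom _ p h1) q (hcom _ q h2) ?_
    rw [hF p _ h1, hF q _ h2]
    exact heq
  · intro p _ q _ r _ hpq hqr hpr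
    have h1 : M p ≤ max (max (M p) (M q)) (M r) := (le_max_left _ _).trans (le_max_left _ _)
    have h2 : M q ≤ max (max (M p) (M q)) (M r) := (le_max_right _ _).trans (le_max_left _ _)
    have h3 : M r ≤ max (max (M p) (M q)) (M r) := le_max_right _ _
    have h4 := (H (max (max (M p) (M q)) (M r))).2.rep.col p (hcom _ p h1) q (hcom _ q h2) r
      (hcom _ r h3) hpq hqr hpr
    rwa [hF p _ h1, hF q _ h2, hF r _ h3] at h4
  · intro p _ q _ hpq
    have h1 : M p ≤ max (M p) (M q) := le_max_left _ _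
    have h2 : M q ≤ max (M p) (M q) := le_max_right _ _
    have h4 := (H (max (M p) (M q))).2.rep.adj p (hcom _ p h1) q (hcom _ q h2) hpq
    rwa [hF p _ h1, hF q _ h2] at h4

end

end Pool.Agent.Lib.MP_a24e3f_co.CC
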