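import Mathlib
import Pool.Agent.Lib.MP_a24e3f_co.CC.Hamming

/-!
# Products with the infinite Hamming graph
-/

set_option autoImplicit false

namespace Pool.Agent.Lib.MP_a24e3f_co.CC

open SimpleGraph

/-- The infinite Hamming graph, the weak Cartesian product of countably many copies of the complete
graph on the natural numbers: the vertices are the sequences of natural numbers almost all of which
are zero, and two of them are adjacent if and only if they differ in exactly one place. -/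
def Ham : SimpleGraph (ℕ →₀ ℕ) where
  Adj x y := ∃ k, x k ≠ y k ∧ ∀ j, j ≠ k → x j = y j
  symm := ⟨by
    rintro x y ⟨i, h2, h3⟩
    exact ⟨i, h2.symm, fun j hj => (h3 j hj).symm⟩⟩
  loopless := ⟨by
    rintro x ⟨i, h2, _⟩
    exact h2 rfl⟩

theorem hamming_eq {U : Type} (T : SimpleGraph U) : hamming T = T □ Ham := by
  ext p q
  rw [boxProd_adj]
  constructor
  · rintro (h | ⟨h1, h2⟩)
    · exact Or.inl h
    · exact Or.inr ⟨h2, h1⟩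
  · rintro (h | ⟨h1, h2⟩)
    · exact Or.inl h
    · exact Or.inr ⟨h2, h1⟩

/-- three points on a circle -/
theorem circ_gen (x y z c : Plane) (R : ℝ) (hx : sd x c = R) (hy : sd y c = R) (hz : sd z c = R) :
    sd x y * sd y z * sd x z = 4 * R * ar x y z ^ 2 := by
  obtain ⟨a0, ha0⟩ : ∃ a0, x 0 - c 0 = a0 := ⟨_, rfl⟩
  obtain ⟨a1, ha1⟩ : ∃ a1, x 1 - c 1 = a1 := ⟨_, rfl⟩
  obtain ⟨b0, hb0⟩ : ∃ b0, y 0 - c 0 = b0 := ⟨_, rfl⟩
  obtain ⟨b1, hb1⟩ : ∃ b1, y 1 - c 1 = b1 := ⟨_, rfl⟩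
  obtain ⟨e0, he0⟩ : ∃ e0, z 0 - c 0 = e0 := ⟨_, rfl⟩
  obtain ⟨e1, he1⟩ : ∃ e1, z 1 - c 1 = e1 := ⟨_, rfl⟩
  have hA : a0 ^ 2 + a1 ^ 2 = R := by rw [← hx, ← ha0, ← ha1]; rfl
  have hB : b0 ^ 2 + b1 ^ 2 = R := by rw [← hy, ← hb0, ← hb1]; rfl
  have hC : e0 ^ 2 + e1 ^ 2 = R := by rw [← hz, ← he0, ← he1]; rfl
  have s1 : sd x y = 2 * R - 2 * (a0 * b0 + a1 * b1) := by
    unfold sd
    have t1 : x 0 - y 0 = a0 - b0 := by rw [← ha0, ← hb0]; ring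
    have t2 : x 1 - y 1 = a1 - b1 := by rw [← ha1, ← hb1]; ring
    rw [t1, t2]
    linear_combination hA + hB
  have s2 : sd y z = 2 * R - 2 * (b0 * e0 + b1 * e1) := by
    unfold sd
    have t1 : y 0 - z 0 = b0 - e0 := by rw [← he0, ← hb0]; ring
    have t2 : y 1 - z 1 = b1 - e1 := by rw [← he1, ← hb1]; ring
    rw [t1, t2]
    linear_combination hB + hC
  have s3 : sd x z = 2 * R - 2 * (a0 * e0 + a1 * e1) := by
    unfold sd
    have t1 : x 0 - z 0 = a0 - e0 := by rw [← ha0, ← he0]; ring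
    have t2 : x 1 - z 1 = a1 - e1 := by rw [← ha1, ← he1]; ring
    rw [t1, t2]
    linear_combination hA + hC
  have s4 : ar x y z ^ 2 = 3 * R ^ 2 - (a0 * b0 + a1 * b1) ^ 2 - (b0 * e0 + b1 * e1) ^ 2 -
      (a0 * e0 + a1 * e1) ^ 2 +
      2 * ((a0 * b0 + a1 * b1) * (b0 * e0 + b1 * e1) - R * (a0 * e0 + a1 * e1)) +
      2 * ((b0 * e0 + b1 * e1) * (a0 * e0 + a1 * e1) - R * (a0 * b0 + a1 * b1)) +
      2 * ((a0 * e0 + a1 * e1) * (a0 * b0 + a1 * b1) - R * (b0 * e0 + b1 * e1)) := by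
    have t : ar x y z = (b0 - a0) * (e1 - a1) - (b1 - a1) * (e0 - a0) := by
      unfold ar
      rw [← ha0, ← ha1, ← hb0, ← hb1, ← he0, ← he1]
      ring
    rw [t]
    have u : ((b0 - a0) * (e1 - a1) - (b1 - a1) * (e0 - a0)) ^ 2 =
      ((a0 ^ 2 + a1 ^ 2) * (b0 ^ 2 + b1 ^ 2) - (a0 * b0 + a1 * b1) ^ 2) +
      ((b0 ^ 2 + b1 ^ 2) * (e0 ^ 2 + e1 ^ 2) - (b0 * e0 + b1 * e1) ^ 2) +
      ((e0 ^ 2 + e1 ^ 2) * (a0 ^ 2 + a1 ^ 2) - (a0 * e0 + a1 * e1) ^ 2) +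
      2 * ((a0 * b0 + a1 * b1) * (b0 * e0 + b1 * e1) - (b0 ^ 2 + b1 ^ 2) * (a0 * e0 + a1 * e1)) +
      2 * ((b0 * e0 + b1 * e1) * (a0 * e0 + a1 * e1) - (e0 ^ 2 + e1 ^ 2) * (a0 * b0 + a1 * b1)) +
      2 * ((a0 * e0 + a1 * e1) * (a0 * b0 + a1 * b1) -
        (a0 ^ 2 + a1 ^ 2) * (b0 * e0 + b1 * e1)) := by ring
    rw [u, hA, hB, hC]
    ring
  have gram : (a0 ^ 2 + a1 ^ 2) * (b0 ^ 2 + b1 ^ 2) * (e0 ^ 2 + e1 ^ 2) +
      2 * (a0 * b0 + a1 * b1) * (b0 * e0 + b1 * e1) * (a0 * e0 + a1 * e1) -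
      (a0 ^ 2 + a1 ^ 2) * (b0 * e0 + b1 * e1) ^ 2 - (b0 ^ 2 + b1 ^ 2) * (a0 * e0 + a1 * e1) ^ 2 -
      (e0 ^ 2 + e1 ^ 2) * (a0 * b0 + a1 * b1) ^ 2 = 0 := by ring
  rw [hA, hB, hC] at gram
  rw [s1, s2, s3, s4]
  generalize a0 * b0 + a1 * b1 = al at *
  generalize b0 * e0 + b1 * e1 = be at *
  generalize a0 * e0 + a1 * e1 = ga at *
  linear_combination (-4) * gram

/-- **Products with the infinite Hamming graph**, finitely many triangles. -/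
theorem box_ham_finite {U : Type} [Countable U] {T : SimpleGraph U}
    (hT : ∃ f : U → Plane, IsRationalRep T f)
    (hfin : {t : U × U × U | T.Adj t.1 t.2.1 ∧ T.Adj t.2.1 t.2.2 ∧ T.Adj t.1 t.2.2}.Finite) :
    ∃ F : U × (ℕ →₀ ℕ) → Plane, IsRationalRep (T □ Ham) F := by
  obtain ⟨f, hf⟩ := hT
  have hb : ∃ N : ℕ, ∀ t ∈ {t : U × U × U | T.Adj t.1 t.2.1 ∧ T.Adj t.2.1 t.2.2 ∧ T.Adj t.1 t.2.2},
      sd (f t.1) (f t.2.1) * sd (f t.2.1) (f t.2.2) * sd (f t.1) (f t.2.2) <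
        4 * ((N : ℝ) + 1) ^ 2 * ar (f t.1) (f t.2.1) (f t.2.2) ^ 2 := by
    have h1 : ∀ t ∈ {t : U × U × U | T.Adj t.1 t.2.1 ∧ T.Adj t.2.1 t.2.2 ∧ T.Adj t.1 t.2.2},
        ∃ N : ℕ, sd (f t.1) (f t.2.1) * sd (f t.2.1) (f t.2.2) * sd (f t.1) (f t.2.2) <
          4 * ((N : ℝ) + 1) ^ 2 * ar (f t.1) (f t.2.1) (f t.2.2) ^ 2 := by
      rintro t ⟨t1, t2, t3⟩
      have har : 0 < 4 * ar (f t.1) (f t.2.1) (f t.2.2) ^ 2 := by
        have := rep_ar_ne hf t1.ne t2.ne t3.ne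
        positivity
      obtain ⟨N, hN⟩ := exists_nat_gt
        (sd (f t.1) (f t.2.1) * sd (f t.2.1) (f t.2.2) * sd (f t.1) (f t.2.2) /
          (4 * ar (f t.1) (f t.2.1) (f t.2.2) ^ 2))
      refine ⟨N, ?_⟩
      rw [div_lt_iff₀ har] at hN
      have hN0 : (0 : ℝ) ≤ N := by positivity
      have h2 : (N : ℝ) ≤ ((N : ℝ) + 1) ^ 2 := by nlinarith
      nlinarith
    choose! N hN using h1
    obtain ⟨M, hM⟩ := (hfin.image N).bddAbove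
    refine ⟨M, fun t ht => (hN t ht).trans_le ?_⟩
    have h2 : (N t : ℝ) ≤ M := by
      exact_mod_cast hM ⟨t, ht, rfl⟩
    have h3 : (0 : ℝ) ≤ N t := by positivity
    gcongr
  obtain ⟨N, hN⟩ := hb
  rw [← hamming_eq]
  exact weak_product hf N (fun x y z h1 h2 h3 => hN (x, y, z) ⟨h1, h2, h3⟩)

/-- **Products with the infinite Hamming graph**, representations on a circle. -/
theorem box_ham_circle {U : Type} [Countable U] {T : SimpleGraph U} {f : U → Plane}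
    (hf : IsRationalRep T f) (c : Plane) (r : ℝ) (hr : ∀ v, dist (f v) c = r) :
    ∃ F : U × (ℕ →₀ ℕ) → Plane, IsRationalRep (T □ Ham) F := by
  rw [← hamming_eq]
  obtain ⟨N, hN⟩ := exists_nat_gt r
  refine weak_product hf N (fun x y z h1 h2 h3 => ?_)
  have har : 0 < ar (f x) (f y) (f z) ^ 2 := by
    have := rep_ar_ne hf h1.ne h2.ne h3.ne
    positivity
  have hsd : ∀ v, sd (f v) c = r ^ 2 := fun v => by rw [sd_eq_dist, hr]
  rw [circ_gen (f x) (f y) (f z) c (r ^ 2) (hsd x) (hsd y) (hsd z)]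
  have hr0 : 0 ≤ r := by rw [← hr x]; exact dist_nonneg
  have h4 : r ^ 2 < ((N : ℝ) + 1) ^ 2 := by nlinarith
  nlinarith

end Pool.Agent.Lib.MP_a24e3f_co.CC
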