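import Mathlib
import Pool.Agent.Lib.MP_a24e3f_co.CC.Hamming2

/-!
# Induced subgraphs of the infinite Hamming graph; line graphs of bipartite graphs
-/

set_option autoImplicit false

namespace Pool.Agent.Lib.MP_a24e3f_co.CC

open SimpleGraph

theorem rep_comap {V W : Type} {G : SimpleGraph V} {H : SimpleGraph W} (φ : V → W)
    (hφ : Function.Injective φ) (hadj : ∀ u v, G.Adj u v ↔ H.Adj (φ u) (φ v))
    (hH : ∃ g : W → Plane, IsRationalRep H g) : ∃ f : V → Plane, IsRationalRep G f := by
  obtain ⟨g, hg⟩ := hH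
  refine ⟨fun v => g (φ v), hg.injective.comp hφ, ?_, ?_⟩
  · intro u v w huv hvw huw
    exact hg.no_three_collinear _ _ _ (fun h => huv (hφ h)) (fun h => hvw (hφ h))
      (fun h => huw (hφ h))
  · intro u v huv
    rw [hadj]
    exact hg.adj_iff _ _ (fun h => huv (hφ h))

/-- the infinite Hamming graph is rational -/
theorem ham_rep : ∃ f : (ℕ →₀ ℕ) → Plane, IsRationalRep Ham f := by
  have h1 : ∃ f : Unit → Plane, IsRationalRep (⊥ : SimpleGraph Unit) f := by
    refine ⟨fun _ => 0, ?_, ?_, ?_⟩
    · intro u v _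
      exact Subsingleton.elim _ _
    · intro u v w huv
      exact absurd (Subsingleton.elim _ _) huv
    · intro u v huv
      exact absurd (Subsingleton.elim _ _) huv
  have h2 := box_ham_finite h1 (by
    refine Set.finite_empty.subset ?_
    rintro t ⟨h, _⟩
    exact h)
  refine rep_comap (fun x => ((), x)) (fun x y h => congrArg Prod.snd h) ?_ h2
  intro x y
  rw [boxProd_adj]
  constructor
  · intro h
    exact Or.inr ⟨h, rfl⟩
  · rintro (⟨h, _⟩ | ⟨h, _⟩)
    · exact absurd h (SimpleGraph.irrefl _)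
    · exact h

/-- induced subgraphs of the infinite Hamming graph -/
theorem embed_ham {V : Type} {G : SimpleGraph V} (φ : V → (ℕ →₀ ℕ)) (hφ : Function.Injective φ)
    (hadj : ∀ u v, G.Adj u v ↔ Ham.Adj (φ u) (φ v)) : ∃ f : V → Plane, IsRationalRep G f :=
  rep_comap φ hφ hadj ham_rep

/-- **The line graph of a countable bipartite graph is a rational graph.** -/
theorem line_bipartite {V : Type} [Countable V] (G : SimpleGraph V) (c : G.Coloring Bool) :
    ∃ f : G.edgeSet → Plane, IsRationalRep G.lineGraph f := by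
  classical
  obtain ⟨i, hi⟩ := exists_injective_nat V
  have hex : ∀ e : G.edgeSet, ∃ a b : V, (e : Sym2 V) = s(a, b) ∧ c a = false ∧ c b = true := by
    rintro ⟨e, he⟩
    induction e using Sym2.ind with
    | _ a b =>
      have hab : G.Adj a b := he
      have hne := c.valid hab
      cases ha : c a
      · refine ⟨a, b, rfl, ha, ?_⟩
        cases hb : c b
        · exact absurd (ha.trans hb.symm) hne
        · rfl
      · refine ⟨b, a, Sym2.eq_swap, ?_, ha⟩
        cases hb : c b
        · rfl
        · exact absurd (ha.trans hb.symm) hne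
  choose l r he hl hr using hex
  let φ : G.edgeSet → (ℕ →₀ ℕ) := fun e => Finsupp.single 0 (i (l e)) + Finsupp.single 1 (i (r e))
  have φ0 : ∀ e, φ e 0 = i (l e) := by
    intro e
    simp [φ]
  have φ1 : ∀ e, φ e 1 = i (r e) := by
    intro e
    simp [φ]
  have φ2 : ∀ e j, j ≠ 0 → j ≠ 1 → φ e j = 0 := by
    intro e j h0 h1
    simp [φ, Ne.symm h0, Ne.symm h1]
  have hinj : Function.Injective φ := by
    intro e e' h
    have h0 : l e = l e' := hi (by rw [← φ0, ← φ0, h])
    have h1 : r e = r e' := hi (by rw [← φ1, ← φ1, h])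
    exact Subtype.ext (by rw [he e, he e', h0, h1])
  refine embed_ham φ hinj ?_
  intro e e'
  have hmem : ∀ (e : G.edgeSet) (v : V), v ∈ (e : Sym2 V) ↔ v = l e ∨ v = r e := by
    intro e v
    rw [he e, Sym2.mem_iff]
  rw [lineGraph_adj_iff_exists]
  constructor
  · rintro ⟨hne, v, hv, hv'⟩
    rw [hmem] at hv hv'
    have key : (l e = l e' ∧ r e ≠ r e') ∨ (l e ≠ l e' ∧ r e = r e') := by
      have hnot : ¬ (l e = l e' ∧ r e = r e') := by
        rintro ⟨h0, h1⟩
        exact hne (Subtype.ext (by rw [he e, he e', h0, h1]))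
      rcases hv with rfl | rfl
      · rcases hv' with h | h
        · exact Or.inl ⟨h, fun h1 => hnot ⟨h, h1⟩⟩
        · exfalso
          have := hl e
          rw [h, hr e'] at this
          exact Bool.noConfusion this
      · rcases hv' with h | h
        · exfalso
          have := hr e
          rw [h, hl e'] at this
          exact Bool.noConfusion this
        · exact Or.inr ⟨fun h1 => hnot ⟨h1, h⟩, h⟩
    rcases key with ⟨h0, h1⟩ | ⟨h0, h1⟩
    · refine ⟨1, ?_, ?_⟩
      · rw [φ1, φ1]
        exact fun h => h1 (hi h)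
      · intro j hj
        by_cases hj0 : j = 0
        · rw [hj0, φ0, φ0, h0]
        · rw [φ2 _ _ hj0 hj, φ2 _ _ hj0 hj]
    · refine ⟨0, ?_, ?_⟩
      · rw [φ0, φ0]
        exact fun h => h0 (hi h)
      · intro j hj
        by_cases hj1 : j = 1
        · rw [hj1, φ1, φ1, h1]
        · rw [φ2 _ _ hj hj1, φ2 _ _ hj hj1]
  · rintro ⟨k, hk, hk'⟩
    have hne : e ≠ e' := by
      rintro rfl
      exact hk rfl
    refine ⟨hne, ?_⟩
    by_cases hk0 : k = 0
    · refine ⟨r e, (hmem e _).mpr (Or.inr rfl), (hmem e' _).mpr (Or.inr ?_)⟩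
      have h1 := hk' 1 (by omega)
      rw [φ1, φ1] at h1
      exact hi h1
    · refine ⟨l e, (hmem e _).mpr (Or.inl rfl), (hmem e' _).mpr (Or.inl ?_)⟩
      have h1 := hk' 0 (by omega)
      rw [φ0, φ0] at h1
      exact hi h1

end Pool.Agent.Lib.MP_a24e3f_co.CC
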